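import Mathlib
import Pool.Agent.HartN.Zak

/-!
Nonsingular nondegenerate cones: basic facts.
-/

namespace Pool.Agent.HartA

open Pool.Agent.Hartshorne MvPolynomial

set_option linter.unusedSectionVars false

section NBasics

variable {ρ : Type} [Fintype ρ] [DecidableEq ρ]

/-- The zeros of an ideal. -/
def VI {σ : Type*} (I : Ideal (MvPolynomial σ ℂ)) : Set (σ → ℂ) := {p | ∀ h ∈ I, eval p h = 0}

/-- A nonsingular nondegenerate cone of codimension `c`. -/
structure NX (I : Ideal (MvPolynomial ρ ℂ)) (c : ℕ) : Prop where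
  hI : I.IsPrime
  hhom : HI I
  hdim : ((Fintype.card ρ : ℕ) : WithBot ℕ∞) ≤
      ringKrullDim (MvPolynomial ρ ℂ ⧸ I) + (c : WithBot ℕ∞)
  hsm : ∀ p : ρ → ℂ, p ≠ 0 → p ∈ VI I →
      ∃ q : Fin c → MvPolynomial ρ ℂ, (∀ k, q k ∈ I) ∧
        LinearIndependent ℂ (fun k => grad p (q k))
  hnd : ∀ H : ρ → ℂ, H ≠ 0 → ∃ p ∈ VI I, H ⬝ᵥ p ≠ 0

variable {I : Ideal (MvPolynomial ρ ℂ)} {c : ℕ}

lemma mem_VI {p : ρ → ℂ} : p ∈ VI I ↔ ∀ h ∈ I, eval p h = 0 := Iff.rfl

lemma VI_smul (hhom : HI I) {p : ρ → ℂ} (hp : p ∈ VI I) (t : ℂ) : t • p ∈ VI I := by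
  intro h hh
  rw [← sum_homogeneousComponent h, map_sum]
  refine Finset.sum_eq_zero (fun e _ => ?_)
  rw [eval_smul_of_isHomogeneous (homogeneousComponent_isHomogeneous e h), hp _ (hhom h hh e),
    mul_zero]

/-- The polynomial of values on a line. -/
noncomputable def lineP (y v : ρ → ℂ) : MvPolynomial ρ ℂ →ₐ[ℂ] Polynomial ℂ :=
  aeval (fun i => Polynomial.C (y i) + Polynomial.X * Polynomial.C (v i))

lemma eval_lineP (y v : ρ → ℂ) (s : ℂ) (f : MvPolynomial ρ ℂ) :
    (lineP y v f).eval s = eval (y + s • v) f := by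
  have h1 : ((Polynomial.evalRingHom s).comp
      ((lineP y v : MvPolynomial ρ ℂ →ₐ[ℂ] Polynomial ℂ) : MvPolynomial ρ ℂ →+* Polynomial ℂ)) =
      eval (y + s • v) := by
    apply MvPolynomial.ringHom_ext
    · intro t; simp [lineP]
    · intro i
      simp [lineP]
      ring
  exact RingHom.congr_fun h1 f

/-- Extension over a point of a line. -/
lemma eval_of_line {y v : ρ → ℂ} {f : MvPolynomial ρ ℂ}
    (h : ∀ s : ℂ, s ≠ 0 → eval (y + s • v) f = 0) (s : ℂ) : eval (y + s • v) f = 0 := by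
  have h1 : lineP y v f = 0 := by
    apply Polynomial.eq_zero_of_infinite_isRoot
    refine Set.Infinite.mono (s := {s : ℂ | s ≠ 0}) (fun s hs => ?_) ?_
    · show (lineP y v f).eval s = 0
      rw [eval_lineP]
      exact h s hs
    · exact (Set.finite_singleton (0 : ℂ)).infinite_compl
  rw [← eval_lineP, h1, Polynomial.eval_zero]

lemma eval_of_line0 {y v : ρ → ℂ} {f : MvPolynomial ρ ℂ}
    (h : ∀ s : ℂ, s ≠ 0 → eval (y + s • v) f = 0) : eval y f = 0 := by
  have h1 := eval_of_line h 0
  rwa [zero_smul, add_zero] at h1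

lemma VI_of_line {y v : ρ → ℂ} (h : ∀ s : ℂ, s ≠ 0 → y + s • v ∈ VI I) (s : ℂ) :
    y + s • v ∈ VI I := fun f hf => eval_of_line (fun s hs => h s hs f hf) s

lemma VI_of_line0 {y v : ρ → ℂ} (h : ∀ s : ℂ, s ≠ 0 → y + s • v ∈ VI I) : y ∈ VI I :=
  fun f hf => eval_of_line0 (fun s hs => h s hs f hf)

/-- From an affine line to the plane it spans. -/
lemma VI_plane (hhom : HI I) {y v : ρ → ℂ} (h : ∀ s : ℂ, y + s • v ∈ VI I) (s t : ℂ) :
    s • y + t • v ∈ VI I := by
  have h1 : ∀ s : ℂ, s ≠ 0 → t • v + s • y ∈ VI I := by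
    intro s hs
    have h2 := VI_smul hhom (h (t / s)) s
    rw [smul_add, smul_smul, mul_div_cancel₀ _ hs, add_comm] at h2
    exact h2
  have h2 := VI_of_line h1 s
  rwa [add_comm] at h2

lemma NX.zero_mem (hX : NX I c) : (0 : ρ → ℂ) ∈ VI I := by
  intro h hh
  by_cases hemp : Nonempty ρ
  · obtain ⟨i⟩ := hemp
    obtain ⟨p, hp, -⟩ := hX.hnd (Pi.single i 1) (by
      intro h
      have := congrFun h i
      rw [Pi.single_eq_same] at this
      exact one_ne_zero this)
    have := VI_smul hX.hhom hp 0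
    rw [zero_smul] at this
    exact this h hh
  · by_contra hne
    apply hX.hI.ne_top
    rw [Ideal.eq_top_iff_one]
    have h1 : h = C (eval 0 h) := by
      have : IsEmpty ρ := not_nonempty_iff.mp hemp
      conv_lhs => rw [eq_C_of_isEmpty h]
      rw [eval_zero_eq_coeff]
    have h2 : C (eval 0 h)⁻¹ * h ∈ I := I.mul_mem_left _ hh
    rw [h1, ← C_mul, eval_C, inv_mul_cancel₀ hne, C_1] at h2
    exact h2

/-! ### The spaces of gradients -/

lemma gradSpan_smul_le (hhom : HI I) (p : ρ → ℂ) {t : ℂ} (ht : t ≠ 0) :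
    gradSpan I p ≤ gradSpan I (t • p) := by
  rw [gradSpan, Submodule.span_le]
  rintro _ ⟨h, hh, rfl⟩
  have h1 : (fun b => eval p (pderiv b h)) =
      ∑ e ∈ Finset.range (h.totalDegree + 1), grad p (homogeneousComponent e h) := by
    rw [← map_sum, sum_homogeneousComponent, grad_eq_fun]
  rw [h1]
  refine Submodule.sum_mem _ (fun e _ => ?_)
  have h2 : grad (t • p) (homogeneousComponent e h) =
      t ^ (e - 1) • grad p (homogeneousComponent e h) := by
    funext b
    rw [Pi.smul_apply, grad_apply, grad_apply, smul_eq_mul,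
      eval_smul_of_isHomogeneous (homogeneousComponent_isHomogeneous e h).pderiv]
  have h3 : grad p (homogeneousComponent e h) =
      (t ^ (e - 1))⁻¹ • grad (t • p) (homogeneousComponent e h) := by
    rw [h2, smul_smul, inv_mul_cancel₀ (pow_ne_zero _ ht), one_smul]
  rw [h3]
  exact Submodule.smul_mem _ _ (grad_mem_gradSpan (hhom h hh e) _)

lemma gradSpan_smul (hhom : HI I) (p : ρ → ℂ) {t : ℂ} (ht : t ≠ 0) :
    gradSpan I (t • p) = gradSpan I p := by
  refine le_antisymm ?_ (gradSpan_smul_le hhom p ht)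
  have h1 := gradSpan_smul_le hhom (t • p) (inv_ne_zero ht)
  rwa [smul_smul, inv_mul_cancel₀ ht, one_smul] at h1

lemma NX.finrank (hX : NX I c) {p : ρ → ℂ} (hp0 : p ≠ 0) (hp : p ∈ VI I) :
    Module.finrank ℂ (gradSpan I p) = c := by
  refine le_antisymm (finrank_gradSpan_le' hX.hI hX.hdim hp) ?_
  obtain ⟨q, hq, hli⟩ := hX.hsm p hp0 hp
  have h2 := finrank_span_eq_card hli
  rw [Fintype.card_fin] at h2
  rw [← h2]
  apply Submodule.finrank_mono
  rw [Submodule.span_le]
  rintro _ ⟨k, rfl⟩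
  exact grad_mem_gradSpan (hq k) p

/-- Independent elements of the space of gradients span it. -/
lemma NX.span_eq (hX : NX I c) {p : ρ → ℂ} (hp0 : p ≠ 0) (hp : p ∈ VI I)
    {w : Fin c → (ρ → ℂ)} (hw : ∀ j, w j ∈ gradSpan I p) (hli : LinearIndependent ℂ w) :
    Submodule.span ℂ (Set.range w) = gradSpan I p :=
  span_eq_of_li (hX.finrank hp0 hp) w hli hw

/-- There are no `c + 1` independent gradients. -/
lemma NX.not_li (hX : NX I c) {p : ρ → ℂ} (hp0 : p ≠ 0) (hp : p ∈ VI I)
    {w : Option (Fin c) → (ρ → ℂ)} (hw : ∀ j, w j ∈ gradSpan I p) :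
    ¬ LinearIndependent ℂ w := by
  intro hli
  have h1 : Submodule.span ℂ (Set.range w) ≤ gradSpan I p := by
    rw [Submodule.span_le]
    rintro _ ⟨j, rfl⟩
    exact hw j
  have h2 := Submodule.finrank_mono h1
  rw [finrank_span_eq_card hli, hX.finrank hp0 hp, Fintype.card_option, Fintype.card_fin] at h2
  omega

/-- Independence of vectors depending polynomially on the point of a line. -/
lemma li_open {κ : Type*} [Fintype κ] [DecidableEq κ] (r : κ → ρ → Polynomial ℂ) {s₀ : ℂ}
    (h : LinearIndependent ℂ (fun j => fun i => (r j i).eval s₀)) :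
    ∃ D : Polynomial ℂ, D.eval s₀ ≠ 0 ∧ ∀ s, D.eval s ≠ 0 →
      LinearIndependent ℂ (fun j => fun i => (r j i).eval s) := by
  obtain ⟨T, hT⟩ := exists_minor _ h
  set M : Matrix κ κ (Polynomial ℂ) := Matrix.of fun j l => r j (T l) with hM
  have hev : ∀ s, (M.det).eval s = (Matrix.of fun j l => (r j (T l)).eval s).det := by
    intro s
    rw [← Polynomial.coe_evalRingHom, RingHom.map_det]
    rfl
  refine ⟨M.det, ?_, fun s hs => ?_⟩
  · rw [hev]; exact hT
  · rw [hev] at hs
    have h1 := Matrix.linearIndependent_rows_of_det_ne_zero hs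
    apply LinearIndependent.of_comp (LinearMap.funLeft ℂ ℂ T)
    exact h1

/-- Two open conditions on a line, avoiding finitely many points. -/
lemma exists_avoid {D : Polynomial ℂ} (hD : D ≠ 0) (S : Set ℂ) (hS : S.Finite) :
    ∃ s, s ∉ S ∧ D.eval s ≠ 0 := by
  by_contra hcon
  push Not at hcon
  apply hD
  apply Polynomial.eq_zero_of_infinite_isRoot
  exact Set.Infinite.mono (s := Sᶜ) (fun s hs => hcon s hs) hS.infinite_compl

/-- The points of a line equal to `0`. -/
lemma finite_zero_line {y v : ρ → ℂ} (h : y ≠ 0 ∨ v ≠ 0) : {s : ℂ | y + s • v = 0}.Finite := by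
  by_cases hv : v = 0
  · have hy : y ≠ 0 := by
      rcases h with h | h
      · exact h
      · exact absurd hv h
    refine Set.Finite.subset Set.finite_empty ?_
    rintro s hs
    rw [Set.mem_ofPred_eq, hv, smul_zero, add_zero] at hs
    exact absurd hs hy
  · obtain ⟨i, hi⟩ := Function.ne_iff.mp hv
    rw [Pi.zero_apply] at hi
    refine Set.Finite.subset (Set.finite_singleton (- y i / v i)) ?_
    rintro s hs
    have h1 := congrFun hs i
    rw [Pi.add_apply, Pi.smul_apply, smul_eq_mul, Pi.zero_apply] at h1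
    rw [Set.mem_singleton_iff, eq_div_iff hi]
    linear_combination h1

/-- **Closedness**: a limit of gradients along a line is a gradient. -/
theorem NX.cl (hX : NX I c) {y v r₀ r₁ : ρ → ℂ} (hy0 : y ≠ 0)
    (hy : ∀ s : ℂ, y + s • v ∈ VI I)
    (hr : ∀ s : ℂ, s ≠ 0 → y + s • v ≠ 0 → r₀ + s • r₁ ∈ gradSpan I (y + s • v)) :
    r₀ ∈ gradSpan I y := by
  classical
  by_contra hcon
  have hyI : y ∈ VI I := by have := hy 0; rwa [zero_smul, add_zero] at this
  obtain ⟨q, hq, hli⟩ := hX.hsm y hy0 hyI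
  have hspan := hX.span_eq hy0 hyI (fun j => grad_mem_gradSpan (hq j) y) hli
  set r : Option (Fin c) → ρ → Polynomial ℂ := fun o => Option.elim o
    (fun i => Polynomial.C (r₀ i) + Polynomial.X * Polynomial.C (r₁ i))
    (fun k => fun i => lineP y v (pderiv i (q k))) with hrdef
  have hrev : ∀ s, (fun j => fun i => (r j i).eval s) =
      fun o => Option.elim o (r₀ + s • r₁) (fun k => grad (y + s • v) (q k)) := by
    intro s
    funext o i
    rcases o with _ | k
    · simp [hrdef]
      ring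
    · show (lineP y v (pderiv i (q k))).eval s = grad (y + s • v) (q k) i
      rw [eval_lineP, grad_apply]
  have hli0 : LinearIndependent ℂ (fun j => fun i => (r j i).eval 0) := by
    rw [hrev 0]
    have h1 : (fun o => Option.elim o (r₀ + (0 : ℂ) • r₁)
        (fun k => grad (y + (0 : ℂ) • v) (q k))) =
        fun o => Option.casesOn' o r₀ (fun k => grad y (q k)) := by
      funext o
      rcases o with _ | k
      · show r₀ + (0 : ℂ) • r₁ = r₀
        rw [zero_smul, add_zero]
      · show grad (y + (0 : ℂ) • v) (q k) = grad y (q k)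
        rw [zero_smul, add_zero]
    rw [h1]
    rw [linearIndependent_option']
    refine ⟨hli, ?_⟩
    rw [hspan]
    exact hcon
  obtain ⟨D, hD0, hD⟩ := li_open r hli0
  obtain ⟨s, hs, hDs⟩ := exists_avoid (D := D) (by rintro rfl; simp at hD0)
    ({0} ∪ {s : ℂ | y + s • v = 0})
    ((Set.finite_singleton _).union (finite_zero_line (Or.inl hy0)))
  rw [Set.mem_union, Set.mem_singleton_iff, Set.mem_ofPred_eq, not_or] at hs
  have h2 := hD s hDs
  rw [hrev s] at h2
  refine hX.not_li hs.2 (hy s) ?_ h2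
  rintro (_ | k)
  · exact hr s hs.1 hs.2
  · exact grad_mem_gradSpan (hq k) _

/-- Constant version. -/
theorem NX.cl' (hX : NX I c) {y v r₀ : ρ → ℂ} (hy0 : y ≠ 0)
    (hy : ∀ s : ℂ, y + s • v ∈ VI I)
    (hr : ∀ s : ℂ, s ≠ 0 → y + s • v ≠ 0 → r₀ ∈ gradSpan I (y + s • v)) :
    r₀ ∈ gradSpan I y :=
  hX.cl (r₁ := 0) hy0 hy (fun s hs hs' => by rw [smul_zero, add_zero]; exact hr s hs hs')

/-- Constant version, from one end of a line to the other. -/
theorem NX.cl_end (hX : NX I c) {y v r₀ : ρ → ℂ} (hv0 : v ≠ 0)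
    (hy : ∀ s : ℂ, y + s • v ∈ VI I)
    (hr : ∀ s : ℂ, y + s • v ≠ 0 → r₀ ∈ gradSpan I (y + s • v)) :
    r₀ ∈ gradSpan I v := by
  refine hX.cl' (v := y) hv0 (fun s => ?_) (fun s hs hs' => ?_)
  · have := VI_plane hX.hhom hy s 1
    rwa [one_smul, add_comm] at this
  · have h1 : v + s • y = s • (y + s⁻¹ • v) := by
      rw [smul_add, smul_smul, mul_inv_cancel₀ hs, one_smul, add_comm]
    rw [h1] at hs' ⊢
    rw [gradSpan_smul hX.hhom _ hs]
    exact hr _ (fun h => hs' (by rw [h, smul_zero]))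

/-- **Linear containment**: local equations vanishing on a line. -/
theorem NX.lc (hX : NX I c) {e v : ρ → ℂ} (he : e ∈ VI I) {g : Fin c → MvPolynomial ρ ℂ}
    (hg : ∀ j, g j ∈ I) (hli : LinearIndependent ℂ (fun j => grad e (g j)))
    (hz : ∀ (s : ℂ) j, eval (e + s • v) (g j) = 0) (s : ℂ) : e + s • v ∈ VI I := by
  intro h hh
  obtain ⟨u, hu, hm⟩ := (point_case I hX.hI e he c g hg hli).2 hX.hdim h hh
  have h1 : lineP e v (u * h) = 0 := by
    have h2 : Ideal.span (Set.range g) ≤ RingHom.ker (lineP e v) := by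
      rw [Ideal.span_le]
      rintro _ ⟨j, rfl⟩
      show lineP e v (g j) = 0
      apply Polynomial.funext
      intro s
      rw [eval_lineP, hz, Polynomial.eval_zero]
    exact h2 hm
  rw [map_mul, mul_eq_zero] at h1
  rcases h1 with h1 | h1
  · exfalso
    apply hu
    have := eval_lineP e v 0 u
    rwa [h1, Polynomial.eval_zero, zero_smul, add_zero, eq_comm] at this
  · rw [← eval_lineP, h1, Polynomial.eval_zero]

/-- Linear containment, with two points. -/
theorem NX.lc_sub (hX : NX I c) {e y : ρ → ℂ} (he : e ∈ VI I) {g : Fin c → MvPolynomial ρ ℂ}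
    (hg : ∀ j, g j ∈ I) (hli : LinearIndependent ℂ (fun j => grad e (g j)))
    (hz : ∀ (s : ℂ) j, eval (e + s • (y - e)) (g j) = 0) : y ∈ VI I := by
  have := hX.lc he hg hli hz 1
  rwa [one_smul, add_sub_cancel] at this

/-- Tangent directions of lines. -/
lemma dot_of_line {y v : ρ → ℂ} {f : MvPolynomial ρ ℂ} (h : ∀ s : ℂ, eval (y + s • v) f = 0) :
    grad y f ⬝ᵥ v = 0 := by
  have h1 : lineP y v f = 0 := by
    apply Polynomial.funext
    intro s
    rw [eval_lineP, h, Polynomial.eval_zero]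
  have h2 : ∀ f : MvPolynomial ρ ℂ, (Polynomial.derivative (lineP y v f)).eval 0 =
      grad y f ⬝ᵥ v := by
    intro f
    induction f using MvPolynomial.induction_on with
    | C t => simp [lineP, dotProduct, grad_apply]
    | add p q hp hq =>
      rw [map_add, map_add, Polynomial.eval_add, hp, hq, map_add, add_dotProduct]
    | mul_X p i hp =>
      rw [map_mul, Polynomial.derivative_mul, Polynomial.eval_add, Polynomial.eval_mul,
        Polynomial.eval_mul, hp]
      have h3 : (lineP y v p).eval 0 = eval y p := by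
        rw [eval_lineP, zero_smul, add_zero]
      have h4 : (lineP y v (X i)).eval 0 = y i := by
        rw [eval_lineP, zero_smul, add_zero, eval_X]
      have h5 : (Polynomial.derivative (lineP y v (X i : MvPolynomial ρ ℂ))).eval 0 = v i := by
        simp [lineP]
      rw [h3, h4, h5]
      have h6 : grad y (p * X i) = y i • grad y p + Pi.single i (eval y p) := by
        funext b
        rw [grad_apply, pderiv_mul, map_add, map_mul, map_mul, eval_X, Pi.add_apply,
          Pi.smul_apply, grad_apply, smul_eq_mul]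
        by_cases hb : b = i
        · rw [hb, pderiv_X_self, map_one, Pi.single_eq_same]
          ring
        · rw [pderiv_X_of_ne (Ne.symm hb), map_zero, Pi.single_eq_of_ne hb]
          ring
      rw [h6, add_dotProduct, smul_dotProduct, single_dotProduct, smul_eq_mul]
      ring
  rw [← h2, h1, Polynomial.derivative_zero, Polynomial.eval_zero]

/-- The tangent space contains the lines. -/
lemma gradSpan_dot_of_line {y v : ρ → ℂ} (h : ∀ s : ℂ, y + s • v ∈ VI I) {ε : ρ → ℂ}
    (hε : ε ∈ gradSpan I y) : ε ⬝ᵥ v = 0 := by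
  obtain ⟨g, hg, rfl⟩ := exists_grad_of_mem hε
  exact dot_of_line (fun s => h s g hg)

end NBasics

end Pool.Agent.HartA
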