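import Mathlib
import Pool.Agent.HartA.Basic

/-!
The one-parameter group of a nilpotent matrix tangent to a variety.
-/

namespace Pool.Agent.HartA

open Pool.Agent.Hartshorne MvPolynomial

set_option linter.unusedSectionVars false

section A6
variable {ρ : Type} [Fintype ρ] [DecidableEq ρ] {I : Ideal (MvPolynomial ρ ℂ)} {c : ℕ}

/-- The derivation of the polynomial ring given by a matrix. -/
noncomputable def DM (M : Matrix ρ ρ ℂ) (F : MvPolynomial ρ ℂ) : MvPolynomial ρ ℂ :=
  ∑ i, (∑ j, C (M i j) * X j) * pderiv i F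

/-- The matrix is tangent to the variety. -/
def Tangent (I : Ideal (MvPolynomial ρ ℂ)) (M : Matrix ρ ρ ℂ) : Prop := ∀ F ∈ I, DM M F ∈ I

/-- The one-parameter group of a nilpotent matrix (`M ^ (k + 1) = 0`). -/
noncomputable def expM (M : Matrix ρ ρ ℂ) (k : ℕ) (t : ℂ) : Matrix ρ ρ ℂ :=
  ∑ i ∈ Finset.range (k + 1), (t ^ i / (i.factorial : ℂ)) • M ^ i

/-- The chain rule for a polynomial curve. -/
theorem OneParam_derivative (g : ρ → Polynomial ℂ) (F : MvPolynomial ρ ℂ) :
    Polynomial.derivative (aeval g F) = ∑ i, aeval g (pderiv i F) * Polynomial.derivative (g i) := by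
  induction F using MvPolynomial.induction_on with
  | C t => simp
  | add p q hp hq =>
    rw [map_add, map_add, hp, hq, ← Finset.sum_add_distrib]
    refine Finset.sum_congr rfl (fun i _ => ?_)
    rw [map_add, map_add, add_mul]
  | mul_X p j hp =>
    rw [map_mul, aeval_X, Polynomial.derivative_mul, hp]
    have h1 : ∀ i, aeval g (pderiv i (p * X j)) * Polynomial.derivative (g i) =
        aeval g (pderiv i p) * Polynomial.derivative (g i) * g j +
          (if i = j then aeval g p * Polynomial.derivative (g i) else 0) := by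
      intro i
      rw [pderiv_mul, map_add, map_mul, map_mul, aeval_X]
      by_cases hij : i = j
      · rw [if_pos hij, hij, pderiv_X_self, map_one]
        ring
      · rw [if_neg hij, pderiv_X_of_ne (Ne.symm hij), map_zero]
        ring
    rw [Finset.sum_congr rfl (fun i _ => h1 i), Finset.sum_add_distrib, ← Finset.sum_mul,
      Finset.sum_ite_eq' Finset.univ j, if_pos (Finset.mem_univ j)]

/-- The coordinates of the orbit of a point. -/
noncomputable def OneParam_curve (M : Matrix ρ ρ ℂ) (k : ℕ) (x : ρ → ℂ) (i : ρ) : Polynomial ℂ :=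
  ∑ j ∈ Finset.range (k + 1), Polynomial.C ((M ^ j).mulVec x i / (j.factorial : ℂ)) * Polynomial.X ^ j

theorem OneParam_curve_eval (M : Matrix ρ ρ ℂ) (k : ℕ) (x : ρ → ℂ) (i : ρ) (t : ℂ) :
    (OneParam_curve M k x i).eval t = (expM M k t).mulVec x i := by
  rw [OneParam_curve, Polynomial.eval_finsetSum, expM, Matrix.sum_mulVec, Finset.sum_apply]
  refine Finset.sum_congr rfl (fun j _ => ?_)
  rw [Polynomial.eval_mul, Polynomial.eval_C, Polynomial.eval_pow, Polynomial.eval_X,
    Matrix.smul_mulVec, Pi.smul_apply, smul_eq_mul]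
  ring

theorem OneParam_curve_derivative {M : Matrix ρ ρ ℂ} {k : ℕ} (hM : M ^ (k + 1) = 0) (x : ρ → ℂ)
    (i : ρ) : Polynomial.derivative (OneParam_curve M k x i) =
      ∑ l, Polynomial.C (M i l) * OneParam_curve M k x l := by
  have h1 : ∑ l, Polynomial.C (M i l) * OneParam_curve M k x l =
      ∑ j ∈ Finset.range (k + 1),
        Polynomial.C ((M ^ (j + 1)).mulVec x i / (j.factorial : ℂ)) * Polynomial.X ^ j := by
    simp only [OneParam_curve, Finset.mul_sum]
    rw [Finset.sum_comm]
    refine Finset.sum_congr rfl (fun j _ => ?_)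
    have h2 : (M ^ (j + 1)).mulVec x i = ∑ l, M i l * (M ^ j).mulVec x l := by
      rw [pow_succ', ← Matrix.mulVec_mulVec]
      rfl
    rw [h2, Finset.sum_div, map_sum, Finset.sum_mul]
    refine Finset.sum_congr rfl (fun l _ => ?_)
    rw [← mul_assoc, ← Polynomial.C_mul, mul_div_assoc]
  have h3 : (M ^ (k + 1)).mulVec x i = 0 := by
    rw [hM, Matrix.zero_mulVec]
    rfl
  rw [h1, Finset.sum_range_succ, h3, zero_div, Polynomial.C_0, zero_mul, add_zero,
    OneParam_curve, Polynomial.derivative_sum, Finset.sum_range_succ']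
  have h4 : Polynomial.derivative (Polynomial.C ((M ^ 0).mulVec x i / ((Nat.factorial 0 : ℕ) : ℂ)) *
      (Polynomial.X : Polynomial ℂ) ^ 0) = 0 := by
    rw [pow_zero, pow_zero, mul_one, Polynomial.derivative_C]
  rw [h4, add_zero]
  refine Finset.sum_congr rfl (fun j _ => ?_)
  rw [Polynomial.derivative_C_mul, Polynomial.derivative_X_pow, Nat.add_sub_cancel, ← mul_assoc,
    ← Polynomial.C_mul]
  congr 2
  rw [Nat.factorial_succ]
  have h5 : ((j + 1 : ℕ) : ℂ) ≠ 0 := Nat.cast_ne_zero.mpr (Nat.succ_ne_zero j)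
  have h6 : (j.factorial : ℂ) ≠ 0 := Nat.cast_ne_zero.mpr (Nat.factorial_ne_zero j)
  push_cast at h5 ⊢
  field_simp

/-- The derivative along the orbit. -/
theorem OneParam_derivative_DM {M : Matrix ρ ρ ℂ} {k : ℕ} (hM : M ^ (k + 1) = 0) (x : ρ → ℂ)
    (F : MvPolynomial ρ ℂ) : Polynomial.derivative (aeval (OneParam_curve M k x) F) =
      aeval (OneParam_curve M k x) (DM M F) := by
  rw [OneParam_derivative, DM, map_sum]
  refine Finset.sum_congr rfl (fun i _ => ?_)
  rw [OneParam_curve_derivative hM, map_mul, map_sum, mul_comm]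
  congr 1
  refine Finset.sum_congr rfl (fun j _ => ?_)
  rw [map_mul, aeval_X, aeval_C, ← Polynomial.C_eq_algebraMap]

theorem OneParam_eval_aeval (g : ρ → Polynomial ℂ) (F : MvPolynomial ρ ℂ) (t : ℂ) :
    (aeval g F).eval t = eval (fun i => (g i).eval t) F := by
  have h1 : (Polynomial.evalRingHom t).comp
      ((aeval g : MvPolynomial ρ ℂ →ₐ[ℂ] Polynomial ℂ) : MvPolynomial ρ ℂ →+* Polynomial ℂ) =
      eval (fun i => (g i).eval t) := by
    apply MvPolynomial.ringHom_ext
    · intro s
      simp
    · intro i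
      simp
  exact RingHom.congr_fun h1 F

/-- The one-parameter group preserves the variety: all derivatives at `0` of the polynomial
`t ↦ F (exp (t M) x)` are values `(D^j F) (x)`. -/
theorem exp_mem {M : Matrix ρ ρ ℂ} {k : ℕ} (hM : M ^ (k + 1) = 0) (ht : Tangent I M)
    {x : ρ → ℂ} (hx : x ∈ VI I) (t : ℂ) : (expM M k t).mulVec x ∈ VI I := by
  have h0 : ∀ i, (OneParam_curve M k x i).eval 0 = x i := by
    intro i
    rw [OneParam_curve, Polynomial.eval_finsetSum, Finset.sum_range_succ']
    rw [Finset.sum_eq_zero]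
    · simp
    · intro j _
      simp
  have hiter : ∀ n, ∀ F ∈ I,
      (Polynomial.derivative^[n] (aeval (OneParam_curve M k x) F)).eval 0 = 0 := by
    intro n
    induction n with
    | zero =>
      intro F hF
      rw [Function.iterate_zero, id_eq, OneParam_eval_aeval]
      have h1 : (fun i => (OneParam_curve M k x i).eval 0) = x := funext h0
      rw [h1]
      exact hx F hF
    | succ n ih =>
      intro F hF
      rw [Function.iterate_succ_apply, OneParam_derivative_DM hM]
      exact ih _ (ht F hF)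
  intro F hF
  have hz : aeval (OneParam_curve M k x) F = 0 := by
    ext n
    have h1 := hiter n F hF
    rw [← Polynomial.coeff_zero_eq_eval_zero, Polynomial.coeff_iterate_derivative, zero_add,
      nsmul_eq_mul] at h1
    rw [Polynomial.coeff_zero]
    rcases mul_eq_zero.mp h1 with h2 | h2
    · exfalso
      rw [Nat.descFactorial_self, Nat.cast_eq_zero] at h2
      exact Nat.factorial_ne_zero n h2
    · exact h2
  have h2 := OneParam_eval_aeval (OneParam_curve M k x) F t
  rw [hz, Polynomial.eval_zero] at h2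
  have h3 : (fun i => (OneParam_curve M k x i).eval t) = (expM M k t).mulVec x :=
    funext (fun i => OneParam_curve_eval M k x i t)
  rw [← h3]
  exact h2.symm

theorem OneParam_expM_eq {M : Matrix ρ ρ ℂ} {k : ℕ} (hM : M ^ (k + 1) = 0) (t : ℂ) :
    expM M k t = IsNilpotent.exp (t • M) := by
  have h1 : (t • M) ^ (k + 1) = 0 := by rw [smul_pow, hM, smul_zero]
  rw [IsNilpotent.exp_eq_sum h1, expM]
  refine Finset.sum_congr rfl (fun i _ => ?_)
  rw [smul_pow]
  have h2 : (i.factorial : ℚ)⁻¹ • (t ^ i • M ^ i) = (((i.factorial : ℚ)⁻¹ : ℚ) : ℂ) • (t ^ i • M ^ i) := by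
    ext a b
    simp [Rat.smul_def]
  rw [h2, smul_smul]
  congr 1
  push_cast
  ring

theorem expM_add {M : Matrix ρ ρ ℂ} {k : ℕ} (hM : M ^ (k + 1) = 0) (s t : ℂ) :
    expM M k s * expM M k t = expM M k (s + t) := by
  rw [OneParam_expM_eq hM, OneParam_expM_eq hM, OneParam_expM_eq hM, add_smul]
  refine (IsNilpotent.exp_add_of_commute ?_ ?_ ?_).symm
  · exact ((Commute.refl M).smul_left s).smul_right t
  · exact ⟨k + 1, by rw [smul_pow, hM, smul_zero]⟩
  · exact ⟨k + 1, by rw [smul_pow, hM, smul_zero]⟩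

end A6

end Pool.Agent.HartA
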