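import Mathlib
import Pool.Agent.HartA.Basic

/-!
Auxiliary results for the deformations of an orbit of a one-parameter group.
-/

namespace Pool.Agent.HartA

open Pool.Agent.Hartshorne MvPolynomial

set_option linter.unusedSectionVars false

section Poly

/-- The top coefficient of a product. -/
lemma coeff_prod_top {A κ : Type*} [CommRing A] [DecidableEq κ] (s : Finset κ)
    (P : κ → Polynomial A) (n : κ → ℕ) (h : ∀ i ∈ s, (P i).natDegree ≤ n i) :
    (∏ i ∈ s, P i).natDegree ≤ ∑ i ∈ s, n i ∧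
      (∏ i ∈ s, P i).coeff (∑ i ∈ s, n i) = ∏ i ∈ s, (P i).coeff (n i) := by
  induction s using Finset.induction_on with
  | empty => simp
  | insert i s hi ih =>
    obtain ⟨h1, h2⟩ := ih (fun j hj => h j (Finset.mem_insert_of_mem hj))
    have h3 := h i (Finset.mem_insert_self i s)
    rw [Finset.prod_insert hi, Finset.sum_insert hi, Finset.prod_insert hi]
    refine ⟨?_, ?_⟩
    · exact Polynomial.natDegree_mul_le.trans (Nat.add_le_add h3 h1)
    · rw [Polynomial.coeff_mul_add_eq_of_natDegree_le h3 h1, h2]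

lemma natDegree_aeval_le {A σ : Type*} [Fintype σ] [CommRing A] [Algebra ℂ A]
    {g : σ → Polynomial A} {k : ℕ} (hg : ∀ b, (g b).natDegree ≤ k) {f : MvPolynomial σ ℂ}
    {e : ℕ} (hf : f.IsHomogeneous e) : (aeval g f).natDegree ≤ e * k := by
  classical
  rw [aeval_def, eval₂_eq']
  refine Polynomial.natDegree_sum_le_of_forall_le _ _ (fun d hd => ?_)
  have h1 : (algebraMap ℂ (Polynomial A)) (coeff d f) = Polynomial.C (algebraMap ℂ A (coeff d f)) :=
    rfl
  rw [h1]
  refine (Polynomial.natDegree_C_mul_le _ _).trans ?_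
  have h2 := (coeff_prod_top Finset.univ (fun i => g i ^ d i) (fun i => d i * k) (fun i _ => by
    exact Polynomial.natDegree_pow_le.trans (Nat.mul_le_mul_left _ (hg i)))).1
  refine h2.trans ?_
  rw [← Finset.sum_mul]
  have h3 : ∑ i, d i = e := by
    have h4 := hf (mem_support_iff.mp hd)
    rw [← h4, Finsupp.weight_apply, Finsupp.sum_fintype]
    · simp
    · intro i; simp
  rw [h3]

lemma coeff_aeval_top {σ : Type*} [Fintype σ]
    {g : σ → Polynomial ℂ} {k : ℕ} (hg : ∀ b, (g b).natDegree ≤ k) {f : MvPolynomial σ ℂ}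
    {e : ℕ} (hf : f.IsHomogeneous e) :
    (aeval g f).coeff (e * k) = eval (fun b => (g b).coeff k) f := by
  classical
  rw [aeval_def, eval₂_eq', eval_eq', Polynomial.finsetSum_coeff]
  refine Finset.sum_congr rfl (fun d hd => ?_)
  have h1 : (algebraMap ℂ (Polynomial ℂ)) (coeff d f) = Polynomial.C (coeff d f) := rfl
  rw [h1, Polynomial.coeff_C_mul]
  congr 1
  have h2 := (coeff_prod_top Finset.univ (fun i => g i ^ d i) (fun i => d i * k) (fun i _ => by
    exact Polynomial.natDegree_pow_le.trans (Nat.mul_le_mul_left _ (hg i)))).2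
  rw [← Finset.sum_mul] at h2
  have h3 : ∑ i, d i = e := by
    have h4 := hf (mem_support_iff.mp hd)
    rw [← h4, Finsupp.weight_apply, Finsupp.sum_fintype]
    · simp
    · intro i; simp
  rw [h3] at h2
  rw [h2]
  refine Finset.prod_congr rfl (fun i _ => ?_)
  exact Polynomial.coeff_pow_of_natDegree_le (hg i)

lemma natDegree_det_le {c : ℕ} (A : Matrix (Fin c) (Fin c) (Polynomial ℂ)) (m : Fin c → ℕ)
    (h : ∀ i l, (A i l).natDegree ≤ m i) : A.det.natDegree ≤ ∑ i, m i := by
  rw [← Matrix.det_transpose, Matrix.det_apply']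
  refine Polynomial.natDegree_sum_le_of_forall_le _ _ (fun τ _ => ?_)
  have h1 : (((Equiv.Perm.sign τ : ℤ) : Polynomial ℂ)) = Polynomial.C (((Equiv.Perm.sign τ : ℤ) : ℂ)) := by
    simp
  rw [h1]
  refine (Polynomial.natDegree_C_mul_le _ _).trans ?_
  exact (coeff_prod_top Finset.univ (fun i => A.transpose (τ i) i) m (fun i _ => h i (τ i))).1

lemma coeff_det_top {c : ℕ} (A : Matrix (Fin c) (Fin c) (Polynomial ℂ)) (m : Fin c → ℕ)
    (h : ∀ i l, (A i l).natDegree ≤ m i) :
    A.det.coeff (∑ i, m i) = (Matrix.of fun i l => (A i l).coeff (m i)).det := by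
  rw [← Matrix.det_transpose, Matrix.det_apply', Polynomial.finsetSum_coeff,
    ← Matrix.det_transpose, Matrix.det_apply']
  refine Finset.sum_congr rfl (fun τ _ => ?_)
  have h1 : (((Equiv.Perm.sign τ : ℤ) : Polynomial ℂ)) = Polynomial.C (((Equiv.Perm.sign τ : ℤ) : ℂ)) := by
    simp
  rw [h1, Polynomial.coeff_C_mul]
  congr 1
  exact (coeff_prod_top Finset.univ (fun i => A.transpose (τ i) i) m (fun i _ => h i (τ i))).2

/-- A functional applied to the coefficients. -/
noncomputable def lamC {R : Type*} [CommRing R] [Algebra ℂ R] (lam : R →ₗ[ℂ] ℂ)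
    (p : Polynomial R) : Polynomial ℂ :=
  ∑ i ∈ Finset.range (p.natDegree + 1), Polynomial.C (lam (p.coeff i)) * Polynomial.X ^ i

lemma eval_lamC {R : Type*} [CommRing R] [Algebra ℂ R] (lam : R →ₗ[ℂ] ℂ) (p : Polynomial R)
    (t : ℂ) : (lamC lam p).eval t = lam (p.eval (algebraMap ℂ R t)) := by
  rw [lamC, Polynomial.eval_finsetSum, Polynomial.eval_eq_sum_range, map_sum]
  refine Finset.sum_congr rfl (fun i _ => ?_)
  rw [Polynomial.eval_mul, Polynomial.eval_C, Polynomial.eval_pow, Polynomial.eval_X,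
    ← map_pow, mul_comm (p.coeff i), ← Algebra.smul_def, map_smul, smul_eq_mul, mul_comm]

lemma natDegree_lamC {R : Type*} [CommRing R] [Algebra ℂ R] (lam : R →ₗ[ℂ] ℂ)
    {p : Polynomial R} {n : ℕ} (hp : p.natDegree ≤ n) : (lamC lam p).natDegree ≤ n := by
  rw [lamC]
  refine Polynomial.natDegree_sum_le_of_forall_le _ _ (fun i hi => ?_)
  refine (Polynomial.natDegree_C_mul_X_pow_le _ _).trans ?_
  rw [Finset.mem_range] at hi
  omega

/-- Evaluation of the parameter after a substitution. -/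
lemma eval_aeval {A σ : Type*} [CommRing A] [Algebra ℂ A] (g : σ → Polynomial A) (a : A)
    (f : MvPolynomial σ ℂ) : (aeval g f).eval a = aeval (fun b => (g b).eval a) f := by
  have h1 : ((Polynomial.evalRingHom a).comp
      ((aeval g : MvPolynomial σ ℂ →ₐ[ℂ] Polynomial A) : MvPolynomial σ ℂ →+* Polynomial A)) =
      ((aeval (fun b => (g b).eval a) : MvPolynomial σ ℂ →ₐ[ℂ] A) : MvPolynomial σ ℂ →+* A) := by
    apply MvPolynomial.ringHom_ext
    · intro t
      have h2 : (algebraMap ℂ (Polynomial A)) t = Polynomial.C (algebraMap ℂ A t) := rfl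
      simp [h2]
    · intro i
      simp
  exact RingHom.congr_fun h1 f

end Poly

section Local

variable {ρ : Type} [Fintype ρ] [DecidableEq ρ] {I : Ideal (MvPolynomial ρ ℂ)} {c : ℕ}

/-- A local functional vanishes on the elements with vanishing gradient. -/
lemma NX.local_zero (hX : NX I c) {p : ρ → ℂ} (hp0 : p ≠ 0) (hp : p ∈ VI I)
    (μ : MvPolynomial ρ ℂ →ₗ[ℂ] ℂ) (hμ : ∀ g, ∀ b ∈ I, μ (g * b) = eval p g * μ b)
    {h : MvPolynomial ρ ℂ} (hh : h ∈ I) (hg : grad p h = 0) : μ h = 0 := by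
  obtain ⟨w, hw, hwli⟩ := hX.hsm p hp0 hp
  obtain ⟨q, hq, hqm⟩ := (point_case I hX.hI p hp c w hw hwli).2 hX.hdim h hh
  obtain ⟨t, ht⟩ := (Submodule.mem_span_range_iff_exists_fun _).mp hqm
  have h1 : ∑ k, eval p (t k) • grad p (w k) = 0 := by
    have h2 := congrArg (grad p) ht
    rw [map_sum, grad_mul, hg, smul_zero, zero_add, hp h hh, zero_smul] at h2
    rw [← h2]
    refine Finset.sum_congr rfl (fun k _ => ?_)
    rw [smul_eq_mul, grad_mul, hp (w k) (hw k), zero_smul, add_zero]
  have h2 := Fintype.linearIndependent_iff.mp hwli _ h1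
  have h3 : eval p q * μ h = 0 := by
    rw [← hμ q h hh, ← ht, map_sum]
    refine Finset.sum_eq_zero (fun k _ => ?_)
    rw [smul_eq_mul, hμ _ _ (hw k), h2 k, zero_mul]
  exact (mul_eq_zero.mp h3).resolve_left hq

/-- Composition with a matrix. -/
noncomputable def cmM (A : Matrix ρ ρ ℂ) : MvPolynomial ρ ℂ →ₐ[ℂ] MvPolynomial ρ ℂ :=
  aeval (fun b => ∑ a, C (A b a) * X a)

lemma eval_cmM (A : Matrix ρ ρ ℂ) (p : ρ → ℂ) (h : MvPolynomial ρ ℂ) :
    eval p (cmM A h) = eval (A.mulVec p) h := by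
  have h1 : ((eval p).comp ((cmM A : MvPolynomial ρ ℂ →ₐ[ℂ] MvPolynomial ρ ℂ) :
      MvPolynomial ρ ℂ →+* MvPolynomial ρ ℂ)) = eval (A.mulVec p) := by
    apply MvPolynomial.ringHom_ext
    · intro t; simp [cmM]
    · intro i; simp [cmM, Matrix.mulVec, dotProduct]
  exact RingHom.congr_fun h1 h

lemma grad_cmM (A : Matrix ρ ρ ℂ) (p : ρ → ℂ) (h : MvPolynomial ρ ℂ) :
    grad p (cmM A h) = Matrix.vecMul (grad (A.mulVec p) h) A := by
  induction h using MvPolynomial.induction_on with
  | C t =>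
    have h1 : cmM A (C t : MvPolynomial ρ ℂ) = C t := by simp [cmM]
    rw [h1]
    funext b
    rw [grad_apply, pderiv_C, map_zero]
    have h2 : grad (A.mulVec p) (C t : MvPolynomial ρ ℂ) = 0 := by
      funext b
      rw [grad_apply, pderiv_C, map_zero, Pi.zero_apply]
    rw [h2, Matrix.zero_vecMul, Pi.zero_apply]
  | add f g hf hg => rw [map_add, map_add, hf, hg, map_add, Matrix.add_vecMul]
  | mul_X f i hf =>
    have h1 : cmM A (X i : MvPolynomial ρ ℂ) = ∑ a, C (A i a) * X a := by simp [cmM]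
    have h2 : grad p (∑ a, C (A i a) * X a : MvPolynomial ρ ℂ) = A i := by
      funext b
      rw [grad_apply, map_sum, map_sum, Finset.sum_eq_single b]
      · simp
      · intro a _ hab
        rw [pderiv_C_mul, pderiv_X_of_ne hab, mul_zero, map_zero]
      · intro h; exact absurd (Finset.mem_univ _) h
    have h3 : grad (A.mulVec p) (X i : MvPolynomial ρ ℂ) = Pi.single i 1 := by
      funext b
      rw [grad_apply]
      by_cases hb : b = i
      · rw [hb, pderiv_X_self, map_one, Pi.single_eq_same]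
      · rw [pderiv_X_of_ne (Ne.symm hb), map_zero, Pi.single_eq_of_ne hb]
    rw [map_mul, grad_mul, grad_mul, hf, h1, h2, h3, Matrix.add_vecMul, Matrix.smul_vecMul,
      Matrix.smul_vecMul, ← h1, eval_cmM, eval_cmM, Matrix.single_one_vecMul, Matrix.row]

end Local

end Pool.Agent.HartA
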