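import Mathlib
import Pool.Agent.HartA.OneParam
import Pool.Agent.HartA.OrbitAux

/-!
An infinite group of linear automorphisms gives a tangent matrix.
-/

namespace Pool.Agent.HartA

open Pool.Agent.Hartshorne MvPolynomial

set_option linter.unusedSectionVars false

section Aut

variable {ρ : Type} [Fintype ρ] [DecidableEq ρ] {I : Ideal (MvPolynomial ρ ℂ)} {c : ℕ}

/-- The matrices that map the variety to itself. -/
def Stab (I : Ideal (MvPolynomial ρ ℂ)) (A : Matrix ρ ρ ℂ) : Prop :=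
  ∀ p ∈ VI I, A.mulVec p ∈ VI I

/-- The matrix with given entries. -/
def toM (q : ρ × ρ → ℂ) : Matrix ρ ρ ℂ := Matrix.of fun a b => q (a, b)

/-- The value of a polynomial at the image of a point under the generic matrix. -/
noncomputable def actP (x : ρ → ℂ) : MvPolynomial ρ ℂ →ₐ[ℂ] MvPolynomial (ρ × ρ) ℂ :=
  aeval (fun a => ∑ b, X (a, b) * C (x b))

lemma eval_actP (x : ρ → ℂ) (q : ρ × ρ → ℂ) (f : MvPolynomial ρ ℂ) :
    eval q (actP x f) = eval ((toM q).mulVec x) f := by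
  have h1 : ((eval q).comp ((actP x : MvPolynomial ρ ℂ →ₐ[ℂ] MvPolynomial (ρ × ρ) ℂ) :
      MvPolynomial ρ ℂ →+* MvPolynomial (ρ × ρ) ℂ)) = eval ((toM q).mulVec x) := by
    apply MvPolynomial.ringHom_ext
    · intro t; simp [actP]
    · intro i; simp [actP, Matrix.mulVec, dotProduct, toM]
  exact RingHom.congr_fun h1 f

lemma grad_actP (x : ρ → ℂ) (q : ρ × ρ → ℂ) (f : MvPolynomial ρ ℂ) (p : ρ × ρ) :
    grad q (actP x f) p = grad ((toM q).mulVec x) f p.1 * x p.2 := by
  rw [grad_apply, actP, pderiv_aeval, map_sum, Finset.sum_eq_single p.1]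
  · have h1 : pderiv p (∑ b, X (p.1, b) * C (x b) : MvPolynomial (ρ × ρ) ℂ) = C (x p.2) := by
      rw [map_sum, Finset.sum_eq_single p.2]
      · rw [pderiv_mul, pderiv_X_self, one_mul, pderiv_C, mul_zero, add_zero]
      · intro b _ hb
        rw [pderiv_mul, pderiv_C, mul_zero, add_zero, pderiv_X_of_ne, zero_mul]
        intro h
        exact hb (by rw [← h])
      · intro h; exact absurd (Finset.mem_univ _) h
    rw [h1, map_mul, eval_C, grad_apply]
    congr 1
    exact eval_actP x q _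
  · intro a _ ha
    have h1 : pderiv p (∑ b, X (a, b) * C (x b) : MvPolynomial (ρ × ρ) ℂ) = 0 := by
      rw [map_sum]
      refine Finset.sum_eq_zero (fun b _ => ?_)
      rw [pderiv_mul, pderiv_C, mul_zero, add_zero, pderiv_X_of_ne, zero_mul]
      intro h
      exact ha (by rw [← h])
    rw [h1, mul_zero, map_zero]
  · intro h; exact absurd (Finset.mem_univ _) h

/-- A nonzero vector orthogonal to a proper subspace. -/
lemma exists_dot_zero {τ : Type*} [Fintype τ] [DecidableEq τ] (W : Submodule ℂ (τ → ℂ))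
    (hW : Module.finrank ℂ W < Fintype.card τ) : ∃ T : τ → ℂ, T ≠ 0 ∧ ∀ ε ∈ W, ε ⬝ᵥ T = 0 := by
  have hlt : W < ⊤ := by
    rw [lt_top_iff_ne_top]
    rintro rfl
    rw [finrank_top, Module.finrank_fintype_fun_eq_card] at hW
    exact lt_irrefl _ hW
  obtain ⟨φ, hφ, hker⟩ := Submodule.exists_le_ker_of_lt_top W hlt
  have h1 : ∀ ε : τ → ℂ, φ ε = ε ⬝ᵥ fun b => φ (Pi.single b 1) := by
    intro ε
    conv_lhs => rw [pi_eq_sum_univ' ε, map_sum]
    rw [dotProduct]
    refine Finset.sum_congr rfl (fun b _ => ?_)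
    rw [map_smul, smul_eq_mul]
  refine ⟨fun b => φ (Pi.single b 1), ?_, ?_⟩
  · intro h0
    apply hφ
    apply LinearMap.ext
    intro ε
    rw [h1, h0, dotProduct_zero, LinearMap.zero_apply]
  · intro ε hε
    rw [← h1]
    exact hker hε

lemma dim_add_one_absurd {D : WithBot ℕ∞} {n : ℕ} (h0 : 0 ≤ D) (hn : D ≤ (n : WithBot ℕ∞))
    (h : D + 1 ≤ D) : False := by
  induction D using WithBot.recBotCoe with
  | bot => simp at h0
  | coe D =>
    induction D using ENat.recTopCoe with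
    | top =>
      have h1 : (⊤ : WithBot ℕ∞) ≤ ((n : ℕ∞) : WithBot ℕ∞) := hn
      rw [← WithBot.coe_top, WithBot.coe_le_coe, top_le_iff] at h1
      exact ENat.natCast_ne_top n h1
    | coe d =>
      have h1 : ((d + 1 : ℕ) : WithBot ℕ∞) ≤ ((d : ℕ) : WithBot ℕ∞) := by
        rw [Nat.cast_add]
        exact h
      have h2 : d + 1 ≤ d := by exact_mod_cast h1
      omega

lemma mem_comap_iff (I : Ideal (MvPolynomial ρ ℂ))
    (φ : MvPolynomial ρ ℂ →ₐ[ℂ] MvPolynomial ρ ℂ) (f : MvPolynomial ρ ℂ) :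
    f ∈ I.comap φ.toRingHom ↔ φ f ∈ I := Iff.rfl

lemma cmM_inv {B : Matrix ρ ρ ℂ} (hB : IsUnit B.det) (f : MvPolynomial ρ ℂ) :
    cmM B (cmM B⁻¹ f) = f := by
  apply MvPolynomial.funext
  intro z
  rw [eval_cmM, eval_cmM, Matrix.mulVec_mulVec, Matrix.nonsing_inv_mul _ hB, Matrix.one_mulVec]

lemma le_comap_cmM (hI : I.IsPrime) {B : Matrix ρ ρ ℂ} (hst : Stab I B) :
    I ≤ I.comap (cmM B).toRingHom := by
  intro f hf
  rw [Ideal.mem_comap]
  show cmM B f ∈ I
  refine mem_of_eval_zero hI (fun z hz => ?_)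
  rw [eval_cmM]
  exact hst z hz _ hf

lemma dim_comap_cmM (I : Ideal (MvPolynomial ρ ℂ)) {B : Matrix ρ ρ ℂ} (hB : IsUnit B.det) :
    ringKrullDim (MvPolynomial ρ ℂ ⧸ I) ≤
      ringKrullDim (MvPolynomial ρ ℂ ⧸ I.comap (cmM B).toRingHom) := by
  refine ringKrullDim_le_of_surjective (Ideal.quotientMap I (cmM B).toRingHom le_rfl) ?_
  apply Ideal.quotientMap_surjective
  intro f
  exact ⟨cmM B⁻¹ f, cmM_inv hB f⟩

lemma eq_of_dim_le (hI : I.IsPrime) {J : Ideal (MvPolynomial ρ ℂ)} (hle : I ≤ J)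
    (hdim : ringKrullDim (MvPolynomial ρ ℂ ⧸ I) ≤ ringKrullDim (MvPolynomial ρ ℂ ⧸ J)) :
    I = J := by
  by_contra hne
  have hlt : I < J := lt_of_le_of_ne hle hne
  have h1 := ringKrullDim_quotient_succ_le_of_lt hlt
  have h2 : ringKrullDim (MvPolynomial ρ ℂ ⧸ I) + 1 ≤ ringKrullDim (MvPolynomial ρ ℂ ⧸ I) :=
    (add_le_add_left hdim 1).trans h1
  have : Nontrivial (MvPolynomial ρ ℂ ⧸ I) := Ideal.Quotient.nontrivial_iff.mpr hI.ne_top
  refine dim_add_one_absurd (n := Fintype.card ρ) ringKrullDim_nonneg_of_nontrivial ?_ h2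
  refine (ringKrullDim_quotient_le I).trans ?_
  rw [MvPolynomial.ringKrullDim_of_isNoetherianRing, ringKrullDim_eq_zero_of_field, zero_add,
    Nat.card_eq_fintype_card]

/-- An invertible matrix that maps the variety to itself maps it onto itself. -/
lemma stab_inv (hI : I.IsPrime) {B : Matrix ρ ρ ℂ} (hB : IsUnit B.det) (hst : Stab I B) :
    Stab I B⁻¹ := by
  have heq := eq_of_dim_le hI (le_comap_cmM hI hst) (dim_comap_cmM I hB)
  intro p hp f hf
  rw [← eval_cmM]
  apply hp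
  have h1 : cmM B (cmM B⁻¹ f) ∈ I := by
    rw [cmM_inv hB]
    exact hf
  have h2 := (mem_comap_iff I (cmM B) _).mpr h1
  rw [← heq] at h2
  exact h2

lemma eval_DM (M : Matrix ρ ρ ℂ) (F : MvPolynomial ρ ℂ) (x : ρ → ℂ) :
    eval x (DM M F) = grad x F ⬝ᵥ M.mulVec x := by
  rw [DM, map_sum, dotProduct]
  refine Finset.sum_congr rfl (fun i _ => ?_)
  rw [map_mul, map_sum, grad_apply, mul_comm]
  congr 1
  rw [Matrix.mulVec, dotProduct]
  refine Finset.sum_congr rfl (fun j _ => ?_)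
  rw [map_mul, eval_C, eval_X]

/-- **An infinite group of linear automorphisms gives a tangent matrix.** -/
theorem exists_tangent (hI : I.IsPrime) (hhom : HI I)
    (hinf : ¬ ∃ S : Set (Matrix ρ ρ ℂ), S.Finite ∧ ∀ A : Matrix ρ ρ ℂ, IsUnit A.det →
      Stab I A → ∃ B ∈ S, ∃ μ : ℂ, A = μ • B) :
    ∃ M : Matrix ρ ρ ℂ, Tangent I M ∧ ∀ μ : ℂ, M ≠ μ • (1 : Matrix ρ ρ ℂ) := by
  classical
  by_contra hno
  push Not at hno
  apply hinf
  set J : Ideal (MvPolynomial (ρ × ρ) ℂ) :=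
    Ideal.span {g | ∃ x ∈ VI I, ∃ f ∈ I, g = actP x f} with hJ
  set Jp : ρ × ρ → Ideal (MvPolynomial (ρ × ρ) ℂ) := fun p =>
    J ⊔ Ideal.span {(X p - 1 : MvPolynomial (ρ × ρ) ℂ)} with hJp
  -- invertible points are isolated
  have key : ∀ p₀ : ρ × ρ, ∀ P ∈ (Jp p₀).minimalPrimes,
      {q | q ∈ VI P ∧ IsUnit (toM q).det}.Subsingleton := by
    intro p₀ P hP q hq q' hq'
    by_contra hqq
    have hPp : P.IsPrime := hP.1.1
    have hJP : Jp p₀ ≤ P := hP.1.2
    have hactP : ∀ x ∈ VI I, ∀ f ∈ I, actP x f ∈ P := fun x hx f hf =>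
      hJP (Ideal.mem_sup_left (Ideal.subset_span ⟨x, hx, f, hf, rfl⟩))
    have hXP : (X p₀ - 1 : MvPolynomial (ρ × ρ) ℂ) ∈ P :=
      hJP (Ideal.mem_sup_right (Ideal.subset_span rfl))
    obtain ⟨hqP, hB⟩ := hq
    set m : Ideal (MvPolynomial (ρ × ρ) ℂ) := RingHom.ker (eval q) with hm
    have hmp : m.IsPrime := RingHom.ker_isPrime _
    have hlt : P < m := by
      refine lt_of_le_of_ne (fun f hf => hqP f hf) ?_
      intro heq
      apply hqq
      funext p
      have h1 : (X p - C (q p) : MvPolynomial (ρ × ρ) ℂ) ∈ P := by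
        rw [heq, hm, RingHom.mem_ker, map_sub, eval_X, eval_C, sub_self]
      have h2 := hq'.1 _ h1
      rw [map_sub, eval_X, eval_C, sub_eq_zero] at h2
      exact h2.symm
    have hdim := ringKrullDim_quotient_succ_le_of_lt hlt
    have hnt : Nontrivial (MvPolynomial (ρ × ρ) ℂ ⧸ m) :=
      Ideal.Quotient.nontrivial_iff.mpr hmp.ne_top
    have hd1 : (1 : WithBot ℕ∞) ≤ ringKrullDim (MvPolynomial (ρ × ρ) ℂ ⧸ P) := by
      refine le_trans ?_ hdim
      have h1 : (0 : WithBot ℕ∞) ≤ ringKrullDim (MvPolynomial (ρ × ρ) ℂ ⧸ m) :=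
        ringKrullDim_nonneg_of_nontrivial
      calc (1 : WithBot ℕ∞) = 0 + 1 := (zero_add 1).symm
        _ ≤ _ := add_le_add_left h1 1
    have hcard : 0 < Fintype.card (ρ × ρ) := Fintype.card_pos_iff.mpr ⟨p₀⟩
    have hgd : Module.finrank ℂ (gradSpan P q) ≤ Fintype.card (ρ × ρ) - 1 := by
      refine finrank_gradSpan_le' hPp ?_ hqP
      have h1 : ((Fintype.card (ρ × ρ) : ℕ) : WithBot ℕ∞) =
          1 + ((Fintype.card (ρ × ρ) - 1 : ℕ) : WithBot ℕ∞) := by
        have h2 : Fintype.card (ρ × ρ) = 1 + (Fintype.card (ρ × ρ) - 1) := by omega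
        conv_lhs => rw [h2, Nat.cast_add, Nat.cast_one]
      rw [h1]
      exact add_le_add_left hd1 _
    obtain ⟨T, hT0, hT⟩ := exists_dot_zero (gradSpan P q) (by omega)
    set B := toM q with hBdef
    have hBst : Stab I B := by
      intro x hx f hf
      rw [← eval_actP]
      exact hqP _ (hactP x hx f hf)
    have hBinv : Stab I B⁻¹ := stab_inv hI hB hBst
    have hT1 : ∀ x ∈ VI I, ∀ f ∈ I, grad (B.mulVec x) f ⬝ᵥ (toM T).mulVec x = 0 := by
      intro x hx f hf
      have h1 := hT _ (grad_mem_gradSpan (hactP x hx f hf) q)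
      rw [← h1, dotProduct, dotProduct, Fintype.sum_prod_type]
      refine Finset.sum_congr rfl (fun a _ => ?_)
      rw [Matrix.mulVec, dotProduct, Finset.mul_sum]
      refine Finset.sum_congr rfl (fun b _ => ?_)
      rw [grad_actP]
      have h2 : toM T a b = T (a, b) := rfl
      rw [h2, hBdef]
      ring
    have hTp : T p₀ = 0 := by
      have h1 := hT _ (grad_mem_gradSpan hXP q)
      have h2 : grad q (X p₀ - 1 : MvPolynomial (ρ × ρ) ℂ) = Pi.single p₀ 1 := by
        funext p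
        rw [grad_apply, map_sub, map_sub]
        have h3 : pderiv p (1 : MvPolynomial (ρ × ρ) ℂ) = 0 := by
          rw [← C_1, pderiv_C]
        rw [h3, map_zero, sub_zero]
        by_cases hp : p = p₀
        · rw [hp, pderiv_X_self, map_one, Pi.single_eq_same]
        · rw [pderiv_X_of_ne (Ne.symm hp), map_zero, Pi.single_eq_of_ne hp]
      rw [h2, single_one_dotProduct] at h1
      exact h1
    have hqp : q p₀ = 1 := by
      have h1 := hqP _ hXP
      rw [map_sub, eval_X, map_one, sub_eq_zero] at h1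
      exact h1
    obtain ⟨μ, hμ⟩ := hno (B⁻¹ * toM T) (by
      intro F hF
      refine mem_of_eval_zero hI (fun x hx => ?_)
      rw [eval_DM]
      have h1 : cmM B⁻¹ F ∈ I := by
        refine mem_of_eval_zero hI (fun z hz => ?_)
        rw [eval_cmM]
        exact hBinv z hz _ hF
      have h2 := hT1 x hx _ h1
      rw [grad_cmM, Matrix.mulVec_mulVec, Matrix.nonsing_inv_mul _ hB, Matrix.one_mulVec] at h2
      rw [← h2, ← Matrix.mulVec_mulVec, Matrix.dotProduct_mulVec])
    have h1 : toM T = μ • B := by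
      have h2 : B * (B⁻¹ * toM T) = B * (μ • 1) := by rw [hμ]
      rw [← mul_assoc, Matrix.mul_nonsing_inv _ hB, one_mul, Matrix.mul_smul, mul_one] at h2
      exact h2
    have h2 : T p₀ = μ * q p₀ := by
      have h3 := congrFun (congrFun h1 p₀.1) p₀.2
      rw [Matrix.smul_apply, smul_eq_mul] at h3
      exact h3
    rw [hTp, hqp, mul_one] at h2
    apply hT0
    funext p
    have h3 := congrFun (congrFun h1 p.1) p.2
    rw [← h2, zero_smul] at h3
    exact h3
  -- the finite set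
  by_cases hρ : IsEmpty ρ
  · refine ⟨{1}, Set.finite_singleton _, fun A _ _ => ⟨1, rfl, 1, ?_⟩⟩
    ext i
    exact hρ.elim i
  refine ⟨⋃ p₀ : ρ × ρ, ⋃ P ∈ (Jp p₀).minimalPrimes,
    toM '' {q | q ∈ VI P ∧ IsUnit (toM q).det}, ?_, ?_⟩
  · refine Set.finite_iUnion (fun p₀ => ?_)
    refine Set.Finite.biUnion (Ideal.finite_minimalPrimes_of_isNoetherianRing _ _) (fun P hP => ?_)
    exact ((key p₀ P hP).finite).image _
  · intro A hA hAst
    have hA0 : A ≠ 0 := by
      rintro rfl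
      rw [not_isEmpty_iff] at hρ
      rw [Matrix.det_zero] at hA
      exact not_isUnit_zero hA
    obtain ⟨a, b, hab⟩ : ∃ a b, A a b ≠ 0 := by
      by_contra hcon
      push Not at hcon
      apply hA0
      ext a b
      exact hcon a b
    set q : ρ × ρ → ℂ := fun p => (A a b)⁻¹ * A p.1 p.2 with hq
    have hqA : toM q = (A a b)⁻¹ • A := by
      ext i j
      rfl
    have hqJ : Jp (a, b) ≤ RingHom.ker (eval q) := by
      rw [hJp]
      simp only
      rw [sup_le_iff, hJ, Ideal.span_le, Ideal.span_le]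
      constructor
      · rintro _ ⟨x, hx, f, hf, rfl⟩
        show eval q (actP x f) = 0
        rw [eval_actP, hqA, Matrix.smul_mulVec]
        exact VI_smul hhom (hAst x hx) _ f hf
      · rintro _ rfl
        show eval q (X (a, b) - 1) = 0
        rw [map_sub, eval_X, map_one, hq]
        simp only
        rw [inv_mul_cancel₀ hab, sub_self]
    have hmp : (RingHom.ker (eval q)).IsPrime := RingHom.ker_isPrime _
    obtain ⟨P, hP, hPq⟩ := Ideal.exists_minimalPrimes_le hqJ
    refine ⟨toM q, ?_, A a b, ?_⟩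
    · rw [Set.mem_iUnion]
      refine ⟨(a, b), ?_⟩
      rw [Set.mem_iUnion₂]
      refine ⟨P, hP, q, ⟨fun f hf => hPq hf, ?_⟩, rfl⟩
      rw [hqA, Matrix.det_smul, isUnit_iff_ne_zero]
      exact mul_ne_zero (pow_ne_zero _ (inv_ne_zero hab)) (isUnit_iff_ne_zero.mp hA)
    · rw [hqA, smul_smul, mul_inv_cancel₀ hab, one_smul]

end Aut

end Pool.Agent.HartA
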