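import Mathlib
import Pool.Agent.HartA.Basic

/-!
Krull's theorem at a point of an irreducible affine variety.
-/

namespace Pool.Agent.HartA

open Pool.Agent.Hartshorne MvPolynomial

set_option linter.unusedSectionVars false

section Krull

/-- Primes over few elements of a prime of large height. -/
lemma exists_prime_of_height {B : Type*} [CommRing B] [IsNoetherianRing B] {q : Ideal B}
    [hq : q.IsPrime] {κ : Type*} [Fintype κ] (a : κ → B) (ha : ∀ k, a k ∈ q) {d : ℕ}
    (hd : (d : ℕ∞) ≤ q.height) :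
    ∃ Q : Ideal B, Q.IsPrime ∧ (∀ k, a k ∈ Q) ∧ Q ≤ q ∧
      (d : WithBot ℕ∞) ≤ ringKrullDim (B ⧸ Q) + ((Fintype.card κ : ℕ) : WithBot ℕ∞) := by
  classical
  set I : Ideal B := Ideal.span (Set.range a) with hI
  have hIm : I ≤ q := by
    rw [hI, Ideal.span_le]
    rintro _ ⟨i, rfl⟩
    exact ha i
  have h1 := Ideal.height_le_height_add_spanFinrank_of_le hIm
  have hPp : (q.map (Ideal.Quotient.mk I)).IsPrime := Ideal.isPrime_map_quotientMk_of_isPrime hIm
  set P' := q.map (Ideal.Quotient.mk I) with hP'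
  obtain ⟨l, hlast, hlen⟩ := Ideal.exists_ltSeries_length_eq_height P'
  have hfr : I.spanFinrank ≤ Fintype.card κ := by
    have h2 := Submodule.spanFinrank_span_le_encard (R := B) (Set.range a)
    have h3 : (Set.range a).encard ≤ ((Fintype.card κ : ℕ) : ℕ∞) := by
      rw [← Set.image_univ]
      refine (Set.encard_image_le _ _).trans ?_
      rw [Set.encard_univ, ENat.card_eq_coe_fintype_card]
    exact_mod_cast h2.trans h3
  set Q := (RelSeries.head l).asIdeal with hQ
  have hQp : Q.IsPrime := (RelSeries.head l).isPrime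
  refine ⟨Q.comap (Ideal.Quotient.mk I), Ideal.comap_isPrime _ _, ?_, ?_, ?_⟩
  · intro i
    rw [Ideal.mem_comap]
    have h2 : Ideal.Quotient.mk I (a i) = 0 :=
      Ideal.Quotient.eq_zero_iff_mem.mpr (Ideal.subset_span ⟨i, rfl⟩)
    rw [h2]
    exact Q.zero_mem
  · intro f hf
    rw [Ideal.mem_comap] at hf
    have h2 : Q ≤ P' := by
      have h3 := LTSeries.head_le_last l
      rw [hlast] at h3
      exact h3
    have h3 := h2 hf
    have h4 : f ∈ P'.comap (Ideal.Quotient.mk I) := h3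
    rw [hP', Ideal.comap_map_of_surjective _ Ideal.Quotient.mk_surjective] at h4
    have h5 : (Ideal.comap (Ideal.Quotient.mk I) ⊥) ≤ q := by
      intro x hx
      apply hIm
      rw [Ideal.mem_comap, Ideal.mem_bot] at hx
      exact Ideal.Quotient.eq_zero_iff_mem.mp hx
    exact (sup_le le_rfl h5) h4
  · have h2 : ((l.length : ℕ) : WithBot ℕ∞) ≤ ringKrullDim ((B ⧸ I) ⧸ Q) := by
      rw [ringKrullDim_quotient]
      have h3 : ∀ i, l i ∈ PrimeSpectrum.zeroLocus (Q : Set (B ⧸ I)) := by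
        intro i
        rw [PrimeSpectrum.mem_zeroLocus]
        exact LTSeries.head_le l i
      let l' : LTSeries (PrimeSpectrum.zeroLocus (Q : Set (B ⧸ I))) :=
        { length := l.length
          toFun := fun i => ⟨l i, h3 i⟩
          step := fun i => l.step i }
      exact le_iSup (fun l : LTSeries (PrimeSpectrum.zeroLocus
        (Q : Set (B ⧸ I))) => ((l.length : ℕ∞) : WithBot ℕ∞)) l'
    have h3 : ringKrullDim ((B ⧸ I) ⧸ Q) ≤
        ringKrullDim (B ⧸ Q.comap (Ideal.Quotient.mk I)) := by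
      refine ringKrullDim_le_of_surjective
        (Ideal.quotientMap Q (Ideal.Quotient.mk I) le_rfl) ?_
      exact Ideal.quotientMap_surjective Ideal.Quotient.mk_surjective
    have h4 := hd.trans h1
    rw [← hlen] at h4
    have h5 : d ≤ l.length + Fintype.card κ := by
      have h6 : d ≤ l.length + I.spanFinrank := by exact_mod_cast h4
      omega
    have h6 : (d : WithBot ℕ∞) ≤ ((l.length + Fintype.card κ : ℕ) : WithBot ℕ∞) := by
      exact_mod_cast h5
    refine h6.trans ?_
    rw [Nat.cast_add]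
    exact add_le_add_left (h2.trans h3) _

/-- The ideal of a point of an affine variety has height at least the dimension. -/
lemma exists_height {σ : Type*} [Fintype σ] {P : Ideal (MvPolynomial σ ℂ)} (hP : P.IsPrime)
    {p : σ → ℂ} (hp : p ∈ VI P) :
    ∃ (d : ℕ) (q : Ideal (MvPolynomial σ ℂ ⧸ P)), q.IsPrime ∧ (d : ℕ∞) ≤ q.height ∧
      ringKrullDim (MvPolynomial σ ℂ ⧸ P) ≤ (d : WithBot ℕ∞) ∧
      ∀ f : MvPolynomial σ ℂ, Ideal.Quotient.mk P f ∈ q ↔ eval p f = 0 := by
  classical
  have hdom : IsDomain (MvPolynomial σ ℂ ⧸ P) := (Ideal.Quotient.isDomain_iff_prime P).mpr hP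
  obtain ⟨d, g, hginj, hgfin⟩ := exists_finite_inj_algHom_of_fg ℂ (MvPolynomial σ ℂ ⧸ P)
  -- evaluation at the point
  set ev : MvPolynomial σ ℂ ⧸ P →ₐ[ℂ] ℂ :=
    Ideal.Quotient.liftₐ P (aeval p) (fun f hf => by rw [aeval_eq_eval]; exact hp f hf) with hev
  have hevmk : ∀ f, ev (Ideal.Quotient.mk P f) = eval p f := by
    intro f
    have h1 : ev (Ideal.Quotient.mk P f) = aeval p f := rfl
    rw [h1, aeval_eq_eval]
  set b : Fin d → ℂ := fun i => ev (g (X i)) with hb
  set g' : MvPolynomial (Fin d) ℂ →ₐ[ℂ] (MvPolynomial σ ℂ ⧸ P) := g.comp (Hartshorne.trans (-b)) with hg'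
  have hg'inj : Function.Injective g' := by
    intro f f' h
    have h1 : Hartshorne.trans (-b) f = Hartshorne.trans (-b) f' := hginj h
    have h2 := congrArg (Hartshorne.trans b) h1
    have h3 : ∀ f, Hartshorne.trans b (Hartshorne.trans (-b) f) = f := by
      intro f; rw [trans_trans, add_neg_cancel, trans_zero]
    rwa [h3, h3] at h2
  have hg'int : g'.toRingHom.IsIntegral := by
    have h1 : g.toRingHom.IsIntegral := hgfin.to_isIntegral
    have h2 : Function.Surjective (Hartshorne.trans (-b) : MvPolynomial (Fin d) ℂ →ₐ[ℂ] _).toRingHom := by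
      intro f
      refine ⟨Hartshorne.trans b f, ?_⟩
      show Hartshorne.trans (-b) (Hartshorne.trans b f) = f
      rw [trans_trans, neg_add_cancel, trans_zero]
    exact RingHom.IsIntegral.trans _ _ (RingHom.isIntegral_of_surjective _ h2) h1
  let q : Ideal (MvPolynomial σ ℂ ⧸ P) := RingHom.ker ev
  have hq : q.IsPrime := RingHom.ker_isPrime _
  algebraize [g'.toRingHom]
  have hint : Algebra.IsIntegral (MvPolynomial (Fin d) ℂ) (MvPolynomial σ ℂ ⧸ P) := ⟨hg'int⟩
  have hfaith : FaithfulSMul (MvPolynomial (Fin d) ℂ) (MvPolynomial σ ℂ ⧸ P) := by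
    rw [faithfulSMul_iff_algebraMap_injective]
    exact hg'inj
  set n : Ideal (MvPolynomial (Fin d) ℂ) := vanishingIdeal ℂ {(0 : Fin d → ℂ)} with hn
  have hmap : ∀ f, ev (g' f) = eval 0 f := by
    intro f
    have h1 : (ev.comp g') = (aeval (0 : Fin d → ℂ)) := by
      apply MvPolynomial.algHom_ext
      intro i
      rw [AlgHom.comp_apply, aeval_X, hg', AlgHom.comp_apply]
      have h2 : Hartshorne.trans (-b) (X i) = X i - C (b i) := by
        simp [Hartshorne.trans, sub_eq_add_neg]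
      rw [h2, map_sub, map_sub]
      have h3 : g (C (b i)) = algebraMap ℂ _ (b i) := by
        rw [← MvPolynomial.algebraMap_eq, AlgHom.commutes]
      rw [h3, AlgHom.commutes]
      show b i - b i = 0
      rw [sub_self]
    have h4 := congrArg (fun φ : MvPolynomial (Fin d) ℂ →ₐ[ℂ] ℂ => φ f) h1
    rw [← aeval_eq_eval]
    exact h4
  have hcomap : n = q.comap (algebraMap (MvPolynomial (Fin d) ℂ) (MvPolynomial σ ℂ ⧸ P)) := by
    ext f
    rw [hn, mem_vanishingIdeal_singleton_iff, aeval_eq_eval, Ideal.mem_comap]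
    show eval 0 f = 0 ↔ g' f ∈ RingHom.ker ev
    rw [RingHom.mem_ker]
    rw [← hmap f]
  have hnp : n.IsPrime := by rw [hcomap]; exact Ideal.comap_isPrime _ _
  have hlo : q.LiesOver n := ⟨hcomap⟩
  have hht := Ideal.height_eq_height_add_of_liesOver_of_hasGoingDown n q
  refine ⟨d, q, hq, ?_, ?_, ?_⟩
  · have h1 := card_le_height_origin (ι := Fin d)
    rw [Fintype.card_fin] at h1
    rw [hht]
    exact h1.trans le_self_add
  · refine (ringKrullDim_le_of_integral (R := MvPolynomial (Fin d) ℂ)).trans ?_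
    rw [MvPolynomial.ringKrullDim_of_isNoetherianRing, ringKrullDim_eq_zero_of_field, zero_add,
      Nat.card_eq_fintype_card, Fintype.card_fin]
  · intro f
    show Ideal.Quotient.mk P f ∈ RingHom.ker ev ↔ _
    rw [RingHom.mem_ker, ← hevmk f]

/-- **Krull's theorem at a point of an irreducible variety.** -/
theorem exists_prime_over {σ κ : Type*} [Fintype σ] [Fintype κ]
    {P : Ideal (MvPolynomial σ ℂ)} (hP : P.IsPrime) {p : σ → ℂ} (hp : p ∈ VI P)
    (a : κ → MvPolynomial σ ℂ) (ha : ∀ k, eval p (a k) = 0) :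
    ∃ P₂ : Ideal (MvPolynomial σ ℂ), P₂.IsPrime ∧ P ≤ P₂ ∧ (∀ k, a k ∈ P₂) ∧ p ∈ VI P₂ ∧
      ringKrullDim (MvPolynomial σ ℂ ⧸ P) ≤
        ringKrullDim (MvPolynomial σ ℂ ⧸ P₂) + ((Fintype.card κ : ℕ) : WithBot ℕ∞) := by
  obtain ⟨d, q, hq, hdq, hdim, hmem⟩ := exists_height hP hp
  obtain ⟨Q, hQ, haQ, hQq, hQd⟩ := exists_prime_of_height (q := q)
    (fun k => Ideal.Quotient.mk P (a k)) (fun k => (hmem _).mpr (ha k)) hdq
  refine ⟨Q.comap (Ideal.Quotient.mk P), Ideal.comap_isPrime _ _, ?_, haQ, ?_, ?_⟩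
  · intro f hf
    rw [Ideal.mem_comap, Ideal.Quotient.eq_zero_iff_mem.mpr hf]
    exact Q.zero_mem
  · intro f hf
    exact (hmem f).mp (hQq hf)
  · refine hdim.trans (hQd.trans (add_le_add_left ?_ _))
    refine ringKrullDim_le_of_surjective (Ideal.quotientMap Q (Ideal.Quotient.mk P) le_rfl) ?_
    exact Ideal.quotientMap_surjective Ideal.Quotient.mk_surjective

end Krull

end Pool.Agent.HartA
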