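import Mathlib
import Pool.Agent.HartA.Krull

namespace Pool.Agent.HartA

open Pool.Agent.Hartshorne MvPolynomial

set_option linter.unusedSectionVars false

/-- **Dimension of fibres.** Doc, Lemma F. -/
theorem exists_fiber {σ τ : Type*} [Fintype σ] [Fintype τ]
    {P : Ideal (MvPolynomial (σ ⊕ τ) ℂ)} (hP : P.IsPrime) {x : σ → ℂ} {w : τ → ℂ}
    (hxw : Sum.elim x w ∈ VI P) {d : ℕ}
    (hd : ringKrullDim (MvPolynomial σ ℂ ⧸ P.comap (rename (R := ℂ) (Sum.inl : σ → σ ⊕ τ))) ≤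
      (d : WithBot ℕ∞)) :
    ∃ Q : Ideal (MvPolynomial τ ℂ), Q.IsPrime ∧ w ∈ VI Q ∧
      (∀ w' ∈ VI Q, Sum.elim x w' ∈ VI P) ∧
      ringKrullDim (MvPolynomial (σ ⊕ τ) ℂ ⧸ P) ≤
        ringKrullDim (MvPolynomial τ ℂ ⧸ Q) + (d : WithBot ℕ∞) := by
  classical
  set J := P.comap (rename (R := ℂ) (Sum.inl : σ → σ ⊕ τ)) with hJ
  have hevl : ∀ (w' : τ → ℂ) (h : MvPolynomial σ ℂ),
      eval (Sum.elim x w') (rename (Sum.inl : σ → σ ⊕ τ) h) = eval x h := by
    intro w' h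
    rw [eval_rename, Sum.elim_comp_inl]
  have hev : ∀ h ∈ J, eval x h = 0 := by
    intro h hh
    rw [← hevl w h]
    exact hxw _ hh
  have hprimeP := hP
  let φ : (MvPolynomial σ ℂ ⧸ J) →+* ℂ := Ideal.Quotient.lift J (eval x) hev
  have hφ : ∀ h, φ (Ideal.Quotient.mk J h) = eval x h := fun h => Ideal.Quotient.lift_mk _ _ _
  have hm' : (RingHom.ker φ).IsPrime := RingHom.ker_isPrime φ
  obtain ⟨s, hmin, hcard⟩ := (RingHom.ker φ).exists_finset_card_eq_height_of_isNoetherianRing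
  have hht : ((s.card : ℕ) : WithBot ℕ∞) ≤ (d : WithBot ℕ∞) := by
    refine le_trans ?_ hd
    have h1 := Ideal.height_le_ringKrullDim_of_ne_top hm'.ne_top
    rw [← hcard] at h1
    exact h1
  choose a ha using fun t : MvPolynomial σ ℂ ⧸ J => Ideal.Quotient.mk_surjective t
  obtain ⟨P₂, hP₂, hle, haP, hp₂, hdim⟩ := exists_prime_over hP hxw
    (fun t : s => rename (Sum.inl : σ → σ ⊕ τ) (a t)) (by
      intro t
      rw [hevl, ← hφ, ha]
      exact hmin.1.2 (Ideal.subset_span t.2))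
  set J2 := P₂.comap (rename (R := ℂ) (Sum.inl : σ → σ ⊕ τ)) with hJ2
  have hJ2p : J2.IsPrime := Ideal.comap_isPrime _ _
  have hJJ2 : J ≤ J2 := Ideal.comap_mono hle
  have hkey : ∀ h : MvPolynomial σ ℂ, eval x h = 0 → rename (Sum.inl : σ → σ ⊕ τ) h ∈ P₂ := by
    intro h hh
    have hprime : (J2.map (Ideal.Quotient.mk J)).IsPrime := by
      refine Ideal.map_isPrime_of_surjective Ideal.Quotient.mk_surjective ?_
      rw [Ideal.mk_ker]
      exact hJJ2
    have hsle : Ideal.span (s : Set (MvPolynomial σ ℂ ⧸ J)) ≤ J2.map (Ideal.Quotient.mk J) := by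
      rw [Ideal.span_le]
      intro t ht
      have h1 : a t ∈ J2 := haP ⟨t, ht⟩
      have h2 := Ideal.mem_map_of_mem (Ideal.Quotient.mk J) h1
      rw [ha] at h2
      exact h2
    have hlem : J2.map (Ideal.Quotient.mk J) ≤ RingHom.ker φ := by
      rw [Ideal.map_le_iff_le_comap]
      intro g hg
      rw [Ideal.mem_comap, RingHom.mem_ker, hφ, ← hevl w g]
      exact hp₂ _ hg
    have h3 := hmin.2 ⟨hprime, hsle⟩ hlem
    have h4 : Ideal.Quotient.mk J h ∈ J2.map (Ideal.Quotient.mk J) := by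
      apply h3
      rw [RingHom.mem_ker, hφ]
      exact hh
    rw [Ideal.mem_map_iff_of_surjective _ Ideal.Quotient.mk_surjective] at h4
    obtain ⟨g, hg, hgh⟩ := h4
    have h5 : g - h ∈ J := Ideal.Quotient.eq.mp hgh
    have h6 : h = g - (g - h) := by ring
    rw [h6]
    exact J2.sub_mem hg (hJJ2 h5)
  let θ : MvPolynomial (σ ⊕ τ) ℂ →ₐ[ℂ] MvPolynomial τ ℂ :=
    aeval (Sum.elim (fun i => C (x i)) (fun j => X j))
  have hθ : ∀ F : MvPolynomial (σ ⊕ τ) ℂ,
      F - rename (Sum.inr : τ → σ ⊕ τ) (θ F) ∈ P₂ := by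
    have h1 : (Ideal.Quotient.mkₐ ℂ P₂) =
        (Ideal.Quotient.mkₐ ℂ P₂).comp ((rename (Sum.inr : τ → σ ⊕ τ)).comp θ) := by
      apply MvPolynomial.algHom_ext
      rintro (i | j)
      · simp only [AlgHom.comp_apply, θ, aeval_X, Sum.elim_inl, rename_C, Ideal.Quotient.mkₐ_eq_mk]
        rw [Ideal.Quotient.eq]
        have h2 := hkey (X i - C (x i)) (by simp)
        rw [map_sub, rename_X, rename_C] at h2
        exact h2
      · simp [θ]
    intro F
    rw [← Ideal.Quotient.eq]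
    exact DFunLike.congr_fun h1 F
  have hθev : ∀ (w' : τ → ℂ) (F : MvPolynomial (σ ⊕ τ) ℂ),
      eval w' (θ F) = eval (Sum.elim x w') F := by
    intro w' F
    have h1 : (aeval w' : MvPolynomial τ ℂ →ₐ[ℂ] ℂ).comp θ = aeval (Sum.elim x w') := by
      apply MvPolynomial.algHom_ext
      rintro (i | j)
      · simp [θ]
      · simp [θ]
    have h2 := DFunLike.congr_fun h1 F
    rw [AlgHom.comp_apply] at h2
    exact h2
  have hθmem : ∀ F ∈ P₂, θ F ∈ P₂.comap (rename (R := ℂ) (Sum.inr : τ → σ ⊕ τ)) := by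
    intro F hF
    rw [Ideal.mem_comap]
    have h1 : rename (Sum.inr : τ → σ ⊕ τ) (θ F) =
        F - (F - rename (Sum.inr : τ → σ ⊕ τ) (θ F)) := by ring
    rw [h1]
    exact P₂.sub_mem hF (hθ F)
  refine ⟨P₂.comap (rename (R := ℂ) (Sum.inr : τ → σ ⊕ τ)), Ideal.comap_isPrime _ _, ?_, ?_, ?_⟩
  · intro h hh
    have h1 := hp₂ _ hh
    rwa [eval_rename, Sum.elim_comp_inr] at h1
  · intro w' hw' F hF
    rw [← hθev]
    exact hw' _ (hθmem F (hle hF))
  · have hsurj : Function.Surjective (Ideal.quotientMap P₂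
        ((rename (R := ℂ) (Sum.inr : τ → σ ⊕ τ)) : MvPolynomial τ ℂ →+* MvPolynomial (σ ⊕ τ) ℂ)
        (le_refl (P₂.comap (rename (R := ℂ) (Sum.inr : τ → σ ⊕ τ))))) := by
      intro y
      obtain ⟨F, rfl⟩ := Ideal.Quotient.mk_surjective y
      refine ⟨Ideal.Quotient.mk _ (θ F), ?_⟩
      exact (Ideal.Quotient.eq.mpr (hθ F)).symm
    have h1 := ringKrullDim_le_of_surjective _ hsurj
    rw [Fintype.card_coe] at hdim
    exact hdim.trans (add_le_add h1 hht)

end Pool.Agent.HartA
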