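import Mathlib
import Pool.Agent.HartA.Krull

/-!
Zak's theorem on tangencies for an irreducible variety.
-/

namespace Pool.Agent.HartA

open Pool.Agent.Hartshorne MvPolynomial

set_option linter.unusedSectionVars false

section ZakP

variable {ρ : Type} [Fintype ρ] [DecidableEq ρ] {I : Ideal (MvPolynomial ρ ℂ)} {c : ℕ}

/-- Independence of vectors depending polynomially on a point. -/
lemma zakP_li_open {κ : Type*} [Fintype κ] [DecidableEq κ] (r : κ → ρ → MvPolynomial ρ ℂ)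
    {w₀ : ρ → ℂ} (h : LinearIndependent ℂ (fun j => fun i => eval w₀ (r j i))) :
    ∃ D : MvPolynomial ρ ℂ, eval w₀ D ≠ 0 ∧ ∀ w, eval w D ≠ 0 →
      LinearIndependent ℂ (fun j => fun i => eval w (r j i)) := by
  obtain ⟨T, hT⟩ := exists_minor _ h
  refine ⟨(Matrix.of fun j l => r j (T l)).det, ?_, fun w hw => ?_⟩
  · rw [Pool.Agent.Hartshorne.eval_det]; exact hT
  · rw [Pool.Agent.Hartshorne.eval_det] at hw
    have h1 := Matrix.linearIndependent_rows_of_det_ne_zero hw
    apply LinearIndependent.of_comp (LinearMap.funLeft ℂ ℂ T)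
    exact h1

/-- The homogeneous components of a polynomial vanishing on a punctured line through `0`. -/
lemma zakP_comp {D : MvPolynomial ρ ℂ} {w : ρ → ℂ} (h : ∀ t : ℂ, t ≠ 0 → eval (t • w) D = 0)
    (e : ℕ) : eval w (homogeneousComponent e D) = 0 := by
  set p : Polynomial ℂ := ∑ e ∈ Finset.range (D.totalDegree + 1),
    Polynomial.monomial e (eval w (homogeneousComponent e D)) with hp
  have hev : ∀ t, p.eval t = eval (t • w) D := by
    intro t
    rw [hp, Polynomial.eval_finsetSum]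
    conv_rhs => rw [← sum_homogeneousComponent D, map_sum]
    refine Finset.sum_congr rfl (fun e _ => ?_)
    rw [Polynomial.eval_monomial,
      eval_smul_of_isHomogeneous (homogeneousComponent_isHomogeneous e D), mul_comm]
  have hp0 : p = 0 := by
    apply Polynomial.eq_zero_of_infinite_isRoot
    refine Set.Infinite.mono (s := {s : ℂ | s ≠ 0}) (fun s hs => ?_) ?_
    · show p.eval s = 0
      rw [hev]
      exact h s hs
    · exact (Set.finite_singleton (0 : ℂ)).infinite_compl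
  by_cases he : e ∈ Finset.range (D.totalDegree + 1)
  · have h1 : p.coeff e = eval w (homogeneousComponent e D) := by
      rw [hp, Polynomial.finsetSum_coeff, Finset.sum_eq_single_of_mem e he]
      · rw [Polynomial.coeff_monomial, if_pos rfl]
      · intro e' _ hne
        rw [Polynomial.coeff_monomial, if_neg hne]
    rw [← h1, hp0, Polynomial.coeff_zero]
  · rw [Finset.mem_range, not_lt] at he
    rw [homogeneousComponent_eq_zero _ _ (by omega), map_zero]

lemma zakP_le {Q : Ideal (MvPolynomial ρ ℂ)} (hhom : HI I) (hQ : Q.IsPrime)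
    (hQI : ∀ w ∈ VI Q, w ∈ VI I) : I ≤ hcore Q := by
  intro h hh
  rw [mem_hcore]
  intro e
  refine mem_of_eval_zero hQ (fun w hw => ?_)
  exact hQI w hw _ (hhom h hh e)

/-- Closedness over the homogeneous core. -/
lemma NX.zakP_closed (hX : NX I c) {H : ρ → ℂ} {Q : Ideal (MvPolynomial ρ ℂ)}
    (hQ : Q.IsPrime) {u : MvPolynomial ρ ℂ} (hu : u ∉ Q) (hQI : ∀ w ∈ VI Q, w ∈ VI I)
    (hQH : ∀ w ∈ VI Q, w ≠ 0 → eval w u ≠ 0 → H ∈ gradSpan I w) {i : ρ} (hi : X i ∉ Q)
    {w₀ : ρ → ℂ} (hw₀ : w₀ ∈ VI (hcore Q)) (hne : w₀ ≠ 0) : H ∈ gradSpan I w₀ := by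
  classical
  by_contra hcon
  have hw₀I : w₀ ∈ VI I := fun h hh => hw₀ h (zakP_le hX.hhom hQ hQI hh)
  obtain ⟨q, hq, hli⟩ := hX.hsm w₀ hne hw₀I
  have hspan := hX.span_eq hne hw₀I (fun j => grad_mem_gradSpan (hq j) w₀) hli
  set r : Option (Fin c) → ρ → MvPolynomial ρ ℂ := fun o => Option.elim o
    (fun i => C (H i)) (fun k => fun i => pderiv i (q k)) with hrdef
  have hrev : ∀ w, (fun j => fun i => eval w (r j i)) =
      fun o => Option.casesOn' o H (fun k => grad w (q k)) := by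
    intro w
    funext o i
    rcases o with _ | k
    · simp [hrdef]
    · show eval w (pderiv i (q k)) = grad w (q k) i
      rw [grad_apply]
  have hli0 : LinearIndependent ℂ (fun j => fun i => eval w₀ (r j i)) := by
    rw [hrev w₀, linearIndependent_option']
    refine ⟨hli, ?_⟩
    rw [hspan]
    exact hcon
  obtain ⟨D, hD0, hD⟩ := zakP_li_open r hli0
  have hDt : ∀ w ∈ VI Q, w ≠ 0 → eval w u ≠ 0 → ∀ t : ℂ, t ≠ 0 → eval (t • w) D = 0 := by
    intro w hw hw0 hwu t ht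
    by_contra hDw
    have h1 := hD _ hDw
    rw [hrev] at h1
    refine hX.not_li (smul_ne_zero ht hw0) (VI_smul hX.hhom (hQI w hw) t) ?_ h1
    rintro (_ | k)
    · show H ∈ gradSpan I (t • w)
      rw [gradSpan_smul hX.hhom _ ht]
      exact hQH w hw hw0 hwu
    · exact grad_mem_gradSpan (hq k) _
  apply hD0
  apply hw₀
  rw [mem_hcore]
  intro e
  have h1 : homogeneousComponent e D * (u * X i) ∈ Q := by
    refine mem_of_eval_zero hQ (fun w hw => ?_)
    rw [map_mul, map_mul, eval_X]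
    by_cases hwi : w i = 0
    · rw [hwi, mul_zero, mul_zero]
    · by_cases hwu : eval w u = 0
      · rw [hwu, zero_mul, mul_zero]
      · have hw0 : w ≠ 0 := by
          rintro rfl
          exact hwi rfl
        rw [zakP_comp (hDt w hw hw0 hwu) e, zero_mul]
  rcases hQ.mem_or_mem h1 with h2 | h2
  · exact h2
  · rcases hQ.mem_or_mem h2 with h3 | h3
    · exact absurd h3 hu
    · exact absurd h3 hi

/-- The cylinder over a prime: the kernel of a surjection onto a polynomial ring. -/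
noncomputable def zakPsi (Q : Ideal (MvPolynomial ρ ℂ)) :
    MvPolynomial (Option ρ) ℂ →+* Polynomial (MvPolynomial ρ ℂ ⧸ Q) :=
  (Polynomial.mapRingHom (Ideal.Quotient.mk Q)).comp
    (optionEquivLeft ℂ ρ : MvPolynomial (Option ρ) ℂ →+* Polynomial (MvPolynomial ρ ℂ))

lemma zakPsi_surj (Q : Ideal (MvPolynomial ρ ℂ)) : Function.Surjective (zakPsi Q) := by
  intro f
  obtain ⟨g, hg⟩ := Polynomial.map_surjective _ Ideal.Quotient.mk_surjective f
  refine ⟨(optionEquivLeft ℂ ρ).symm g, ?_⟩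
  show Polynomial.map (Ideal.Quotient.mk Q) (optionEquivLeft ℂ ρ ((optionEquivLeft ℂ ρ).symm g)) = f
  rw [AlgEquiv.apply_symm_apply, hg]

lemma zakPsi_dim (Q : Ideal (MvPolynomial ρ ℂ)) :
    ringKrullDim (MvPolynomial ρ ℂ ⧸ Q) + 1 ≤
      ringKrullDim (MvPolynomial (Option ρ) ℂ ⧸ RingHom.ker (zakPsi Q)) := by
  have h := ringKrullDim_eq_of_ringEquiv
    (R := MvPolynomial (Option ρ) ℂ ⧸ RingHom.ker (zakPsi Q))
    (S := Polynomial (MvPolynomial ρ ℂ ⧸ Q))
    (RingHom.quotientKerEquivOfSurjective (zakPsi_surj Q))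
  rw [h]
  exact ringKrullDim_succ_le_ringKrullDim_polynomial

lemma zakPsi_prime {Q : Ideal (MvPolynomial ρ ℂ)} (hQ : Q.IsPrime) :
    (RingHom.ker (zakPsi Q)).IsPrime := by
  have : IsDomain (MvPolynomial ρ ℂ ⧸ Q) := Ideal.Quotient.isDomain Q
  exact RingHom.ker_isPrime _

lemma zakPsi_VI {Q : Ideal (MvPolynomial ρ ℂ)} {y : ρ → ℂ} (hy : y ∈ VI Q) (t : ℂ) :
    (fun o => Option.elim o t y) ∈ VI (RingHom.ker (zakPsi Q)) := by
  intro f hf
  rw [optionEquivLeft_elim_eval]
  have h1 : Polynomial.map (eval y) (optionEquivLeft ℂ ρ f) = 0 := by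
    have h2 : Polynomial.map (Ideal.Quotient.mk Q) (optionEquivLeft ℂ ρ f) = 0 := hf
    have h3 : eval y = (Ideal.Quotient.lift Q (eval y) hy).comp (Ideal.Quotient.mk Q) :=
      (Ideal.Quotient.lift_comp_mk Q (eval y) hy).symm
    rw [h3, ← Polynomial.map_map, h2, Polynomial.map_zero]
  rw [h1, Polynomial.eval_zero]

lemma zakPsi_lsub {Q : Ideal (MvPolynomial ρ ℂ)} {h : MvPolynomial ρ ℂ}
    (hh : h ∈ Q) : lsub (zk0 ρ) h ∈ RingHom.ker (zakPsi Q) := by
  have h1 : lsub (zk0 ρ) h = rename some h := by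
    apply MvPolynomial.funext
    intro w
    rw [eval_lsub, eval_rename]
    rfl
  rw [h1, RingHom.mem_ker]
  have h2 : ∀ f : MvPolynomial ρ ℂ, zakPsi Q (rename some f) =
      Polynomial.C (Ideal.Quotient.mk Q f) := by
    intro f
    have h3 : (zakPsi Q).comp ((rename some : MvPolynomial ρ ℂ →ₐ[ℂ] MvPolynomial (Option ρ) ℂ) :
        MvPolynomial ρ ℂ →+* MvPolynomial (Option ρ) ℂ) =
        Polynomial.C.comp (Ideal.Quotient.mk Q) := by
      apply MvPolynomial.ringHom_ext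
      · intro a
        simp [zakPsi, optionEquivLeft_C]
      · intro i
        simp [zakPsi, optionEquivLeft_X_some]
    exact RingHom.congr_fun h3 f
  rw [h2, Ideal.Quotient.eq_zero_iff_mem.mpr hh, map_zero]

lemma zakP_dim_zero {Q : Ideal (MvPolynomial ρ ℂ)} (h : ∀ i, X i ∈ Q) :
    ringKrullDim (MvPolynomial ρ ℂ ⧸ Q) ≤ ((0 : ℕ) : WithBot ℕ∞) := by
  have h1 := dim_le_of_no_zero (r := 0) 0 (hcore Q) (hcore_hom Q) (by
    intro p _ hp
    funext i
    have h2 := hp _ (mem_hcore_of_homog (isHomogeneous_X ℂ i) (h i))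
    rwa [eval_X] at h2)
  refine le_trans ?_ h1
  exact ringKrullDim_le_of_surjective (Ideal.Quotient.factor (hcore_le Q))
    (Ideal.Quotient.factor_surjective (hcore_le Q))

lemma zakP_succ_le {x : WithBot ℕ∞} {c : ℕ} (h : (c : WithBot ℕ∞) < x) :
    ((c + 1 : ℕ) : WithBot ℕ∞) ≤ x := by
  induction x using WithBot.recBotCoe with
  | bot => exact absurd h (not_lt_bot)
  | coe m =>
    have h1 : (c : ℕ∞) < m := by
      rw [← WithBot.coe_lt_coe]
      exact_mod_cast h
    have h2 : ((c + 1 : ℕ) : ℕ∞) ≤ m := by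
      push_cast
      exact Order.add_one_le_of_lt h1
    have h3 : ((((c + 1 : ℕ) : ℕ∞)) : WithBot ℕ∞) ≤ (m : WithBot ℕ∞) := WithBot.coe_le_coe.mpr h2
    exact_mod_cast h3

/-- **Zak's theorem on tangencies for an irreducible variety.** Doc, section 2 (copy of
`zak` in HartN/Zak.lean; `hcore Q`, `NX.cl'` for closedness). -/
theorem NX.zakP (hX : NX I c) {H : ρ → ℂ} (hH : H ≠ 0) {Q : Ideal (MvPolynomial ρ ℂ)}
    (hQ : Q.IsPrime) {u : MvPolynomial ρ ℂ} (hu : u ∉ Q) (hQI : ∀ w ∈ VI Q, w ∈ VI I)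
    (hQH : ∀ w ∈ VI Q, w ≠ 0 → eval w u ≠ 0 → H ∈ gradSpan I w) :
    ringKrullDim (MvPolynomial ρ ℂ ⧸ Q) ≤ (c : WithBot ℕ∞) := by
  classical
  by_contra hcon
  rw [not_le] at hcon
  have hdimQ := zakP_succ_le hcon
  -- a variable outside of `Q`
  obtain ⟨i, hi⟩ : ∃ i, X i ∉ Q := by
    by_contra hno
    push Not at hno
    have h1 := hdimQ.trans (zakP_dim_zero hno)
    have h2 : c + 1 ≤ 0 := by exact_mod_cast h1
    omega
  -- the homogeneous core
  set Q' := hcore Q with hQ'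
  have hQ'p : Q'.IsPrime := hcore_isPrime hQ
  have hQ'h : ∀ f ∈ Q', ∀ e, homogeneousComponent e f ∈ Q' := hcore_hom Q
  have hQ'dim : ((c + 1 : ℕ) : WithBot ℕ∞) ≤ ringKrullDim (MvPolynomial ρ ℂ ⧸ Q') :=
    hdimQ.trans (ringKrullDim_le_of_surjective (Ideal.Quotient.factor (hcore_le Q))
      (Ideal.Quotient.factor_surjective (hcore_le Q)))
  have hIQ' : I ≤ Q' := zakP_le hX.hhom hQ hQI
  have hBH : ∀ w ∈ VI Q', w ≠ 0 → H ∈ gradSpan I w := fun w hw hw0 =>
    hX.zakP_closed hQ hu hQI hQH hi hw hw0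
  have h0Q' : (0 : ρ → ℂ) ∈ VI Q' := by
    intro f hf
    by_contra hne
    apply hQ'p.ne_top
    rw [Ideal.eq_top_iff_one]
    have h1 := hQ'h f hf 0
    rw [homogeneousComponent_zero, ← eval_zero_eq_coeff] at h1
    have h2 : C (eval 0 f)⁻¹ * C (eval 0 f) ∈ Q' := Q'.mul_mem_left _ h1
    rwa [← C_mul, inv_mul_cancel₀ hne, C_1] at h2
  -- the base point
  obtain ⟨p₀, hp₀, hHp⟩ := hX.hnd H hH
  have hp₀0 : p₀ ≠ 0 := by
    rintro rfl
    exact hHp (dotProduct_zero H)
  obtain ⟨g, hg, hgli⟩ := hX.hsm p₀ hp₀0 hp₀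
  set z : ρ → ℂ := -p₀ with hz
  set q₀ : Option ρ → ℂ := fun o => Option.elim o 1 0 with hq₀
  have hq0 : zk0 ρ q₀ = 0 := by
    funext b; rfl
  have hqz : zkz z q₀ = p₀ := by
    funext b
    rw [zkz_apply, hq₀]
    simp only [Option.elim_some, Option.elim_none, one_mul]
    rw [hz, Pi.zero_apply, Pi.neg_apply, zero_sub, neg_neg]
  obtain ⟨P, hP, hPP, hGP, hPq, hPdim⟩ := exists_prime_over (zakPsi_prime hQ'p)
    (zakPsi_VI h0Q' 1) (fun k => lsub (zkz z) (g k)) (fun k => by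
      show eval q₀ _ = 0
      rw [eval_lsub, hqz]; exact hp₀ _ (hg k))
  rw [Fintype.card_fin] at hPdim
  -- the equations in the prime
  have hBP : ∀ h ∈ Q', lsub (zk0 ρ) h ∈ P := fun h hh => hPP (zakPsi_lsub hh)
  have hIP : ∀ h ∈ I, lsub (zkz z) h ∈ P := by
    intro h hh
    obtain ⟨v, hv, hm⟩ := (point_case I hX.hI p₀ hp₀ c g hg hgli).2 hX.hdim h hh
    have h1 : lsub (zkz z) (v * h) ∈ P := by
      have h2 : Ideal.span (Set.range g) ≤ P.comap (lsub (zkz z)) := by
        rw [Ideal.span_le]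
        rintro _ ⟨k, rfl⟩
        exact hGP k
      exact h2 hm
    rw [map_mul] at h1
    rcases hP.mem_or_mem h1 with h2 | h2
    · have h3 : eval q₀ (lsub (zkz z) v) = 0 := hPq _ h2
      rw [eval_lsub, hqz] at h3
      exact absurd h3 hv
    · exact h2
  -- the homogeneous core
  set P' := hcore P with hP'
  have hP'p : P'.IsPrime := hcore_isPrime hP
  have hP'h : ∀ f ∈ P', ∀ e, homogeneousComponent e f ∈ P' := hcore_hom P
  have hBP' : ∀ h ∈ Q', lsub (zk0 ρ) h ∈ P' := by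
    intro h hh
    rw [← sum_homogeneousComponent h, map_sum]
    refine Ideal.sum_mem _ (fun k _ => ?_)
    exact mem_hcore_of_homog (isHomogeneous_lsub _ _ _ (homogeneousComponent_isHomogeneous k h))
      (hBP _ (hQ'h h hh k))
  have hIP' : ∀ h ∈ I, lsub (zkz z) h ∈ P' := by
    intro h hh
    rw [← sum_homogeneousComponent h, map_sum]
    refine Ideal.sum_mem _ (fun k _ => ?_)
    exact mem_hcore_of_homog (isHomogeneous_lsub _ _ _ (homogeneousComponent_isHomogeneous k h))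
      (hIP _ (hX.hhom h hh k))
  have hlam : (X none : MvPolynomial (Option ρ) ℂ) ∉ P' := by
    intro h
    have h1 : eval q₀ (X none : MvPolynomial (Option ρ) ℂ) = 0 := hPq _ (hcore_le P h)
    rw [eval_X] at h1
    exact one_ne_zero h1
  -- a point at the hyperplane at infinity
  obtain ⟨w, hwn, hwP, hw0⟩ : ∃ w : Option ρ → ℂ, w none = 0 ∧ (∀ h ∈ P', eval w h = 0) ∧
      w ≠ 0 := by
    by_contra hno
    push Not at hno
    have h1 := dim_le_of_no_zero (r := 1)
      (LinearMap.pi (fun _ => LinearMap.proj (R := ℂ) (φ := fun _ : Option ρ => ℂ) none)) P' hP'h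
      (by
        intro p hp hpP
        exact hno p (congrFun hp 0) hpP)
    have h2 : ringKrullDim (MvPolynomial (Option ρ) ℂ ⧸ P) ≤ ((1 : ℕ) : WithBot ℕ∞) :=
      le_trans (ringKrullDim_le_of_surjective (Ideal.Quotient.factor (hcore_le P))
        (Ideal.Quotient.factor_surjective (hcore_le P))) h1
    have h3 : ((c + 1 : ℕ) : WithBot ℕ∞) + 1 ≤ ((1 : ℕ) : WithBot ℕ∞) + (c : WithBot ℕ∞) := by
      calc ((c + 1 : ℕ) : WithBot ℕ∞) + 1 ≤ ringKrullDim (MvPolynomial ρ ℂ ⧸ Q') + 1 :=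
            add_le_add_left hQ'dim 1
        _ ≤ _ := zakPsi_dim Q'
        _ ≤ _ := hPdim
        _ ≤ _ := add_le_add_left h2 _
    have h4 : c + 1 + 1 ≤ 1 + c := by exact_mod_cast h3
    omega
  have hy : zk0 ρ w ≠ 0 := by
    intro h0
    apply hw0
    funext o
    rcases o with _ | b
    · exact hwn
    · exact congrFun h0 b
  have hyQ : zk0 ρ w ∈ VI Q' := by
    intro b hb
    have h1 := hwP _ (hBP' b hb)
    rwa [eval_lsub] at h1
  obtain ⟨g', hg', hgH⟩ := exists_grad_of_mem (hBH _ hyQ hy)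
  obtain ⟨h, hh, hhe⟩ := exists_quot z g'
  have h1 : X none * h ∈ P' := by
    rw [← hh]
    exact Ideal.sub_mem _ (hBP' g' (hIQ' hg')) (hIP' g' hg')
  have h2 : h ∈ P' := (hP'p.mem_or_mem h1).resolve_left hlam
  have h3 := hwP h h2
  rw [hhe w hwn, hgH, hz, dotProduct_neg, neg_eq_zero] at h3
  exact hHp h3

end ZakP

end Pool.Agent.HartA
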