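import Mathlib
import Pool.Agent.HartA.ZakP

/-!
The lines through any point.
-/

namespace Pool.Agent.HartA

open Pool.Agent.Hartshorne MvPolynomial

set_option linter.unusedSectionVars false

section A4
variable {ρ : Type} [Fintype ρ] [DecidableEq ρ] {I : Ideal (MvPolynomial ρ ℂ)} {c : ℕ}

lemma kappa_add_one_le {g : ℕ} {x : WithBot ℕ∞} (h : ((g : ℕ) : WithBot ℕ∞) < x) :
    ((g + 1 : ℕ) : WithBot ℕ∞) ≤ x := by
  induction x using WithBot.recBotCoe with
  | bot => exact absurd h not_lt_bot
  | coe a =>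
    have h1 : ((g : ℕ) : ℕ∞) < a := by exact_mod_cast h
    have h2 : ((g : ℕ) : ℕ∞) + 1 ≤ a := Order.add_one_le_of_lt h1
    exact_mod_cast h2

/-- Independent gradients of elements of a prime bound its dimension. -/
lemma kappa_dim_add_card_le {Q : Ideal (MvPolynomial ρ ℂ)} (hQ : Q.IsPrime) {w : ρ → ℂ}
    (hw : w ∈ VI Q) {κ : Type*} [Fintype κ] {a : κ → (ρ → ℂ)} (hli : LinearIndependent ℂ a)
    (ha : ∀ j, ∃ f ∈ Q, grad w f = a j) :
    ringKrullDim (MvPolynomial ρ ℂ ⧸ Q) + ((Fintype.card κ : ℕ) : WithBot ℕ∞) ≤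
      ((Fintype.card ρ : ℕ) : WithBot ℕ∞) := by
  choose f hf hfa using ha
  let e := Fintype.equivFin κ
  refine (point_case Q hQ w hw (Fintype.card κ) (fun k => f (e.symm k)) (fun k => hf _) ?_).1
  have h1 : (fun k => grad w (f (e.symm k))) = a ∘ e.symm := by
    funext k
    exact hfa _
  rw [h1]
  exact hli.comp _ e.symm.injective

/-- A prime whose only zero is the origin. -/
lemma kappa_dim_le_zero {Q : Ideal (MvPolynomial ρ ℂ)} (hQ : Q.IsPrime)
    (h : ∀ w ∈ VI Q, w = 0) : ringKrullDim (MvPolynomial ρ ℂ ⧸ Q) ≤ 0 := by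
  have h1 : Function.Surjective (algebraMap ℂ (MvPolynomial ρ ℂ ⧸ Q)) := by
    intro x
    obtain ⟨f, rfl⟩ := Ideal.Quotient.mk_surjective x
    refine ⟨eval 0 f, ?_⟩
    have h2 : algebraMap ℂ (MvPolynomial ρ ℂ ⧸ Q) (eval 0 f) =
        Ideal.Quotient.mk Q (C (eval 0 f)) := rfl
    rw [h2, Ideal.Quotient.eq]
    refine mem_of_eval_zero hQ (fun z hz => ?_)
    rw [h z hz, map_sub, eval_C, sub_self]
  have h2 := ringKrullDim_le_of_surjective _ h1
  rwa [ringKrullDim_eq_zero_of_field] at h2

/-- Independent vectors have a nonvanishing minor. -/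
lemma kappa_exists_minor {K κ τ : Type*} [Field K] [Fintype κ] [DecidableEq κ] [Fintype τ]
    (w : κ → (τ → K)) (hw : LinearIndependent K w) :
    ∃ T : κ → τ, (Matrix.of fun i l => w i (T l)).det ≠ 0 := by
  classical
  have hrank : (Matrix.of w).rank = Fintype.card κ := by
    have h1 : LinearIndependent K (Matrix.of w).row := hw
    exact h1.rank_matrix
  rw [Matrix.rank_eq_finrank_span_cols] at hrank
  obtain ⟨f, hf, -, hli⟩ := Submodule.exists_fun_fin_finrank_span_eq K
    (Set.range (Matrix.of w).col)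
  choose T hT using hf
  let e : κ ≃ Fin (Module.finrank K (Submodule.span K (Set.range (Matrix.of w).col))) :=
    Fintype.equivFinOfCardEq hrank.symm
  refine ⟨fun l => T (e l), ?_⟩
  set M : Matrix κ κ K := Matrix.of fun i l => w i (T (e l)) with hM
  have h2 : LinearIndependent K M.col := by
    have h3 := hli.comp e e.injective
    have h4 : M.col = f ∘ e := by
      funext l
      funext i
      exact congrFun (hT (e l)) i
    rw [h4]
    exact h3
  rw [Matrix.linearIndependent_cols_iff_isUnit, Matrix.isUnit_iff_isUnit_det] at h2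
  exact h2.ne_zero

/-- The dependence of the rows. -/
theorem kappa_exists_dep {Q : Ideal (MvPolynomial ρ ℂ)} (hQ : Q.IsPrime) {w₁ : ρ → ℂ}
    (hw₁ : w₁ ∈ VI Q) (hw₁0 : w₁ ≠ 0) {ε : Fin c → ρ → ℂ} {F : Fin c → MvPolynomial ρ ℂ}
    (hF : LinearIndependent ℂ (fun k => grad w₁ (F k)))
    (hdep : ∀ w ∈ VI Q, w ≠ 0 →
      ¬ LinearIndependent ℂ (Sum.elim ε (fun k => grad w (F k)))) :
    ∃ μ β : Fin c → MvPolynomial ρ ℂ, (∃ i, μ i ∉ Q) ∧
      ∀ w ∈ VI Q, ∑ i, eval w (μ i) • ε i = ∑ i, eval w (β i) • grad w (F i) := by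
  classical
  obtain ⟨b₀, hb₀⟩ := Function.ne_iff.mp hw₁0
  rw [Pi.zero_apply] at hb₀
  have hex : ∀ f : MvPolynomial ρ ℂ, f ∉ Q → ∃ w ∈ VI Q, eval w f ≠ 0 := by
    intro f hf
    by_contra hcon
    push Not at hcon
    exact hf (mem_of_eval_zero hQ (fun z hz => hcon z hz))
  set V : Fin c ⊕ Fin c → ρ → MvPolynomial ρ ℂ :=
    Sum.elim (fun i b => C (ε i b)) (fun k b => pderiv b (F k)) with hV
  have hVe : ∀ w : ρ → ℂ, (fun j => fun b => eval w (V j b)) =
      Sum.elim ε (fun k => grad w (F k)) := by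
    intro w
    funext j b
    rcases j with i | k
    · simp [hV]
    · simp only [hV, Sum.elim_inr]
      rw [grad_apply]
  set R := MvPolynomial ρ ℂ ⧸ Q with hR
  set v : Fin c ⊕ Fin c → ρ → R := fun j b => Ideal.Quotient.mk Q (V j b) with hv
  have hnli : ¬ LinearIndependent R v := by
    intro hli
    set K := FractionRing R with hK
    set v' : Fin c ⊕ Fin c → ρ → K := fun j b => algebraMap R K (v j b) with hv'
    have h1 : LinearIndependent R v' := by
      let L : (ρ → R) →ₗ[R] (ρ → K) :=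
        { toFun := fun x b => algebraMap R K (x b)
          map_add' := fun x y => by funext b; simp
          map_smul' := fun r x => by
            funext b
            show algebraMap R K (r * x b) = r • algebraMap R K (x b)
            rw [map_mul]
            exact (Algebra.smul_def r (algebraMap R K (x b))).symm }
      have hL : Function.Injective L := by
        intro x y hxy
        funext b
        exact IsFractionRing.injective R K (congrFun hxy b)
      exact hli.map' L (LinearMap.ker_eq_bot.mpr hL)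
    have h2 : LinearIndependent K v' := (LinearIndependent.iff_fractionRing R K).mp h1
    obtain ⟨T, hT⟩ := kappa_exists_minor v' h2
    set M : Matrix (Fin c ⊕ Fin c) (Fin c ⊕ Fin c) (MvPolynomial ρ ℂ) :=
      Matrix.of fun j l => V j (T l) with hM
    have h3 : M.det ∉ Q := by
      intro h3
      apply hT
      have h4 : (Matrix.of fun i l => v' i (T l)) =
          (((algebraMap R K).comp (Ideal.Quotient.mk Q)).mapMatrix M) := by
        ext i l; rfl
      rw [h4, ← RingHom.map_det, RingHom.comp_apply, Ideal.Quotient.eq_zero_iff_mem.mpr h3,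
        map_zero]
    have h4 : M.det * X b₀ ∉ Q := by
      intro h4
      rcases hQ.mem_or_mem h4 with h5 | h5
      · exact h3 h5
      · have := hw₁ _ h5
        rw [eval_X] at this
        exact hb₀ this
    obtain ⟨w, hw, hwe⟩ := hex _ h4
    rw [map_mul, eval_X, mul_ne_zero_iff] at hwe
    refine hdep w hw (fun h0 => hwe.2 (by rw [h0, Pi.zero_apply])) ?_
    rw [← hVe w]
    apply LinearIndependent.of_comp (LinearMap.funLeft ℂ ℂ T)
    have h5 : eval w M.det = (Matrix.of fun j l => eval w (V j (T l))).det := by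
      rw [RingHom.map_det]
      rfl
    have h6 := Matrix.linearIndependent_rows_of_det_ne_zero (h5 ▸ hwe.1)
    exact h6
  rw [Fintype.not_linearIndependent_iff] at hnli
  obtain ⟨g, hg, j₀, hj₀⟩ := hnli
  choose G hG using fun j => Ideal.Quotient.mk_surjective (g j)
  have hrel : ∀ w ∈ VI Q, ∑ j, eval w (G j) • (Sum.elim ε (fun k => grad w (F k)) j) = 0 := by
    intro w hw
    funext b
    have h1 := congrFun hg b
    have h2 : ∑ j, G j * V j b ∈ Q := by
      rw [← Ideal.Quotient.eq_zero_iff_mem, map_sum]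
      rw [Finset.sum_apply, Pi.zero_apply] at h1
      refine Eq.trans ?_ h1
      refine Finset.sum_congr rfl (fun j _ => ?_)
      rw [map_mul, hG, Pi.smul_apply, smul_eq_mul]
    have h3 := hw _ h2
    rw [map_sum] at h3
    rw [Finset.sum_apply, Pi.zero_apply, ← h3]
    refine Finset.sum_congr rfl (fun j _ => ?_)
    rw [← hVe w, map_mul]
    rfl
  refine ⟨fun i => G (Sum.inl i), fun i => - G (Sum.inr i), ?_, ?_⟩
  · by_contra hcon
    push Not at hcon
    obtain ⟨l, hl⟩ : ∃ l, G (Sum.inr l) ∉ Q := by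
      rcases j₀ with i | l
      · exfalso
        apply hj₀
        rw [← hG, Ideal.Quotient.eq_zero_iff_mem]
        exact hcon i
      · refine ⟨l, fun h => hj₀ ?_⟩
        rw [← hG, Ideal.Quotient.eq_zero_iff_mem]
        exact h
    obtain ⟨T, hT⟩ := kappa_exists_minor _ hF
    set M : Matrix (Fin c) (Fin c) (MvPolynomial ρ ℂ) :=
      Matrix.of fun j l => pderiv (T l) (F j) with hM
    have hMe : ∀ w : ρ → ℂ, eval w M.det = (Matrix.of fun j l => grad w (F j) (T l)).det := by
      intro w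
      rw [RingHom.map_det]
      congr 1
    have h3 : M.det * G (Sum.inr l) ∉ Q := by
      intro h4
      rcases hQ.mem_or_mem h4 with h5 | h5
      · have := hw₁ _ h5
        rw [hMe] at this
        exact hT this
      · exact hl h5
    obtain ⟨w, hw, hwe⟩ := hex _ h3
    rw [map_mul, mul_ne_zero_iff] at hwe
    have h5 : LinearIndependent ℂ (fun k => grad w (F k)) := by
      apply LinearIndependent.of_comp (LinearMap.funLeft ℂ ℂ T)
      have h6 := Matrix.linearIndependent_rows_of_det_ne_zero (hMe w ▸ hwe.1)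
      exact h6
    have h6 := hrel w hw
    rw [Fintype.sum_sum_type] at h6
    have h7 : ∑ i : Fin c, eval w (G (Sum.inl i)) •
        (Sum.elim ε (fun k => grad w (F k)) (Sum.inl i)) = 0 := by
      refine Finset.sum_eq_zero (fun i _ => ?_)
      rw [hw _ (hcon i), zero_smul]
    rw [h7, zero_add] at h6
    exact hwe.2 (Fintype.linearIndependent_iff.mp h5 (fun k => eval w (G (Sum.inr k))) h6 l)
  · intro w hw
    have h1 := hrel w hw
    rw [Fintype.sum_sum_type] at h1
    simp only [Sum.elim_inl, Sum.elim_inr] at h1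
    rw [eq_neg_of_add_eq_zero_left h1, ← Finset.sum_neg_distrib]
    refine Finset.sum_congr rfl (fun i _ => ?_)
    rw [map_neg, neg_smul]

/-- **The lines through any point.** Doc, section 3. -/
theorem NX.kappa (hX : NX I c) (hc : 4 * c ≤ Fintype.card ρ + 1) {y : ρ → ℂ} (hy0 : y ≠ 0)
    (hy : y ∈ VI I) {Q : Ideal (MvPolynomial ρ ℂ)} (hQ : Q.IsPrime)
    (hQy : ∀ w ∈ VI Q, ∀ s t : ℂ, s • y + t • w ∈ VI I) :
    ringKrullDim (MvPolynomial ρ ℂ ⧸ Q) ≤ ((Fintype.card ρ - 2 * c : ℕ) : WithBot ℕ∞) := by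
  classical
  by_contra hcon
  rw [not_le] at hcon
  have hd := kappa_add_one_le hcon
  -- no `2 c` independent gradients
  have hcount : ∀ w ∈ VI Q, ∀ a : Fin c ⊕ Fin c → (ρ → ℂ), LinearIndependent ℂ a →
      ¬ ∀ j, ∃ f ∈ Q, grad w f = a j := by
    intro w hw a hli ha
    have h1 := kappa_dim_add_card_le hQ hw hli ha
    rw [Fintype.card_sum, Fintype.card_fin] at h1
    have h2 : ((Fintype.card ρ - 2 * c + 1 + (c + c) : ℕ) : WithBot ℕ∞) ≤
        ((Fintype.card ρ : ℕ) : WithBot ℕ∞) := by
      refine le_trans ?_ h1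
      rw [Nat.cast_add (Fintype.card ρ - 2 * c + 1)]
      exact add_le_add_left hd _
    have h3 : Fintype.card ρ - 2 * c + 1 + (c + c) ≤ Fintype.card ρ := by exact_mod_cast h2
    omega
  have hQI : ∀ w ∈ VI Q, w ∈ VI I := by
    intro w hw
    have := hQy w hw 0 1
    rwa [zero_smul, zero_add, one_smul] at this
  have hIQ : ∀ h ∈ I, h ∈ Q := fun h hh => mem_of_eval_zero hQ (fun z hz => hQI z hz h hh)
  have htr : ∀ (s : ℂ), ∀ h ∈ I, trans (s • y) h ∈ Q := by
    intro s h hh
    refine mem_of_eval_zero hQ (fun z hz => ?_)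
    rw [eval_trans]
    have := hQy z hz s 1
    rw [one_smul, add_comm] at this
    exact this h hh
  -- a nonzero point
  obtain ⟨w₁, hw₁, hw₁0⟩ : ∃ w ∈ VI Q, w ≠ 0 := by
    by_contra hno
    push Not at hno
    have h1 := hd.trans (kappa_dim_le_zero hQ hno)
    have h2 : Fintype.card ρ - 2 * c + 1 ≤ 0 := by exact_mod_cast h1
    omega
  obtain ⟨q', hq', hε⟩ := hX.hsm y hy0 hy
  obtain ⟨F, hF, hFli⟩ := hX.hsm w₁ hw₁0 (hQI w₁ hw₁)
  have hdep : ∀ w ∈ VI Q, w ≠ 0 →
      ¬ LinearIndependent ℂ (Sum.elim (fun k => grad y (q' k)) (fun k => grad w (F k))) := by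
    intro w hw hw0 hli
    set r : Fin c ⊕ Fin c → ρ → Polynomial ℂ := Sum.elim
      (fun k b => lineP y w (pderiv b (q' k))) (fun k b => Polynomial.C (grad w (F k) b))
      with hr
    have hrev : ∀ s, (fun j => fun b => (r j b).eval s) =
        Sum.elim (fun k => grad (y + s • w) (q' k)) (fun k => grad w (F k)) := by
      intro s
      funext j b
      rcases j with k | k
      · show (lineP y w (pderiv b (q' k))).eval s = grad (y + s • w) (q' k) b
        rw [eval_lineP, grad_apply]
      · show (Polynomial.C (grad w (F k) b)).eval s = grad w (F k) b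
        rw [Polynomial.eval_C]
    have hli0 : LinearIndependent ℂ (fun j => fun b => (r j b).eval 0) := by
      rw [hrev 0, zero_smul, add_zero]
      exact hli
    obtain ⟨D, hD0, hD⟩ := li_open r hli0
    obtain ⟨s, hs, hDs⟩ := exists_avoid (D := D) (by rintro rfl; simp at hD0)
      ({0} : Set ℂ) (Set.finite_singleton _)
    rw [Set.mem_singleton_iff] at hs
    have h2 := hD s hDs
    rw [hrev s] at h2
    refine hcount w hw _ h2 ?_
    rintro (k | k)
    · show ∃ f ∈ Q, grad w f = grad (y + s • w) (q' k)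
      have h3 : y + s • w = s • (w + s⁻¹ • y) := by
        rw [smul_add, smul_smul, mul_inv_cancel₀ hs, one_smul, add_comm]
      have h4 : grad (y + s • w) (q' k) ∈ gradSpan I (w + s⁻¹ • y) := by
        rw [← gradSpan_smul hX.hhom _ hs, ← h3]
        exact grad_mem_gradSpan (hq' k) _
      obtain ⟨f, hf, hfe⟩ := exists_grad_of_mem h4
      refine ⟨trans (s⁻¹ • y) f, htr _ f hf, ?_⟩
      rw [← hfe]
      funext b
      rw [grad_apply, grad_apply, pderiv_trans, eval_trans]
    · exact ⟨F k, hIQ _ (hF k), rfl⟩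
  obtain ⟨μ, β, ⟨i₀, hi₀⟩, hrel⟩ := kappa_exists_dep hQ hw₁ hw₁0 hFli hdep
  obtain ⟨w₀, hw₀, hw₀e⟩ : ∃ w ∈ VI Q, eval w (μ i₀) ≠ 0 := by
    by_contra hno
    push Not at hno
    exact hi₀ (mem_of_eval_zero hQ (fun z hz => hno z hz))
  set H : ρ → ℂ := ∑ i, eval w₀ (μ i) • grad y (q' i) with hH
  have hH0 : H ≠ 0 := by
    intro h0
    exact hw₀e (Fintype.linearIndependent_iff.mp hε (fun i => eval w₀ (μ i)) h0 i₀)
  obtain ⟨Q₂, hQ₂, hle, hmem, hw₀2, hdim⟩ := exists_prime_over hQ hw₀
    (fun i : {i : Fin c // i ≠ i₀} =>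
      C (eval w₀ (μ i₀)) * μ i.1 - C (eval w₀ (μ i.1)) * μ i₀) (by
      intro i
      rw [map_sub, map_mul, map_mul, eval_C, eval_C]
      ring)
  have hz := hX.zakP hH0 hQ₂ (u := μ i₀) (fun h => hw₀e (hw₀2 _ h))
    (fun w hw => hQI w (fun h hh => hw h (hle hh)))
    (by
      intro w hw hw0 hwe
      have hwQ : w ∈ VI Q := fun h hh => hw h (hle hh)
      have h1 : ∀ i, eval w₀ (μ i₀) * eval w (μ i) = eval w₀ (μ i) * eval w (μ i₀) := by
        intro i
        by_cases hi : i = i₀
        · rw [hi]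
        · have h2 := hw _ (hmem ⟨i, hi⟩)
          rw [map_sub, map_mul, map_mul, eval_C, eval_C, sub_eq_zero] at h2
          exact h2
      have h2 : eval w (μ i₀) • H = eval w₀ (μ i₀) • ∑ i, eval w (μ i) • grad y (q' i) := by
        rw [hH, Finset.smul_sum, Finset.smul_sum]
        refine Finset.sum_congr rfl (fun i _ => ?_)
        rw [smul_smul, smul_smul, h1 i, mul_comm]
      have h3 : H = (eval w (μ i₀))⁻¹ • (eval w₀ (μ i₀) • ∑ i, eval w (μ i) • grad y (q' i)) := by
        rw [← h2, smul_smul, inv_mul_cancel₀ hwe, one_smul]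
      rw [h3]
      refine Submodule.smul_mem _ _ (Submodule.smul_mem _ _ ?_)
      rw [hrel w hwQ]
      refine Submodule.sum_mem _ (fun i _ => Submodule.smul_mem _ _ ?_)
      exact grad_mem_gradSpan (hF i) w)
  -- the count
  have hcard : Fintype.card {i : Fin c // i ≠ i₀} = c - 1 := by
    rw [Fintype.card_subtype_compl, Fintype.card_fin, Fintype.card_unique]
  have hc0 : 0 < c := Fin.pos i₀
  rw [hcard] at hdim
  have h1 := (hd.trans hdim).trans (add_le_add_left hz _)
  have h2 : ((Fintype.card ρ - 2 * c + 1 : ℕ) : WithBot ℕ∞) ≤ ((c + (c - 1) : ℕ) : WithBot ℕ∞) := by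
    rw [Nat.cast_add c]
    exact h1
  have h3 : Fintype.card ρ - 2 * c + 1 ≤ c + (c - 1) := by exact_mod_cast h2
  omega
end A4

end Pool.Agent.HartA
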