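import Mathlib
import Pool.Agent.HartA.Basic

/-!
Parametrized rational curves with one fixed point.
-/

namespace Pool.Agent.HartA

open Pool.Agent.Hartshorne MvPolynomial

set_option linter.unusedSectionVars false

section Curve

variable {ρ : Type} [Fintype ρ] [DecidableEq ρ] {I : Ideal (MvPolynomial ρ ℂ)} {c : ℕ}

/-- The parametrized curve of degree `j` with value `x` at `t = 0` and coefficients `q`. -/
noncomputable def curve (x : ρ → ℂ) {j : ℕ} (q : Fin j × ρ → ℂ) (s t : ℂ) : ρ → ℂ :=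
  s ^ j • x + ∑ i : Fin j, (s ^ (j - 1 - (i : ℕ)) * t ^ ((i : ℕ) + 1)) • fun b => q (i, b)

/-- The curves in the variety. -/
def CurveIn (I : Ideal (MvPolynomial ρ ℂ)) (x : ρ → ℂ) {j : ℕ} (q : Fin j × ρ → ℂ) : Prop :=
  ∀ s t : ℂ, curve x q s t ∈ VI I

/-- The curves of degree `j` with value `x` at `0` have a family of dimension `≥ e`. -/
def Dge (I : Ideal (MvPolynomial ρ ℂ)) (x : ρ → ℂ) (j e : ℕ) : Prop :=
  ∃ P : Ideal (MvPolynomial (Fin j × ρ) ℂ), P.IsPrime ∧ (∀ q ∈ VI P, CurveIn I x q) ∧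
    (e : WithBot ℕ∞) ≤ ringKrullDim (MvPolynomial (Fin j × ρ) ℂ ⧸ P)

end Curve

end Pool.Agent.HartA
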