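import Mathlib
import Pool.Agent.HartA.Curve
import Pool.Agent.HartN.Final

/-!
From rational curves through the general point to complete intersections of quadrics.
-/

namespace Pool.Agent.HartA

open Pool.Agent.Hartshorne MvPolynomial

set_option linter.unusedSectionVars false

section Rat

variable {ρ : Type} [Fintype ρ] [DecidableEq ρ] {I : Ideal (MvPolynomial ρ ℂ)} {c : ℕ}

/-- The points joined to `x` by lines of the variety. -/
def lineSet (I : Ideal (MvPolynomial ρ ℂ)) (x : ρ → ℂ) : Set (ρ → ℂ) :=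
  {q | ∀ s t : ℂ, s • x + t • q ∈ VI I}

/-- From curves of degree one to the set of lines. -/
theorem dim_lineSet {x : ρ → ℂ} {e : ℕ} (h : Dge I x 1 e) :
    (e : WithBot ℕ∞) ≤
      ringKrullDim (MvPolynomial ρ ℂ ⧸ vanishingIdeal ℂ (lineSet I x)) := by
  obtain ⟨P, hP, hPI, hPd⟩ := h
  refine hPd.trans ?_
  set φ : MvPolynomial ρ ℂ →ₐ[ℂ] MvPolynomial (Fin 1 × ρ) ℂ := rename (fun b => ((0 : Fin 1), b))
    with hφ
  have hle : vanishingIdeal ℂ (lineSet I x) ≤ P.comap φ.toRingHom := by
    intro f hf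
    rw [mem_vanishingIdeal_iff] at hf
    rw [Ideal.mem_comap]
    refine mem_of_eval_zero hP (fun q hq => ?_)
    have h1 : eval q (φ f) = eval (fun b => q (0, b)) f := by
      rw [hφ, eval_rename]
      rfl
    show eval q (φ f) = 0
    rw [h1, ← aeval_eq_eval]
    refine hf _ (fun s t => ?_)
    have h2 := hPI q hq s t
    rw [curve] at h2
    simpa using h2
  refine ringKrullDim_le_of_surjective (Ideal.quotientMap P φ.toRingHom hle) ?_
  apply Ideal.quotientMap_surjective
  intro f
  refine ⟨rename (fun p : Fin 1 × ρ => p.2) f, ?_⟩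
  show φ (rename (fun p : Fin 1 × ρ => p.2) f) = f
  rw [hφ, rename_rename]
  have h1 : ((fun b => ((0 : Fin 1), b)) ∘ fun p : Fin 1 × ρ => p.2) = id := by
    funext p
    exact Prod.ext (Subsingleton.elim _ _) rfl
  rw [h1, rename_id]
  rfl

/-- The linear form with given coefficients. -/
noncomputable def lform (H : ρ → ℂ) : MvPolynomial ρ ℂ := ∑ b, C (H b) * X b

lemma eval_lform (H p : ρ → ℂ) : eval p (lform H) = H ⬝ᵥ p := by
  rw [lform, map_sum, dotProduct]
  refine Finset.sum_congr rfl (fun b _ => ?_)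
  rw [map_mul, eval_C, eval_X]

lemma NX.lform_notMem (hX : NX I c) {H : ρ → ℂ} (hH : H ≠ 0) : lform H ∉ I := by
  intro h
  obtain ⟨p, hp, hne⟩ := hX.hnd H hH
  apply hne
  rw [← eval_lform]
  exact hp _ h

lemma NX.hnd' (hX : NX I c) : ∀ l ∈ I, l.IsHomogeneous 1 → l = 0 := by
  intro l hl hl1
  by_contra hne
  set H : ρ → ℂ := fun b => coeff (Finsupp.single b 1) l with hH
  have h1 : l = lform H := by
    apply MvPolynomial.ext
    intro d
    rw [lform, coeff_sum]
    by_cases hd : ∃ b, d = Finsupp.single b 1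
    · obtain ⟨b, rfl⟩ := hd
      rw [Finset.sum_eq_single b]
      · rw [coeff_C_mul, coeff_X, if_pos rfl, mul_one]
      · intro b' _ hb'
        rw [coeff_C_mul, coeff_X, if_neg, mul_zero]
        intro h
        exact hb' (Finsupp.single_left_injective one_ne_zero h)
      · intro h; exact absurd (Finset.mem_univ _) h
    · rw [Finset.sum_eq_zero]
      · by_contra h2
        apply hd
        rw [← Finsupp.sum_eq_one_iff]
        have h3 := hl1 h2
        rw [Finsupp.weight_apply] at h3
        rw [← h3]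
        simp
      · intro b _
        rw [coeff_C_mul, coeff_X, if_neg, mul_zero]
        intro h
        exact hd ⟨b, h.symm⟩
  have hH0 : H ≠ 0 := by
    intro h0
    apply hne
    rw [h1, h0, lform]
    simp
  exact hX.lform_notMem hH0 (h1 ▸ hl)

/-- A general point. -/
lemma NX.exists_general (hX : NX I c) {g : MvPolynomial ρ ℂ} (hg : g ∉ I) :
    ∃ x ∈ VI I, eval x g ≠ 0 := by
  by_contra hcon
  push Not at hcon
  exact hg (mem_of_eval_zero hX.hI (fun z hz => hcon z hz))

/-- **Varieties with many rational curves through the general point.** -/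
theorem NX.of_curves (hX : NX I c) (hc : 0 < c) (hN : 4 * c + 1 < Fintype.card ρ)
    (hlines : ∀ g ∉ I, ∃ x ∈ VI I, eval x g ≠ 0 ∧ Dge I x 1 (Fintype.card ρ - 2 * c)) :
    ∃ G : Fin c → MvPolynomial ρ ℂ, (∀ k, (G k).IsHomogeneous 2) ∧
      Ideal.span (Set.range G) = I := by
  obtain ⟨G, e, hG, hs, hspan⟩ := core_lines c hc (by
    have h1 : c - c - 1 = 0 := by omega
    rw [h1]
    omega) I hX.hI hX.hhom hX.hdim hX.hsm hX.hnd' (by
    intro g hg
    obtain ⟨x, hx, hgx, hD⟩ := hlines g hg
    refine ⟨x, hx, hgx, ?_⟩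
    have h1 := dim_lineSet hD
    have h2 : coneI I x = vanishingIdeal ℂ (lineSet I x) := rfl
    rw [h2]
    refine le_trans ?_ (add_le_add_left h1 _)
    have h3 : Fintype.card ρ = (Fintype.card ρ - 2 * c) + (c + c) := by omega
    conv_lhs => rw [h3]
    rw [Nat.cast_add])
  refine ⟨G, fun k => ?_, hspan⟩
  have h1 : ∀ k, 1 ≤ e k - 1 := fun k => by
    have := (hG k).1
    omega
  have h2 : ∀ k, e k - 1 = 1 := by
    intro k
    by_contra hne
    have h3 : 2 ≤ e k - 1 := by
      have := h1 k
      omega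
    have h4 : ∑ k : Fin c, 1 < ∑ k, (e k - 1) :=
      Finset.sum_lt_sum (fun k _ => h1 k) ⟨k, Finset.mem_univ _, by omega⟩
    rw [Finset.sum_const, Finset.card_univ, Fintype.card_fin, smul_eq_mul, mul_one] at h4
    omega
  have h3 : e k = 2 := by
    have h4 := h2 k
    have h5 := (hG k).1
    omega
  rw [← h3]
  exact (hG k).2

end Rat

end Pool.Agent.HartA
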