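import Mathlib
import Pool.Agent.HartA.Fiber
import Pool.Agent.HartA.Kappa
import Pool.Agent.HartA.Rat

/-!
# Breaking off a line

A family of curves of degree `j + 2` in a nonsingular cone, all passing through a point, gives a
family of curves of smaller degree.
-/

namespace Pool.Agent.HartA

open Pool.Agent.Hartshorne MvPolynomial

set_option linter.unusedSectionVars false

/-! ### Elimination of variables which vanish -/

section Elim0

variable {σ σ' : Type*}

/-- Extension by zero. -/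
noncomputable def brkExt (π : σ' → Option σ) (p : σ → ℂ) : σ' → ℂ := fun k => (π k).elim 0 p

/-- Put the variables outside the range equal to zero. -/
noncomputable def brkRetr (π : σ' → Option σ) : MvPolynomial σ' ℂ →ₐ[ℂ] MvPolynomial σ ℂ :=
  aeval (fun k => (π k).elim 0 X)

lemma eval_brkRetr (π : σ' → Option σ) (p : σ → ℂ) (f : MvPolynomial σ' ℂ) :
    eval p (brkRetr π f) = eval (brkExt π p) f := by
  induction f using MvPolynomial.induction_on with
  | C t => simp [brkRetr]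
  | add f g hf hg => rw [map_add, map_add, map_add, hf, hg]
  | mul_X f k hf =>
    rw [map_mul, map_mul, map_mul, hf, eval_X]
    congr 1
    rw [brkRetr, aeval_X, brkExt]
    cases π k <;> simp

lemma sub_brkRetr_mem {Q' : Ideal (MvPolynomial σ' ℂ)} {ψ : σ → σ'} {π : σ' → Option σ}
    (h1 : ∀ k i, π k = some i → ψ i = k) (h2 : ∀ k, π k = none → X k ∈ Q')
    (f : MvPolynomial σ' ℂ) : f - rename ψ (brkRetr π f) ∈ Q' := by
  induction f using MvPolynomial.induction_on with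
  | C t => simp [brkRetr]
  | add f g hf hg =>
    have h3 : f + g - rename ψ (brkRetr π (f + g)) =
        (f - rename ψ (brkRetr π f)) + (g - rename ψ (brkRetr π g)) := by
      rw [map_add, map_add]; ring
    rw [h3]
    exact Q'.add_mem hf hg
  | mul_X f k hf =>
    have h3 : f * X k - rename ψ (brkRetr π (f * X k)) =
        (f - rename ψ (brkRetr π f)) * X k +
          rename ψ (brkRetr π f) * (X k - rename ψ (brkRetr π (X k))) := by
      rw [map_mul, map_mul]; ring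
    rw [h3]
    refine Q'.add_mem (Q'.mul_mem_right _ hf) (Q'.mul_mem_left _ ?_)
    rcases hk : π k with _ | i
    · have h4 : brkRetr π (X k : MvPolynomial σ' ℂ) = 0 := by
        rw [brkRetr, aeval_X, hk]; rfl
      rw [h4, map_zero, sub_zero]
      exact h2 k hk
    · have h4 : brkRetr π (X k : MvPolynomial σ' ℂ) = X i := by
        rw [brkRetr, aeval_X, hk]; rfl
      rw [h4, rename_X, h1 k i hk, sub_self]
      exact Q'.zero_mem

lemma brkRetr_mem {Q' : Ideal (MvPolynomial σ' ℂ)} {ψ : σ → σ'} {π : σ' → Option σ}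
    (h1 : ∀ k i, π k = some i → ψ i = k) (h2 : ∀ k, π k = none → X k ∈ Q')
    {f : MvPolynomial σ' ℂ} (hf : f ∈ Q') :
    brkRetr π f ∈ Q'.comap (rename (R := ℂ) ψ) := by
  rw [Ideal.mem_comap]
  have h3 := Q'.sub_mem hf (sub_brkRetr_mem h1 h2 f)
  rwa [sub_sub_cancel] at h3

lemma brkExt_mem {Q' : Ideal (MvPolynomial σ' ℂ)} {ψ : σ → σ'} {π : σ' → Option σ}
    (h1 : ∀ k i, π k = some i → ψ i = k) (h2 : ∀ k, π k = none → X k ∈ Q')
    {p : σ → ℂ} (hp : p ∈ VI (Q'.comap (rename (R := ℂ) ψ))) : brkExt π p ∈ VI Q' := by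
  intro f hf
  rw [← eval_brkRetr]
  exact hp _ (brkRetr_mem h1 h2 hf)

lemma brk_dim_comap {Q' : Ideal (MvPolynomial σ' ℂ)} {ψ : σ → σ'} {π : σ' → Option σ}
    (h1 : ∀ k i, π k = some i → ψ i = k) (h2 : ∀ k, π k = none → X k ∈ Q') :
    ringKrullDim (MvPolynomial σ' ℂ ⧸ Q') ≤
      ringKrullDim (MvPolynomial σ ℂ ⧸ Q'.comap (rename (R := ℂ) ψ)) := by
  refine ringKrullDim_le_of_surjective
    (Ideal.quotientMap Q' (rename (R := ℂ) ψ : MvPolynomial σ ℂ →+* MvPolynomial σ' ℂ) le_rfl) ?_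
  intro y
  obtain ⟨f, rfl⟩ := Ideal.Quotient.mk_surjective y
  refine ⟨Ideal.Quotient.mk _ (brkRetr π f), ?_⟩
  rw [Ideal.quotientMap_mk, Ideal.Quotient.eq]
  have := sub_brkRetr_mem h1 h2 f
  rw [← Ideal.neg_mem_iff, neg_sub] at this
  exact this

end Elim0

/-! ### Dimensions as natural numbers -/

lemma brk_le_pred_of_lt {a : WithBot ℕ∞} {n : ℕ} (hn : 0 < n) (h : a < (n : WithBot ℕ∞)) :
    a ≤ ((n - 1 : ℕ) : WithBot ℕ∞) := by
  induction a using WithBot.recBotCoe with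
  | bot => exact bot_le
  | coe a =>
    induction a using ENat.recTopCoe with
    | top =>
      exfalso
      have h1 : ((⊤ : ℕ∞) : WithBot ℕ∞) < ((n : ℕ∞) : WithBot ℕ∞) := h
      rw [WithBot.coe_lt_coe] at h1
      exact absurd h1 (not_lt.mpr le_top)
    | coe m =>
      have h1 : ((m : ℕ∞) : WithBot ℕ∞) < ((n : ℕ∞) : WithBot ℕ∞) := h
      rw [WithBot.coe_lt_coe, Nat.cast_lt] at h1
      have h2 : m ≤ n - 1 := by omega
      show ((m : ℕ∞) : WithBot ℕ∞) ≤ (((n - 1 : ℕ) : ℕ∞) : WithBot ℕ∞)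
      rw [WithBot.coe_le_coe, Nat.cast_le]
      exact h2

lemma brk_le_of_add_le_add {e k : ℕ} {b : WithBot ℕ∞}
    (h : ((e + k : ℕ) : WithBot ℕ∞) ≤ b + (k : WithBot ℕ∞)) : (e : WithBot ℕ∞) ≤ b := by
  induction b using WithBot.recBotCoe with
  | bot =>
    rw [WithBot.bot_add, le_bot_iff] at h
    exact absurd h (WithBot.coe_ne_bot (a := ((e + k : ℕ) : ℕ∞)))
  | coe b =>
    induction b using ENat.recTopCoe with
    | top =>
      show ((e : ℕ∞) : WithBot ℕ∞) ≤ ((⊤ : ℕ∞) : WithBot ℕ∞)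
      rw [WithBot.coe_le_coe]
      exact le_top
    | coe m =>
      have h1 : (((e + k : ℕ) : ℕ∞) : WithBot ℕ∞) ≤ (((m + k : ℕ) : ℕ∞) : WithBot ℕ∞) := by
        rw [Nat.cast_add m k]
        exact h
      rw [WithBot.coe_le_coe, Nat.cast_le] at h1
      show ((e : ℕ∞) : WithBot ℕ∞) ≤ ((m : ℕ∞) : WithBot ℕ∞)
      rw [WithBot.coe_le_coe, Nat.cast_le]
      omega

lemma brk_dim_nonneg {σ : Type*} {P : Ideal (MvPolynomial σ ℂ)} (hP : P.IsPrime) :
    (0 : WithBot ℕ∞) ≤ ringKrullDim (MvPolynomial σ ℂ ⧸ P) := by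
  haveI := Ideal.Quotient.nontrivial_iff.mpr hP.ne_top
  exact ringKrullDim_nonneg_of_nontrivial

lemma brk_exists_mem_VI {σ : Type*} [Fintype σ] {P : Ideal (MvPolynomial σ ℂ)} (hP : P.IsPrime) :
    ∃ q, q ∈ VI P := by
  classical
  by_contra hcon
  push Not at hcon
  apply hP.ne_top
  rw [Ideal.eq_top_iff_one]
  exact mem_of_eval_zero hP (fun z hz => absurd hz (hcon z))

/-! ### The degeneration -/

section Core

variable {ρ : Type} [Fintype ρ] [DecidableEq ρ] {I : Ideal (MvPolynomial ρ ℂ)} {c : ℕ}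

lemma curve_apply (x : ρ → ℂ) {j : ℕ} (q : Fin j × ρ → ℂ) (s t : ℂ) (b : ρ) :
    curve x q s t b =
      s ^ j * x b + ∑ i : Fin j, (s ^ (j - 1 - (i : ℕ)) * t ^ ((i : ℕ) + 1)) * q (i, b) := by
  rw [curve, Pi.add_apply, Pi.smul_apply, smul_eq_mul, Finset.sum_apply]
  rfl

/-- The index type of the degeneration. -/
abbrev Idx (ρ : Type) (j : ℕ) : Type := ((Fin (j + 1) × ρ) ⊕ ρ) ⊕ Unit

section Param

variable {j : ℕ} {A : Type} [CommRing A] [Algebra ℂ A]

/-- The parametrization. -/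
noncomputable def Th (m : Fin (j + 2) × ρ → A) :
    MvPolynomial (Idx ρ j) ℂ →ₐ[ℂ] Polynomial (Polynomial A) :=
  aeval (fun k : Idx ρ j => match k with
    | Sum.inl (Sum.inl ib) => (Polynomial.C Polynomial.X * Polynomial.X) ^ ((ib.1 : ℕ) + 1) *
      Polynomial.C (Polynomial.C (m (Fin.castSucc ib.1, ib.2)))
    | Sum.inl (Sum.inr b) => Polynomial.C Polynomial.X ^ (j + 1) * Polynomial.X ^ (j + 2) *
      Polynomial.C (Polynomial.C (m (Fin.last (j + 1), b)))
    | Sum.inr _ => Polynomial.C Polynomial.X)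

/-- Evaluation of the parameters. -/
noncomputable def ev2 (A : Type) [CommRing A] [Algebra ℂ A] (a b : ℂ) :
    Polynomial (Polynomial A) →+* A :=
  (Polynomial.evalRingHom (algebraMap ℂ A a)).comp
    (Polynomial.evalRingHom (Polynomial.C (algebraMap ℂ A b)))

lemma ev2_zero [IsDomain A] {g : Polynomial (Polynomial A)}
    (h : ∀ a b : ℂ, ev2 A a b g = 0) : g = 0 := by
  have hinj : Function.Injective (algebraMap ℂ A) := (algebraMap ℂ A).injective
  have h1 : ∀ b : ℂ, g.eval (Polynomial.C (algebraMap ℂ A b)) = 0 := by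
    intro b
    apply Polynomial.eq_zero_of_infinite_isRoot
    refine Set.Infinite.mono (s := Set.range (algebraMap ℂ A)) ?_
      (Set.infinite_range_of_injective hinj)
    rintro _ ⟨a, rfl⟩
    exact h a b
  apply Polynomial.eq_zero_of_infinite_isRoot
  refine Set.Infinite.mono (s := Set.range (fun b : ℂ => Polynomial.C (algebraMap ℂ A b))) ?_
    (Set.infinite_range_of_injective (Polynomial.C_injective.comp hinj))
  rintro _ ⟨b, rfl⟩
  exact h1 b

/-- The points of the degeneration. -/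
noncomputable def pt (q : Fin (j + 2) × ρ → ℂ) (a b : ℂ) : Idx ρ j → ℂ :=
  fun k => match k with
    | Sum.inl (Sum.inl ib) => (a * b) ^ ((ib.1 : ℕ) + 1) * q (Fin.castSucc ib.1, ib.2)
    | Sum.inl (Sum.inr r) => a ^ (j + 1) * b ^ (j + 2) * q (Fin.last (j + 1), r)
    | Sum.inr _ => a

lemma ev2_Th_C (m : Fin (j + 2) × ρ → A) (a b z : ℂ) :
    ev2 A a b (Th m (C z)) = algebraMap ℂ A z := by
  have h2 : Th m (C z) = algebraMap ℂ _ z := by
    rw [Th, ← MvPolynomial.algebraMap_eq, AlgHom.commutes]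
  have h3 : algebraMap ℂ (Polynomial (Polynomial A)) z =
      Polynomial.C (Polynomial.C (algebraMap ℂ A z)) := rfl
  rw [h2, h3]
  simp [ev2]

lemma ev2_Th_X (m : Fin (j + 2) × ρ → A) (a b : ℂ) (k : Idx ρ j) :
    ev2 A a b (Th m (X k)) = match k with
      | Sum.inl (Sum.inl ib) => algebraMap ℂ A ((a * b) ^ ((ib.1 : ℕ) + 1)) *
          m (Fin.castSucc ib.1, ib.2)
      | Sum.inl (Sum.inr r) => algebraMap ℂ A (a ^ (j + 1) * b ^ (j + 2)) *
          m (Fin.last (j + 1), r)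
      | Sum.inr _ => algebraMap ℂ A a := by
  rw [Th, aeval_X]
  rcases k with (⟨i, r⟩ | r) | u
  · simp [ev2]
    ring
  · simp [ev2]
    ring
  · simp [ev2]

lemma ev_ev2 {φ : A →+* ℂ} (hφ : ∀ z : ℂ, φ (algebraMap ℂ A z) = z)
    (m : Fin (j + 2) × ρ → A) (a b : ℂ) (f : MvPolynomial (Idx ρ j) ℂ) :
    φ (ev2 A a b (Th m f)) = eval (pt (fun k => φ (m k)) a b) f := by
  have h1 : (φ.comp ((ev2 A a b).comp ((Th m : MvPolynomial (Idx ρ j) ℂ →ₐ[ℂ] _) :
      MvPolynomial (Idx ρ j) ℂ →+* _))) = eval (pt (fun k => φ (m k)) a b) := by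
    apply MvPolynomial.ringHom_ext
    · intro z
      rw [eval_C]
      show φ (ev2 A a b (Th m (C z))) = z
      rw [ev2_Th_C, hφ]
    · intro k
      rw [eval_X]
      show φ (ev2 A a b (Th m (X k))) = _
      rw [ev2_Th_X]
      rcases k with (⟨i, r⟩ | r) | u
      · simp only [map_mul, hφ, pt]
      · simp only [map_mul, hφ, pt]
      · simp only [hφ, pt]
  exact RingHom.congr_fun h1 f

end Param

section Quot

variable {j : ℕ} (P : Ideal (MvPolynomial (Fin (j + 2) × ρ) ℂ))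

/-- The ideal of the degeneration. -/
noncomputable def KQ : Ideal (MvPolynomial (Idx ρ j) ℂ) :=
  RingHom.ker (Th (A := MvPolynomial (Fin (j + 2) × ρ) ℂ ⧸ P)
    (fun k => Ideal.Quotient.mk P (X k)))

lemma mem_KQ {f : MvPolynomial (Idx ρ j) ℂ} : f ∈ KQ P ↔
    Th (A := MvPolynomial (Fin (j + 2) × ρ) ℂ ⧸ P) (fun k => Ideal.Quotient.mk P (X k)) f = 0 :=
  Iff.rfl

lemma eval_KQ {q : Fin (j + 2) × ρ → ℂ} (hq : q ∈ VI P) (a b : ℂ)
    (f : MvPolynomial (Idx ρ j) ℂ) :
    Ideal.Quotient.lift P (eval q) (fun h hh => hq h hh)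
      (ev2 _ a b (Th (A := MvPolynomial (Fin (j + 2) × ρ) ℂ ⧸ P)
        (fun k => Ideal.Quotient.mk P (X k)) f)) = eval (pt q a b) f := by
  have h1 : (fun k => Ideal.Quotient.lift P (eval q) (fun h hh => hq h hh)
      (Ideal.Quotient.mk P (X k))) = q := by
    funext k
    rw [Ideal.Quotient.lift_mk, eval_X]
  rw [ev_ev2, h1]
  intro z
  show Ideal.Quotient.lift P (eval q) (fun h hh => hq h hh) (Ideal.Quotient.mk P (C z)) = z
  rw [Ideal.Quotient.lift_mk, eval_C]

lemma mem_KQ_of (hP : P.IsPrime) {f : MvPolynomial (Idx ρ j) ℂ}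
    (h : ∀ q ∈ VI P, ∀ a b : ℂ, eval (pt q a b) f = 0) : f ∈ KQ P := by
  haveI : IsDomain (MvPolynomial (Fin (j + 2) × ρ) ℂ ⧸ P) := Ideal.Quotient.isDomain P
  rw [mem_KQ]
  apply ev2_zero
  intro a b
  obtain ⟨F, hF⟩ := Ideal.Quotient.mk_surjective (ev2 _ a b
    (Th (A := MvPolynomial (Fin (j + 2) × ρ) ℂ ⧸ P) (fun k => Ideal.Quotient.mk P (X k)) f))
  rw [← hF, Ideal.Quotient.eq_zero_iff_mem]
  refine mem_of_eval_zero hP (fun q hq => ?_)
  have h1 := eval_KQ P hq a b f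
  rw [← hF, h q hq a b, Ideal.Quotient.lift_mk] at h1
  exact h1

lemma KQ_prime (hP : P.IsPrime) : (KQ P).IsPrime := by
  haveI : IsDomain (MvPolynomial (Fin (j + 2) × ρ) ℂ ⧸ P) := Ideal.Quotient.isDomain P
  exact RingHom.ker_isPrime _

lemma zero_mem_KQ (hP : P.IsPrime) : (0 : Idx ρ j → ℂ) ∈ VI (KQ P) := by
  intro f hf
  obtain ⟨q, hq⟩ := brk_exists_mem_VI hP
  have h1 := eval_KQ P hq 0 0 f
  rw [mem_KQ] at hf
  rw [hf, map_zero, map_zero] at h1
  have h3 : pt q 0 0 = (0 : Idx ρ j → ℂ) := by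
    funext k
    rcases k with (⟨i, r⟩ | r) | u
    · simp [pt]
    · simp [pt]
    · simp [pt]
  rw [h3] at h1
  exact h1.symm

lemma dim_KQ (hP : P.IsPrime) :
    ringKrullDim (MvPolynomial (Fin (j + 2) × ρ) ℂ ⧸ P) + 1 ≤
      ringKrullDim (MvPolynomial (Idx ρ j) ℂ ⧸ KQ P) := by
  haveI hD : IsDomain (MvPolynomial (Fin (j + 2) × ρ) ℂ ⧸ P) := Ideal.Quotient.isDomain P
  haveI := KQ_prime P hP
  haveI : IsDomain (MvPolynomial (Idx ρ j) ℂ ⧸ KQ P) := Ideal.Quotient.isDomain _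
  set T := Th (A := MvPolynomial (Fin (j + 2) × ρ) ℂ ⧸ P)
    (fun k => Ideal.Quotient.mk P (X k)) with hT
  set φ : MvPolynomial (Idx ρ j) ℂ →+* MvPolynomial (Fin (j + 2) × ρ) ℂ ⧸ P :=
    (ev2 _ 1 1).comp (T : MvPolynomial (Idx ρ j) ℂ →+* _) with hφ
  have hφa : ∀ f, φ f = ev2 _ 1 1 (T f) := fun f => rfl
  have hφsurj : Function.Surjective φ := by
    intro y
    obtain ⟨F, rfl⟩ := Ideal.Quotient.mk_surjective y
    induction F using MvPolynomial.induction_on with
    | C z => exact ⟨C z, by rw [hφa, hT, ev2_Th_C]; rfl⟩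
    | add F G hF hG =>
      obtain ⟨f, hf⟩ := hF
      obtain ⟨g, hg⟩ := hG
      exact ⟨f + g, by rw [map_add, map_add, hf, hg]⟩
    | mul_X F k hF =>
      obtain ⟨f, hf⟩ := hF
      obtain ⟨i, r⟩ := k
      refine Fin.lastCases ?_ (fun i => ?_) i
      · refine ⟨f * X (Sum.inl (Sum.inr r)), ?_⟩
        rw [map_mul, map_mul, hf]
        congr 1
        rw [hφa, hT, ev2_Th_X]
        simp
      · refine ⟨f * X (Sum.inl (Sum.inl (i, r))), ?_⟩
        rw [map_mul, map_mul, hf]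
        congr 1
        rw [hφa, hT, ev2_Th_X]
        simp
  set ψ : MvPolynomial (Idx ρ j) ℂ ⧸ KQ P →+* MvPolynomial (Fin (j + 2) × ρ) ℂ ⧸ P :=
    Ideal.Quotient.lift _ φ (by
      intro f hf
      rw [mem_KQ] at hf
      rw [hφa, hT, hf, map_zero]) with hψ
  have hψsurj : Function.Surjective ψ := by
    intro y
    obtain ⟨f, hf⟩ := hφsurj y
    exact ⟨Ideal.Quotient.mk _ f, by rw [hψ, Ideal.Quotient.lift_mk, hf]⟩
  refine ringKrullDim_succ_le_of_surjective ψ hψsurj
    (r := Ideal.Quotient.mk _ (X (Sum.inr ()) - 1)) ?_ ?_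
  · rw [mem_nonZeroDivisors_iff_ne_zero, Ne, Ideal.Quotient.eq_zero_iff_mem]
    intro h
    rw [mem_KQ, map_sub, map_one] at h
    have h2 := congrArg (fun g => ev2 _ 0 0 g) h
    simp only [map_sub, ev2_Th_X, map_zero, map_one] at h2
    simp at h2
  · rw [hψ, Ideal.Quotient.lift_mk, map_sub, map_one, hφa, hT, ev2_Th_X]
    simp

end Quot

section Limit

variable {j : ℕ} {P : Ideal (MvPolynomial (Fin (j + 2) × ρ) ℂ)} {x : ρ → ℂ}

lemma brk_eval_aeval_fun {σ : Type*} (B : ρ → MvPolynomial σ ℂ) (p : σ → ℂ)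
    (h : MvPolynomial ρ ℂ) : eval p (aeval B h) = eval (fun b => eval p (B b)) h := by
  have h1 : ((eval p).comp ((aeval B : MvPolynomial ρ ℂ →ₐ[ℂ] MvPolynomial σ ℂ) :
      MvPolynomial ρ ℂ →+* MvPolynomial σ ℂ)) = eval (fun b => eval p (B b)) := by
    apply MvPolynomial.ringHom_ext
    · intro t; simp
    · intro i; simp
  exact RingHom.congr_fun h1 h

/-- The curve after division by a power of the parameter. -/
noncomputable def Bp (x : ρ → ℂ) (s t : ℂ) (b : ρ) : MvPolynomial (Idx ρ j) ℂ :=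
  C (s ^ (j + 2) * x b) +
    ∑ i : Fin (j + 1), C (s ^ (j + 1 - (i : ℕ)) * t ^ ((i : ℕ) + 1)) * X (Sum.inl (Sum.inl (i, b))) +
    C (t ^ (j + 2)) * (X (Sum.inr ()) * X (Sum.inl (Sum.inr b)))

lemma eval_Bp_pt (q : Fin (j + 2) × ρ → ℂ) (a b' s t : ℂ) :
    (fun b => eval (pt q a b') (Bp (j := j) x s t b)) = curve x q s (a * b' * t) := by
  funext b
  rw [curve_apply, Fin.sum_univ_castSucc, Bp]
  simp only [map_add, map_mul, eval_C, eval_X, map_sum, pt, Fin.val_castSucc, Fin.val_last]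
  have h1 : j + 2 - 1 - (j + 1) = 0 := by omega
  rw [h1, pow_zero, one_mul, add_assoc]
  congr 1
  congr 1
  · refine Finset.sum_congr rfl (fun i _ => ?_)
    have h2 : j + 2 - 1 - (i : ℕ) = j + 1 - (i : ℕ) := by omega
    rw [h2]
    ring
  · ring

lemma eval_Bp_zero {p : Idx ρ j → ℂ} (hp : p (Sum.inr ()) = 0) (s t : ℂ) :
    (fun b => eval p (Bp x s t b)) = s • curve x (fun k => p (Sum.inl (Sum.inl k))) s t := by
  funext b
  rw [Pi.smul_apply, smul_eq_mul, curve_apply, Bp]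
  simp only [map_add, map_mul, eval_C, eval_X, map_sum, hp, zero_mul, mul_zero, add_zero]
  rw [mul_add, Finset.mul_sum]
  congr 1
  · ring
  · refine Finset.sum_congr rfl (fun i _ => ?_)
    have h2 : j + 1 - (i : ℕ) = j + 1 - 1 - (i : ℕ) + 1 := by
      have := i.2
      omega
    rw [h2]
    ring

/-- A curve contained in the variety for `s ≠ 0` is contained in it. -/
lemma curveIn_of_ne {k : ℕ} {q : Fin k × ρ → ℂ}
    (h : ∀ s t : ℂ, s ≠ 0 → curve x q s t ∈ VI I) : CurveIn I x q := by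
  intro s t f hf
  set g : Polynomial ℂ := aeval (fun b => Polynomial.C (x b) * Polynomial.X ^ k +
    ∑ i : Fin k, Polynomial.C (t ^ ((i : ℕ) + 1) * q (i, b)) *
      Polynomial.X ^ (k - 1 - (i : ℕ))) f with hg
  have hev : ∀ s : ℂ, g.eval s = eval (curve x q s t) f := by
    intro s
    have h1 : ((Polynomial.evalRingHom s).comp
        ((aeval (fun b => Polynomial.C (x b) * Polynomial.X ^ k +
          ∑ i : Fin k, Polynomial.C (t ^ ((i : ℕ) + 1) * q (i, b)) *
            Polynomial.X ^ (k - 1 - (i : ℕ))) : MvPolynomial ρ ℂ →ₐ[ℂ] Polynomial ℂ) :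
          MvPolynomial ρ ℂ →+* Polynomial ℂ)) = eval (curve x q s t) := by
      apply MvPolynomial.ringHom_ext
      · intro z; simp
      · intro b
        rw [eval_X, curve_apply]
        simp only [RingHom.coe_comp, RingHom.coe_coe, Function.comp_apply, aeval_X,
          Polynomial.coe_evalRingHom, Polynomial.eval_add, Polynomial.eval_mul,
          Polynomial.eval_C, Polynomial.eval_pow, Polynomial.eval_X, Polynomial.eval_finset_sum]
        congr 1
        · ring
        · refine Finset.sum_congr rfl (fun i _ => ?_)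
          ring
    exact RingHom.congr_fun h1 f
  have hz : g = 0 := by
    apply Polynomial.eq_zero_of_infinite_isRoot
    refine Set.Infinite.mono (s := {s : ℂ | s ≠ 0}) (fun s hs => ?_)
      (Set.finite_singleton (0 : ℂ)).infinite_compl
    show g.eval s = 0
    rw [hev]
    exact h s t hs f hf
  rw [← hev, hz, Polynomial.eval_zero]

lemma limit_a (hhom : HI I) (hP : P.IsPrime) (hPc : ∀ q ∈ VI P, CurveIn I x q)
    {p : Idx ρ j → ℂ} (hp : p ∈ VI (KQ P)) (hp0 : p (Sum.inr ()) = 0) :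
    CurveIn I x (fun k => p (Sum.inl (Sum.inl k))) := by
  apply curveIn_of_ne
  intro s t hs
  have h1 : s • curve x (fun k => p (Sum.inl (Sum.inl k))) s t ∈ VI I := by
    intro h hh
    rw [← eval_Bp_zero hp0, ← brk_eval_aeval_fun]
    apply hp
    apply mem_KQ_of P hP
    intro q hq a b'
    rw [brk_eval_aeval_fun, eval_Bp_pt]
    exact hPc q hq _ _ h hh
  have h2 := VI_smul hhom h1 s⁻¹
  rwa [smul_smul, inv_mul_cancel₀ hs, one_smul] at h2

/-- The end of the curve after division by the parameter. -/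
noncomputable def Gp (x : ρ → ℂ) (s : ℂ) (b : ρ) : MvPolynomial (Idx ρ j) ℂ :=
  C (s ^ (j + 2) * x b) * X (Sum.inr ()) ^ (j + 1) +
    ∑ i : Fin (j + 1), C (s ^ (j + 1 - (i : ℕ))) *
      (X (Sum.inr ()) ^ (j - (i : ℕ)) * X (Sum.inl (Sum.inl (i, b)))) +
    X (Sum.inl (Sum.inr b))

lemma eval_Gp_pt (q : Fin (j + 2) × ρ → ℂ) (a b' s : ℂ) :
    a • (fun b => eval (pt q a b') (Gp (j := j) x s b)) = curve x q (a * s) (a * b') := by
  funext b
  rw [Pi.smul_apply, smul_eq_mul, curve_apply, Fin.sum_univ_castSucc, Gp]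
  simp only [map_add, map_mul, eval_C, eval_X, map_sum, map_pow, pt, Fin.val_castSucc,
    Fin.val_last]
  have h1 : j + 2 - 1 - (j + 1) = 0 := by omega
  rw [h1, pow_zero, one_mul, mul_add, mul_add, Finset.mul_sum, add_assoc]
  congr 1
  · ring
  · congr 1
    · refine Finset.sum_congr rfl (fun i _ => ?_)
      have h2 : j + 2 - 1 - (i : ℕ) = j - (i : ℕ) + 1 := by
        have := i.2
        omega
      have h3 : j + 1 - (i : ℕ) = j - (i : ℕ) + 1 := by
        have := i.2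
        omega
      rw [h2, h3]
      ring
    · ring

lemma eval_Gp_zero {p : Idx ρ j → ℂ} (hp : p (Sum.inr ()) = 0) (s : ℂ) :
    (fun b => eval p (Gp x s b)) =
      (fun b => p (Sum.inl (Sum.inr b))) + s • fun b => p (Sum.inl (Sum.inl (Fin.last j, b))) := by
  funext b
  rw [Pi.add_apply, Pi.smul_apply, smul_eq_mul, Gp]
  simp only [map_add, map_mul, eval_C, eval_X, map_sum, map_pow, hp]
  rw [Fin.sum_univ_castSucc, Finset.sum_eq_zero]
  · simp only [Fin.val_last, Nat.sub_self, pow_zero, one_mul]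
    have h3 : j + 1 - j = 1 := by omega
    rw [h3, pow_one, zero_pow (Nat.succ_ne_zero j), mul_zero]
    ring
  · intro i _
    have h2 : j - ((Fin.castSucc i : Fin (j + 1)) : ℕ) ≠ 0 := by
      have := i.2
      rw [Fin.val_castSucc]
      omega
    rw [zero_pow h2, zero_mul, mul_zero]

lemma limit_b (hhom : HI I) (hx : x ∈ VI I) (hP : P.IsPrime)
    (hPc : ∀ q ∈ VI P, CurveIn I x q)
    {p : Idx ρ j → ℂ} (hp : p ∈ VI (KQ P)) (hp0 : p (Sum.inr ()) = 0) (s t : ℂ) :
    s • (fun b => p (Sum.inl (Sum.inl (Fin.last j, b)))) +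
      t • (fun b => p (Sum.inl (Sum.inr b))) ∈ VI I := by
  have h1 : ∀ s : ℂ, (fun b => p (Sum.inl (Sum.inr b))) +
      s • (fun b => p (Sum.inl (Sum.inl (Fin.last j, b)))) ∈ VI I := by
    intro s h hh
    rw [← eval_Gp_zero (x := x) hp0, ← brk_eval_aeval_fun]
    apply hp
    apply mem_KQ_of P hP
    intro q hq a b'
    rw [brk_eval_aeval_fun]
    by_cases ha : a = 0
    · have h2 : (fun b => eval (pt q a b') (Gp (j := j) x s b)) = (0 : ρ → ℂ) := by
        have hpa : pt q a b' (Sum.inr ()) = (0 : ℂ) := ha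
        rw [eval_Gp_zero hpa]
        funext b
        simp [pt, ha]
      rw [h2]
      have h3 := VI_smul hhom hx 0
      rw [zero_smul] at h3
      exact h3 h hh
    · have h2 := VI_smul hhom (hPc q hq (a * s) (a * b')) a⁻¹
      rw [← eval_Gp_pt, smul_smul, inv_mul_cancel₀ ha, one_smul] at h2
      exact h2 h hh
  have h2 := VI_plane hhom h1 t s
  rwa [add_comm] at h2

/-- Forget the parameter. -/
def pi0 (ρ : Type) (j : ℕ) : Idx ρ j → Option ((Fin (j + 1) × ρ) ⊕ ρ) :=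
  Sum.elim some (fun _ => none)

lemma pi0_some (k : Idx ρ j) (i : (Fin (j + 1) × ρ) ⊕ ρ) (h : pi0 ρ j k = some i) :
    (Sum.inl i : Idx ρ j) = k := by
  rcases k with k | k
  · have h1 : some k = some i := h
    rw [Option.some.inj h1]
  · have h1 : (none : Option ((Fin (j + 1) × ρ) ⊕ ρ)) = some i := h
    simp at h1

lemma pi0_none (k : Idx ρ j) (h : pi0 ρ j k = none) : k = Sum.inr () := by
  rcases k with k | k
  · have h1 : some k = none := h
    simp at h1
  · rfl

/-- **The degeneration of a family of curves.** -/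
theorem degenerate (hhom : HI I) (hx : x ∈ VI I) (hP : P.IsPrime)
    (hPc : ∀ q ∈ VI P, CurveIn I x q) {e : ℕ}
    (he : (e : WithBot ℕ∞) ≤ ringKrullDim (MvPolynomial (Fin (j + 2) × ρ) ℂ ⧸ P)) :
    ∃ Q : Ideal (MvPolynomial ((Fin (j + 1) × ρ) ⊕ ρ) ℂ), Q.IsPrime ∧
      (∀ p ∈ VI Q, CurveIn I x (fun k => p (Sum.inl k)) ∧
        ∀ s t : ℂ, s • (fun b => p (Sum.inl (Fin.last j, b))) +
          t • (fun b => p (Sum.inr b)) ∈ VI I) ∧
      (e : WithBot ℕ∞) ≤ ringKrullDim (MvPolynomial ((Fin (j + 1) × ρ) ⊕ ρ) ℂ ⧸ Q) := by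
  obtain ⟨Q₁, hQ₁, hKQ, hτ, -, hdim⟩ := exists_prime_over (KQ_prime P hP) (zero_mem_KQ P hP)
    (fun _ : Unit => (X (Sum.inr ()) : MvPolynomial (Idx ρ j) ℂ)) (fun _ => by
      rw [eval_X]; rfl)
  have h2 : ∀ k : Idx ρ j, pi0 ρ j k = none → X k ∈ Q₁ := by
    intro k hk
    rw [pi0_none k hk]
    exact hτ ()
  refine ⟨Q₁.comap (rename (R := ℂ) Sum.inl), Ideal.comap_isPrime _ _, ?_, ?_⟩
  · intro p hp
    have h3 : brkExt (pi0 ρ j) p ∈ VI Q₁ := brkExt_mem pi0_some h2 hp
    have h4 : brkExt (pi0 ρ j) p ∈ VI (KQ P) := fun f hf => h3 f (hKQ hf)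
    have h5 : brkExt (pi0 ρ j) p (Sum.inr ()) = 0 := rfl
    have h6 := limit_a hhom hP hPc h4 h5
    have h7 := limit_b hhom hx hP hPc h4 h5
    exact ⟨h6, h7⟩
  · have h3 : ringKrullDim (MvPolynomial (Idx ρ j) ℂ ⧸ Q₁) ≤ _ := brk_dim_comap pi0_some h2
    refine le_trans ?_ h3
    have h5 := dim_KQ P hP
    rw [Fintype.card_unit] at hdim
    have h6 : ((e + 1 : ℕ) : WithBot ℕ∞) ≤
        ringKrullDim (MvPolynomial (Idx ρ j) ℂ ⧸ Q₁) + ((1 : ℕ) : WithBot ℕ∞) := by
      refine le_trans ?_ hdim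
      refine le_trans ?_ h5
      rw [Nat.cast_add, Nat.cast_one]
      exact add_le_add_left he 1
    exact brk_le_of_add_le_add h6

end Limit

section Final

variable {x : ρ → ℂ} {j : ℕ}

/-- Extension of a family by the last coefficient zero. -/
lemma curve_snoc_zero {q : Fin (j + 1) × ρ → ℂ} (hq : ∀ b, q (Fin.last j, b) = 0) (s t : ℂ) :
    curve x q s t = s • curve x (fun k : Fin j × ρ => q (Fin.castSucc k.1, k.2)) s t := by
  funext b
  rw [Pi.smul_apply, smul_eq_mul, curve_apply, curve_apply, Fin.sum_univ_castSucc, hq, mul_zero,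
    add_zero, mul_add, Finset.mul_sum]
  congr 1
  · ring
  · refine Finset.sum_congr rfl (fun i _ => ?_)
    have h2 : j + 1 - 1 - ((Fin.castSucc i : Fin (j + 1)) : ℕ) = j - 1 - (i : ℕ) + 1 := by
      have := i.2
      rw [Fin.val_castSucc]
      omega
    rw [h2, Fin.val_castSucc]
    ring

/-- The polynomial of values on the curves. -/
noncomputable def Cp (x : ρ → ℂ) (s t : ℂ) (b : ρ) : MvPolynomial (Fin j × ρ) ℂ :=
  C (s ^ j * x b) + ∑ i : Fin j, C (s ^ (j - 1 - (i : ℕ)) * t ^ ((i : ℕ) + 1)) * X (i, b)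

lemma eval_Cp (q : Fin j × ρ → ℂ) (s t : ℂ) :
    (fun b => eval q (Cp x s t b)) = curve x q s t := by
  funext b
  rw [curve_apply, Cp]
  simp

/-- The condition to be in the variety passes to the contraction. -/
lemma curveIn_comap {τ : Type} [Fintype τ] [DecidableEq τ]
    {Q : Ideal (MvPolynomial ((Fin j × ρ) ⊕ τ) ℂ)} (hQ : Q.IsPrime)
    (h : ∀ p ∈ VI Q, CurveIn I x (fun k => p (Sum.inl k)))
    {q : Fin j × ρ → ℂ} (hq : q ∈ VI (Q.comap (rename (R := ℂ) Sum.inl))) : CurveIn I x q := by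
  intro s t f hf
  rw [← eval_Cp, ← brk_eval_aeval_fun]
  apply hq
  rw [Ideal.mem_comap]
  refine mem_of_eval_zero hQ (fun p hp => ?_)
  rw [eval_rename, brk_eval_aeval_fun, eval_Cp]
  exact h p hp s t f hf

/-- Reindexing: forget the last coefficient. -/
def pi1 (ρ : Type) (j : ℕ) : (Fin (j + 1) × ρ) ⊕ ρ → Option ((Fin j × ρ) ⊕ ρ) :=
  Sum.elim (fun k => if h : (k.1 : ℕ) < j then some (Sum.inl (⟨k.1, h⟩, k.2)) else none)
    (fun b => some (Sum.inr b))

/-- The inclusion of the indices. -/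
def psi1 (ρ : Type) (j : ℕ) : (Fin j × ρ) ⊕ ρ → (Fin (j + 1) × ρ) ⊕ ρ :=
  Sum.map (fun k => (Fin.castSucc k.1, k.2)) id

lemma pi1_some (k : (Fin (j + 1) × ρ) ⊕ ρ) (i : (Fin j × ρ) ⊕ ρ) (h : pi1 ρ j k = some i) :
    psi1 ρ j i = k := by
  rcases k with ⟨k, b⟩ | b
  · by_cases hk : (k : ℕ) < j
    · have h1 : (if h : (k : ℕ) < j then some (Sum.inl (⟨k, h⟩, b)) else none :
          Option ((Fin j × ρ) ⊕ ρ)) = some i := h
      rw [dif_pos hk] at h1
      rw [← Option.some.inj h1]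
      rfl
    · have h1 : (if h : (k : ℕ) < j then some (Sum.inl (⟨k, h⟩, b)) else none :
          Option ((Fin j × ρ) ⊕ ρ)) = some i := h
      rw [dif_neg hk] at h1
      simp at h1
  · have h1 : some (Sum.inr b) = some i := h
    rw [← Option.some.inj h1]
    rfl

lemma pi1_none (k : (Fin (j + 1) × ρ) ⊕ ρ) (h : pi1 ρ j k = none) :
    ∃ b, k = Sum.inl (Fin.last j, b) := by
  rcases k with ⟨k, b⟩ | b
  · by_cases hk : (k : ℕ) < j
    · have h1 : (if h : (k : ℕ) < j then some (Sum.inl (⟨k, h⟩, b)) else none :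
          Option ((Fin j × ρ) ⊕ ρ)) = none := h
      rw [dif_pos hk] at h1
      simp at h1
    · refine ⟨b, ?_⟩
      congr 2
      apply Fin.ext
      rw [Fin.val_last]
      have := k.2
      omega
  · have h1 : some (Sum.inr b : (Fin j × ρ) ⊕ ρ) = none := h
    simp at h1

lemma brkExt_pi1_castSucc (p : (Fin j × ρ) ⊕ ρ → ℂ) (i : Fin j) (b : ρ) :
    brkExt (pi1 ρ j) p (Sum.inl (Fin.castSucc i, b)) = p (Sum.inl (i, b)) := by
  show (if h : ((Fin.castSucc i : Fin (j + 1)) : ℕ) < j then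
    some (Sum.inl (⟨(Fin.castSucc i : Fin (j + 1)), h⟩, b)) else none :
      Option ((Fin j × ρ) ⊕ ρ)).elim 0 p = _
  rw [dif_pos (show ((Fin.castSucc i : Fin (j + 1)) : ℕ) < j from i.2)]
  rfl

lemma brkExt_pi1_last (p : (Fin j × ρ) ⊕ ρ → ℂ) (b : ρ) :
    brkExt (pi1 ρ j) p (Sum.inl (Fin.last j, b)) = 0 := by
  show (if h : ((Fin.last j : Fin (j + 1)) : ℕ) < j then
    some (Sum.inl (⟨(Fin.last j : Fin (j + 1)), h⟩, b)) else none :
      Option ((Fin j × ρ) ⊕ ρ)).elim 0 p = _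
  rw [dif_neg (by rw [Fin.val_last]; exact lt_irrefl j)]
  rfl

lemma brk_arith_dim {e d g : ℕ} {a b : WithBot ℕ∞} (hd : d + 1 + g ≤ e)
    (h1 : (e : WithBot ℕ∞) ≤ a) (h2 : a ≤ b + (d : WithBot ℕ∞)) (h3 : b ≤ (g : WithBot ℕ∞)) :
    False := by
  have h4 : (e : WithBot ℕ∞) ≤ ((g + d : ℕ) : WithBot ℕ∞) := by
    rw [Nat.cast_add]
    exact le_trans h1 (le_trans h2 (add_le_add_left h3 _))
  have h5 : e ≤ g + d := by exact_mod_cast h4
  omega

/-- **Breaking off a line.** -/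
theorem NX.break (hX : NX I c) (hc : 4 * c ≤ Fintype.card ρ + 1) {x : ρ → ℂ} (hx0 : x ≠ 0)
    (hx : x ∈ VI I) {j e : ℕ} (h : Dge I x (j + 2) e) :
    Dge I x (j + 1) (e - (Fintype.card ρ - 2 * c)) ∨ Dge I x j (e - (Fintype.card ρ - c)) := by
  classical
  obtain ⟨P, hP, hPc, he⟩ := h
  obtain ⟨Q, hQ, hQc, hQe⟩ := degenerate hX.hhom hx hP hPc he
  by_cases hcase : ∃ p ∈ VI Q, (fun b => p (Sum.inl (Fin.last j, b))) ≠ 0
  · left
    obtain ⟨p, hp, hp0⟩ := hcase
    refine ⟨Q.comap (rename (R := ℂ) Sum.inl), Ideal.comap_isPrime _ _,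
      fun q hq => curveIn_comap hQ (fun p hp => (hQc p hp).1) hq, ?_⟩
    by_contra hlt
    rw [not_le] at hlt
    have hpos : 0 < e - (Fintype.card ρ - 2 * c) := by
      rcases Nat.eq_zero_or_pos (e - (Fintype.card ρ - 2 * c)) with h0 | h0
      · rw [h0] at hlt
        exact absurd (brk_dim_nonneg (Ideal.comap_isPrime
          (rename (R := ℂ) (Sum.inl : Fin (j + 1) × ρ → (Fin (j + 1) × ρ) ⊕ ρ)) Q))
          (not_le.mpr (by simpa using hlt))
      · exact h0
    have hle := brk_le_pred_of_lt hpos hlt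
    have hp' : Sum.elim (fun k => p (Sum.inl k)) (fun b => p (Sum.inr b)) ∈ VI Q := by
      have h1 : Sum.elim (fun k => p (Sum.inl k)) (fun b => p (Sum.inr b)) = p := by
        funext k
        rcases k with k | k <;> rfl
      rw [h1]
      exact hp
    obtain ⟨Q₂, hQ₂, -, hQ₂p, hQ₂d⟩ := exists_fiber hQ hp' hle
    have hy : (fun b => p (Sum.inl (Fin.last j, b))) ∈ VI I := by
      have h1 := (hQc p hp).2 1 0
      rwa [one_smul, zero_smul, add_zero] at h1
    have hkap := hX.kappa hc hp0 hy hQ₂ (fun w hw s t => (hQc _ (hQ₂p w hw)).2 s t)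
    exact brk_arith_dim (by omega) hQe hQ₂d hkap
  · right
    push Not at hcase
    have hXQ : ∀ k, pi1 ρ j k = none → X k ∈ Q := by
      intro k hk
      obtain ⟨b, rfl⟩ := pi1_none k hk
      refine mem_of_eval_zero hQ (fun p hp => ?_)
      rw [eval_X]
      exact congrFun (hcase p hp) b
    have hQ' : (Q.comap (rename (R := ℂ) (psi1 ρ j))).IsPrime := Ideal.comap_isPrime _ _
    have hd' := brk_dim_comap pi1_some hXQ
    have hQ'c : ∀ p ∈ VI (Q.comap (rename (R := ℂ) (psi1 ρ j))),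
        CurveIn I x (fun k => p (Sum.inl k)) ∧ (fun b => p (Sum.inr b)) ∈ VI I := by
      intro p hp
      have h1 := hQc _ (brkExt_mem pi1_some hXQ hp)
      constructor
      · apply curveIn_of_ne
        intro s t hs
        have h2 := h1.1 s t
        rw [curve_snoc_zero (fun b => brkExt_pi1_last p b)] at h2
        have h3 := VI_smul hX.hhom h2 s⁻¹
        rw [smul_smul, inv_mul_cancel₀ hs, one_smul] at h3
        have h4 : (fun k : Fin j × ρ => brkExt (pi1 ρ j) p (Sum.inl (Fin.castSucc k.1, k.2))) =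
            fun k => p (Sum.inl k) := by
          funext k
          exact brkExt_pi1_castSucc p k.1 k.2
        rwa [h4] at h3
      · have h2 := h1.2 0 1
        rw [zero_smul, zero_add, one_smul] at h2
        exact h2
    refine ⟨(Q.comap (rename (R := ℂ) (psi1 ρ j))).comap (rename (R := ℂ) Sum.inl),
      Ideal.comap_isPrime _ _, fun q hq => curveIn_comap hQ' (fun p hp => (hQ'c p hp).1) hq, ?_⟩
    by_contra hlt
    rw [not_le] at hlt
    have hpos : 0 < e - (Fintype.card ρ - c) := by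
      rcases Nat.eq_zero_or_pos (e - (Fintype.card ρ - c)) with h0 | h0
      · rw [h0] at hlt
        exact absurd (brk_dim_nonneg (Ideal.comap_isPrime
          (rename (R := ℂ) (Sum.inl : Fin j × ρ → (Fin j × ρ) ⊕ ρ))
            (Q.comap (rename (R := ℂ) (psi1 ρ j)))))
          (not_le.mpr (by simpa using hlt))
      · exact h0
    have hle := brk_le_pred_of_lt hpos hlt
    obtain ⟨p, hp⟩ := brk_exists_mem_VI hQ'
    have hp' : Sum.elim (fun k => p (Sum.inl k)) (fun b => p (Sum.inr b)) ∈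
        VI (Q.comap (rename (R := ℂ) (psi1 ρ j))) := by
      have h1 : Sum.elim (fun k => p (Sum.inl k)) (fun b => p (Sum.inr b)) = p := by
        funext k
        rcases k with k | k <;> rfl
      rw [h1]
      exact hp
    obtain ⟨Q₂, hQ₂, -, hQ₂p, hQ₂d⟩ := exists_fiber hQ' hp' hle
    -- the dimension of the variety
    have hIQ : I ≤ Q₂ := by
      intro f hf
      refine mem_of_eval_zero hQ₂ (fun w hw => ?_)
      exact (hQ'c _ (hQ₂p w hw)).2 f hf
    obtain ⟨F, hF, hli⟩ := hX.hsm x hx0 hx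
    have hdI := (point_case I hX.hI x hx c F hF hli).1
    have hdQ : ringKrullDim (MvPolynomial ρ ℂ ⧸ Q₂) ≤
        ((Fintype.card ρ - c : ℕ) : WithBot ℕ∞) := by
      have h1 : ringKrullDim (MvPolynomial ρ ℂ ⧸ Q₂) ≤ ringKrullDim (MvPolynomial ρ ℂ ⧸ I) :=
        ringKrullDim_le_of_surjective (Ideal.Quotient.factor hIQ)
          (Ideal.Quotient.factor_surjective hIQ)
      refine le_trans h1 ?_
      generalize ringKrullDim (MvPolynomial ρ ℂ ⧸ I) = a at hdI
      have hcc : c ≤ Fintype.card ρ := by omega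
      induction a using WithBot.recBotCoe with
      | bot => exact bot_le
      | coe a =>
        induction a using ENat.recTopCoe with
        | top =>
          exfalso
          have h2 : (((⊤ : ℕ∞) + (c : ℕ∞) : ℕ∞) : WithBot ℕ∞) ≤
            (((Fintype.card ρ : ℕ) : ℕ∞) : WithBot ℕ∞) := hdI
          rw [WithBot.coe_le_coe, top_add, top_le_iff] at h2
          exact ENat.coe_ne_top _ h2
        | coe m =>
          have h2 : (((m + c : ℕ) : ℕ∞) : WithBot ℕ∞) ≤
              (((Fintype.card ρ : ℕ) : ℕ∞) : WithBot ℕ∞) := by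
            rw [Nat.cast_add m c]
            exact hdI
          rw [WithBot.coe_le_coe, Nat.cast_le] at h2
          show ((m : ℕ∞) : WithBot ℕ∞) ≤ (((Fintype.card ρ - c : ℕ) : ℕ∞) : WithBot ℕ∞)
          rw [WithBot.coe_le_coe, Nat.cast_le]
          omega
    exact brk_arith_dim (by omega) (le_trans hQe hd') hQ₂d hdQ

lemma Dge.mono {j e e' : ℕ} (h : Dge I x j e) (he : e' ≤ e) : Dge I x j e' := by
  obtain ⟨P, hP, hPc, hd⟩ := h
  exact ⟨P, hP, hPc, le_trans (by exact_mod_cast he) hd⟩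

lemma not_Dge_zero {e : ℕ} (he : 0 < e) : ¬ Dge I x 0 e := by
  rintro ⟨P, hP, -, hd⟩
  haveI : IsEmpty (Fin 0 × ρ) := ⟨fun k => k.1.elim0⟩
  have h1 : ringKrullDim (MvPolynomial (Fin 0 × ρ) ℂ ⧸ P) ≤
      ringKrullDim (MvPolynomial (Fin 0 × ρ) ℂ) :=
    ringKrullDim_le_of_surjective (Ideal.Quotient.mk P) Ideal.Quotient.mk_surjective
  rw [ringKrullDim_mvPolynomial_of_isEmpty, ringKrullDim_eq_zero_of_field] at h1
  have h2 := le_trans hd h1
  have h3 : e ≤ 0 := by exact_mod_cast h2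
  omega

/-- Many curves give many lines. -/
theorem NX.lines_of_curves (hX : NX I c) (hc : 4 * c ≤ Fintype.card ρ + 1)
    (hc' : 3 * c < Fintype.card ρ) {x : ρ → ℂ} (hx0 : x ≠ 0) (hx : x ∈ VI I) {k : ℕ}
    (hk : 0 < k) (h : Dge I x k (k * (Fintype.card ρ - 2 * c))) :
    Dge I x 1 (Fintype.card ρ - 2 * c) := by
  obtain ⟨g, hg⟩ : ∃ g, g = Fintype.card ρ - 2 * c := ⟨_, rfl⟩
  rw [← hg] at h ⊢
  induction k using Nat.strong_induction_on with
  | _ k ih =>
    rcases k with _ | _ | j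
    · omega
    · rwa [zero_add, one_mul] at h
    · rcases hX.break hc hx0 hx h with h1 | h1
      · refine ih (j + 1) (by omega) (by omega) (h1.mono ?_)
        rw [← hg]
        have : (j + 1 + 1) * g = (j + 1) * g + g := by ring
        omega
      · have h2 : j * g + 1 ≤ (j + 1 + 1) * g - (Fintype.card ρ - c) := by
          have : (j + 1 + 1) * g = j * g + 2 * g := by ring
          omega
        have h3 := h1.mono h2
        rcases Nat.eq_zero_or_pos j with rfl | hj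
        · exact absurd h3 (not_Dge_zero (by omega))
        · exact ih j (by omega) hj (h3.mono (Nat.le_succ _))

end Final

end Core

end Pool.Agent.HartA
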