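import Mathlib
import Pool.Agent.HartA.OneParam

/-!
Jordan decomposition of a tangent matrix: a nilpotent tangent matrix, or integral weights.
-/

namespace Pool.Agent.HartA

open Pool.Agent.Hartshorne MvPolynomial

set_option linter.unusedSectionVars false

section A9

variable {ρ : Type} [Fintype ρ] [DecidableEq ρ] {I : Ideal (MvPolynomial ρ ℂ)}

/-- The derivation attached to a linear map. -/
noncomputable def derJ (T : (ρ → ℂ) →ₗ[ℂ] (ρ → ℂ)) :
    Derivation ℂ (MvPolynomial ρ ℂ) (MvPolynomial ρ ℂ) :=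
  mkDerivation ℂ (fun i => lsub T (X i))

lemma derJ_X (T : (ρ → ℂ) →ₗ[ℂ] (ρ → ℂ)) (i : ρ) : derJ T (X i) = lsub T (X i) :=
  mkDerivation_X _ _ _

lemma derJ_C (T : (ρ → ℂ) →ₗ[ℂ] (ρ → ℂ)) (a : ℂ) : derJ T (C a) = 0 :=
  (derJ T).map_algebraMap a

lemma lsub_comp_J (T T' : (ρ → ℂ) →ₗ[ℂ] (ρ → ℂ)) (f : MvPolynomial ρ ℂ) :
    lsub T (lsub T' f) = lsub (T' ∘ₗ T) f := by
  apply MvPolynomial.funext
  intro w
  rw [eval_lsub, eval_lsub, eval_lsub]
  rfl

lemma derJ_lsub_X (T T' : (ρ → ℂ) →ₗ[ℂ] (ρ → ℂ)) (i : ρ) :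
    derJ T (lsub T' (X i)) = lsub T (lsub T' (X i)) := by
  rw [lsub_X, map_sum, map_sum]
  refine Finset.sum_congr rfl (fun j _ => ?_)
  rw [C_mul', Derivation.map_smul, map_smul, derJ_X]

lemma DM_eq_derJ (M : Matrix ρ ρ ℂ) (F : MvPolynomial ρ ℂ) :
    DM M F = derJ (Matrix.toLin' M) F := by
  have h1 : ∀ i, (∑ j, C (M i j) * X j : MvPolynomial ρ ℂ) =
      lsub (Matrix.toLin' M) (X i) := by
    intro i
    rw [lsub_X]
    refine Finset.sum_congr rfl (fun j _ => ?_)
    rw [Matrix.toLin'_apply, Matrix.mulVec_single_one]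
    rfl
  have h2 : derJ (Matrix.toLin' M) =
      ∑ i, lsub (Matrix.toLin' M) (X i : MvPolynomial ρ ℂ) • pderiv i := by
    apply derivation_ext
    intro k
    rw [derJ_X]
    have h3 : (∑ i, lsub (Matrix.toLin' M) (X i : MvPolynomial ρ ℂ) • pderiv (R := ℂ) i) (X k) =
        ∑ i, lsub (Matrix.toLin' M) (X i : MvPolynomial ρ ℂ) * pderiv i (X k) := by
      rw [← Derivation.coeFnAddMonoidHom_apply, map_sum, Finset.sum_apply]
      rfl
    rw [h3, Finset.sum_eq_single k]
    · rw [pderiv_X_self, mul_one]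
    · intro i _ hi
      rw [pderiv_X_of_ne (Ne.symm hi), mul_zero]
    · intro h; exact absurd (Finset.mem_univ _) h
  rw [h2, DM, ← Derivation.coeFnAddMonoidHom_apply, map_sum, Finset.sum_apply]
  refine Finset.sum_congr rfl (fun i _ => ?_)
  rw [h1]
  rfl

lemma derJ_conj (Φ T T' : (ρ → ℂ) →ₗ[ℂ] (ρ → ℂ)) (h : Φ ∘ₗ T' = T ∘ₗ Φ)
    (f : MvPolynomial ρ ℂ) : derJ T' (lsub Φ f) = lsub Φ (derJ T f) := by
  induction f using MvPolynomial.induction_on with
  | C a =>
    rw [derJ_C, map_zero, ← algebraMap_eq, AlgHom.commutes, algebraMap_eq, derJ_C]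
  | add p q hp hq => rw [map_add, map_add, hp, hq, map_add, map_add]
  | mul_X p i hp =>
    rw [map_mul, Derivation.leibniz, Derivation.leibniz, hp, derJ_lsub_X, derJ_X, lsub_comp_J,
      h, ← lsub_comp_J]
    simp only [smul_eq_mul, map_add, map_mul]

lemma derJ_add (T T' : (ρ → ℂ) →ₗ[ℂ] (ρ → ℂ)) (f : MvPolynomial ρ ℂ) :
    derJ (T + T') f = derJ T f + derJ T' f := by
  have h1 : derJ (T + T') = derJ T + derJ T' := by
    apply derivation_ext
    intro i
    rw [Derivation.add_apply, derJ_X, derJ_X, derJ_X]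
    apply MvPolynomial.funext
    intro w
    rw [map_add, eval_lsub, eval_lsub, eval_lsub, eval_X, eval_X, eval_X]
    rfl
  rw [h1, Derivation.add_apply]

lemma derJ_comm {T T' : (ρ → ℂ) →ₗ[ℂ] (ρ → ℂ)} (h : T ∘ₗ T' = T' ∘ₗ T)
    (f : MvPolynomial ρ ℂ) : derJ T (derJ T' f) = derJ T' (derJ T f) := by
  have h1 : ⁅derJ T, derJ T'⁆ = (0 : Derivation ℂ (MvPolynomial ρ ℂ) (MvPolynomial ρ ℂ)) := by
    apply derivation_ext
    intro i
    rw [Derivation.commutator_apply, derJ_X, derJ_X, derJ_lsub_X, derJ_lsub_X, lsub_comp_J,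
      lsub_comp_J, h, sub_self]
    rfl
  have h2 := congrArg (fun D => D f) h1
  simp only [Derivation.commutator_apply] at h2
  exact sub_eq_zero.mp h2

/-- The derivation as an endomorphism. -/
noncomputable def endJ (T : (ρ → ℂ) →ₗ[ℂ] (ρ → ℂ)) : Module.End ℂ (MvPolynomial ρ ℂ) :=
  (derJ T : MvPolynomial ρ ℂ →ₗ[ℂ] MvPolynomial ρ ℂ)

lemma endJ_apply (T : (ρ → ℂ) →ₗ[ℂ] (ρ → ℂ)) (f : MvPolynomial ρ ℂ) :
    endJ T f = derJ T f := rfl

lemma pow_mul_zero_J (T : (ρ → ℂ) →ₗ[ℂ] (ρ → ℂ)) (n : ℕ) : ∀ (a b : ℕ)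
    (f g : MvPolynomial ρ ℂ), a + b = n → (endJ T ^ a) f = 0 → (endJ T ^ b) g = 0 →
      (endJ T ^ n) (f * g) = 0 := by
  induction n with
  | zero =>
    intro a b f g hab ha hb
    obtain ⟨rfl, rfl⟩ := Nat.add_eq_zero_iff.mp hab
    rw [pow_zero, Module.End.one_apply] at ha
    rw [ha, zero_mul, map_zero]
  | succ n ih =>
    intro a b f g hab ha hb
    rcases a with _ | a
    · rw [pow_zero, Module.End.one_apply] at ha
      rw [ha, zero_mul, map_zero]
    rcases b with _ | b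
    · rw [pow_zero, Module.End.one_apply] at hb
      rw [hb, mul_zero, map_zero]
    rw [pow_succ, Module.End.mul_apply, endJ_apply, Derivation.leibniz, smul_eq_mul, smul_eq_mul,
      map_add]
    rw [ih (a + 1) b f (derJ T g) (by omega) ha
      (by rw [pow_succ, Module.End.mul_apply] at hb; exact hb),
      ih (b + 1) a g (derJ T f) (by omega) hb
      (by rw [pow_succ, Module.End.mul_apply] at ha; exact ha), add_zero]

lemma pow_le_zero_J {T : (ρ → ℂ) →ₗ[ℂ] (ρ → ℂ)} {a b : ℕ} (h : a ≤ b) {f : MvPolynomial ρ ℂ}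
    (hf : (endJ T ^ a) f = 0) : (endJ T ^ b) f = 0 := by
  rw [← Nat.sub_add_cancel h, pow_add, Module.End.mul_apply, hf, map_zero]

lemma pow_X_J (T : (ρ → ℂ) →ₗ[ℂ] (ρ → ℂ)) (k : ℕ) (i : ρ) :
    (endJ T ^ k) (X i) = lsub (T ^ k) (X i) := by
  induction k with
  | zero =>
    rw [pow_zero, Module.End.one_apply, pow_zero]
    apply MvPolynomial.funext
    intro w
    rw [eval_lsub, Module.End.one_apply]
  | succ k ih =>
    rw [pow_succ', Module.End.mul_apply, ih, endJ_apply, derJ_lsub_X, lsub_comp_J, pow_succ]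
    rfl

lemma locally_nilpotent_J {T : (ρ → ℂ) →ₗ[ℂ] (ρ → ℂ)} (hT : IsNilpotent T)
    (f : MvPolynomial ρ ℂ) : ∃ K : ℕ, (endJ T ^ K) f = 0 := by
  induction f using MvPolynomial.induction_on with
  | C a => exact ⟨1, by rw [pow_one, endJ_apply, derJ_C]⟩
  | add p q hp hq =>
    obtain ⟨K, hK⟩ := hp
    obtain ⟨L, hL⟩ := hq
    exact ⟨K + L, by rw [map_add, pow_le_zero_J (Nat.le_add_right _ _) hK,
      pow_le_zero_J (Nat.le_add_left _ _) hL, add_zero]⟩
  | mul_X p i hp =>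
    obtain ⟨K, hK⟩ := hp
    obtain ⟨k, hk⟩ := hT
    refine ⟨K + k, pow_mul_zero_J T _ K k _ _ rfl hK ?_⟩
    rw [pow_X_J, hk]
    apply MvPolynomial.funext
    intro w
    rw [eval_lsub, eval_X, map_zero]
    rfl

/-- The diagonal linear map. -/
noncomputable def diagJ (lam : ρ → ℂ) : (ρ → ℂ) →ₗ[ℂ] (ρ → ℂ) := Matrix.toLin' (Matrix.diagonal lam)

lemma diagJ_apply (lam : ρ → ℂ) (w : ρ → ℂ) (i : ρ) : diagJ lam w i = lam i * w i := by
  rw [diagJ, Matrix.toLin'_apply, Matrix.mulVec_diagonal]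

lemma derJ_diag_X (lam : ρ → ℂ) (i : ρ) :
    derJ (diagJ lam) (X i) = C (lam i) * X i := by
  rw [derJ_X]
  apply MvPolynomial.funext
  intro w
  rw [eval_lsub, eval_X, map_mul, eval_C, eval_X, diagJ_apply]

lemma derJ_diag_monomial (lam : ρ → ℂ) (m : ρ →₀ ℕ) (r : ℂ) :
    derJ (diagJ lam) (monomial m r) = (Finsupp.weight lam m) • monomial m r := by
  have h1 : derJ (diagJ lam) (monomial m r) = r • m.sum fun i k =>
      monomial (m - Finsupp.single i 1) (k : ℂ) • lsub (diagJ lam) (X i : MvPolynomial ρ ℂ) := by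
    rw [derJ, mkDerivation_monomial]
  rw [h1, Finsupp.weight_apply, Finsupp.sum, Finsupp.sum, Finset.smul_sum, Finset.sum_smul]
  refine Finset.sum_congr rfl (fun i hi => ?_)
  rw [← derJ_X, derJ_diag_X, smul_eq_mul, X, C_mul_monomial, monomial_mul, mul_one]
  have h2 : m - Finsupp.single i 1 + Finsupp.single i 1 = m := by
    apply tsub_add_cancel_of_le
    rw [Finsupp.single_le_iff]
    exact Nat.one_le_iff_ne_zero.mpr (Finsupp.mem_support_iff.mp hi)
  rw [h2, smul_monomial, smul_monomial]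
  congr 1
  rw [smul_eq_mul, smul_eq_mul, nsmul_eq_mul]
  ring

lemma derJ_diag_wHC (lam : ρ → ℂ) (c : ℂ) (f : MvPolynomial ρ ℂ) :
    derJ (diagJ lam) (weightedHomogeneousComponent lam c f) =
      c • weightedHomogeneousComponent lam c f := by
  classical
  have h1 : ∀ g : MvPolynomial ρ ℂ, (∀ m ∈ g.support, Finsupp.weight lam m = c) →
      derJ (diagJ lam) g = c • g := by
    intro g hg
    conv_lhs => rw [← support_sum_monomial_coeff g]
    conv_rhs => rw [← support_sum_monomial_coeff g]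
    rw [map_sum, Finset.smul_sum]
    refine Finset.sum_congr rfl (fun m hm => ?_)
    rw [derJ_diag_monomial, hg m hm]
  apply h1
  intro m hm
  rw [mem_support_iff, coeff_weightedHomogeneousComponent] at hm
  by_contra hne
  rw [if_neg hne] at hm
  exact hm rfl

lemma sum_wHC_J (lam : ρ → ℂ) (f : MvPolynomial ρ ℂ) :
    ∑ c ∈ f.support.image (Finsupp.weight lam), weightedHomogeneousComponent lam c f = f := by
  classical
  ext m
  rw [coeff_sum]
  simp only [coeff_weightedHomogeneousComponent]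
  rw [Finset.sum_ite_eq]
  by_cases hm : coeff m f = 0
  · rw [hm, ite_self]
  · rw [if_pos (Finset.mem_image_of_mem _ (mem_support_iff.mpr hm))]

lemma pow_sub_J {T T' : (ρ → ℂ) →ₗ[ℂ] (ρ → ℂ)} (h : T ∘ₗ T' = T' ∘ₗ T) {c : ℂ}
    {f : MvPolynomial ρ ℂ} (hf : derJ T f = c • f) (k : ℕ) :
    ((endJ (T + T') - algebraMap ℂ _ c) ^ k) f = (endJ T' ^ k) f ∧
      derJ T ((endJ T' ^ k) f) = c • (endJ T' ^ k) f := by
  induction k with
  | zero => exact ⟨rfl, hf⟩
  | succ k ih =>
    constructor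
    · rw [pow_succ', Module.End.mul_apply, ih.1, LinearMap.sub_apply, endJ_apply, derJ_add, ih.2,
        Module.algebraMap_end_apply, add_sub_cancel_left, pow_succ', Module.End.mul_apply,
        endJ_apply]
    · rw [pow_succ', Module.End.mul_apply, endJ_apply, derJ_comm h, ih.2, Derivation.map_smul]

lemma aeval_mem_J {J : Ideal (MvPolynomial ρ ℂ)} {L : Module.End ℂ (MvPolynomial ρ ℂ)}
    (hL : ∀ g ∈ J, L g ∈ J) (p : Polynomial ℂ) : ∀ g ∈ J, (Polynomial.aeval L p) g ∈ J := by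
  induction p using Polynomial.induction_on' with
  | add p q hp hq =>
    intro g hg
    rw [map_add, LinearMap.add_apply]
    exact J.add_mem (hp g hg) (hq g hg)
  | monomial n a =>
    intro g hg
    rw [Polynomial.aeval_monomial, Module.End.mul_apply, Module.algebraMap_end_apply]
    have h1 : ∀ n : ℕ, (L ^ n) g ∈ J := by
      intro n
      induction n with
      | zero => exact hg
      | succ n ih =>
        rw [pow_succ', Module.End.mul_apply]
        exact hL _ ih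
    rw [smul_eq_C_mul]
    exact J.mul_mem_left _ (h1 n)

lemma wHC_mem_J {J : Ideal (MvPolynomial ρ ℂ)} {lam : ρ → ℂ} {n : (ρ → ℂ) →ₗ[ℂ] (ρ → ℂ)}
    (hn : IsNilpotent n) (hc : diagJ lam ∘ₗ n = n ∘ₗ diagJ lam)
    (hJ : ∀ g ∈ J, derJ (diagJ lam + n) g ∈ J) {f : MvPolynomial ρ ℂ} (hf : f ∈ J) (c : ℂ) :
    weightedHomogeneousComponent lam c f ∈ J := by
  classical
  by_cases hcs : c ∈ f.support.image (Finsupp.weight lam)
  · set L := endJ (diagJ lam + n) with hLdef
    have hK : ∀ c : ℂ, ∃ K : ℕ,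
        ((L - algebraMap ℂ _ c) ^ K) (weightedHomogeneousComponent lam c f) = 0 := by
      intro c
      obtain ⟨K, hK⟩ := locally_nilpotent_J hn (weightedHomogeneousComponent lam c f)
      exact ⟨K, by rw [(pow_sub_J hc (derJ_diag_wHC lam c f) K).1, hK]⟩
    choose K hK using hK
    set s := f.support.image (Finsupp.weight lam) with hs
    set P : Polynomial ℂ := ∏ c' ∈ s.erase c, (Polynomial.X - Polynomial.C c') ^ K c' with hP
    set Q : Polynomial ℂ := (Polynomial.X - Polynomial.C c) ^ K c with hQ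
    have hcop : IsCoprime P Q := by
      refine IsCoprime.prod_left (fun c' hc' => IsCoprime.pow ?_)
      exact Polynomial.isCoprime_X_sub_C_of_isUnit_sub
        (sub_ne_zero.mpr (Finset.ne_of_mem_erase hc')).isUnit
    have hlin : ∀ c' : ℂ, Polynomial.aeval L (Polynomial.X - Polynomial.C c') =
        L - algebraMap ℂ _ c' := by
      intro c'
      rw [map_sub, Polynomial.aeval_X, Polynomial.aeval_C]
    have hQf : Polynomial.aeval L Q (weightedHomogeneousComponent lam c f) = 0 := by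
      rw [hQ, map_pow, hlin, hK]
    have hPf : ∀ c' ∈ s.erase c,
        Polynomial.aeval L P (weightedHomogeneousComponent lam c' f) = 0 := by
      intro c' hc'
      rw [hP, ← Finset.prod_erase_mul _ _ hc', map_mul, map_pow, hlin, Module.End.mul_apply, hK,
        map_zero]
    have hPtot : Polynomial.aeval L P f =
        Polynomial.aeval L P (weightedHomogeneousComponent lam c f) := by
      conv_lhs => rw [← sum_wHC_J lam f]
      rw [map_sum, ← Finset.add_sum_erase _ _ hcs, Finset.sum_eq_zero hPf, add_zero]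
    obtain ⟨u, v, huv⟩ := hcop
    have h1 : weightedHomogeneousComponent lam c f = Polynomial.aeval L u
        (Polynomial.aeval L P f) := by
      have h2 := congrArg (fun p => Polynomial.aeval L p (weightedHomogeneousComponent lam c f))
        huv
      simp only [map_add, map_mul, LinearMap.add_apply, Module.End.mul_apply, map_one,
        Module.End.one_apply] at h2
      rw [hQf, map_zero, add_zero] at h2
      rw [hPtot, h2]
    rw [h1]
    exact aeval_mem_J hJ _ _ (aeval_mem_J hJ _ _ hf)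
  · have h1 : weightedHomogeneousComponent lam c f = 0 := by
      ext m
      rw [coeff_weightedHomogeneousComponent, coeff_zero]
      split_ifs with h
      · by_contra hne
        exact hcs (h ▸ Finset.mem_image_of_mem _ (mem_support_iff.mpr hne))
      · rfl
    rw [h1]
    exact J.zero_mem

lemma exists_eigenbasis_J (s : Module.End ℂ (ρ → ℂ)) (hs : s.IsSemisimple) :
    ∃ (b : Module.Basis ρ ℂ (ρ → ℂ)) (lam : ρ → ℂ), ∀ i, s (b i) = lam i • b i := by
  classical
  let eigenDecomp := DirectSum.isInternal_submodule_of_iSupIndep_of_iSup_eq_top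
    s.eigenspaces_iSupIndep hs.iSup_eigenspace_eq_top
  let v := eigenDecomp.collectedBasis fun μ ↦ Module.finBasis ℂ (s.eigenspace μ)
  have hsv : ∀ i, s (v i) = i.1 • v i := fun i =>
    Module.End.mem_eigenspace_iff.mp (eigenDecomp.collectedBasis_mem _ i)
  let e := v.indexEquiv (Pi.basisFun ℂ ρ)
  refine ⟨v.reindex e, fun i => (e.symm i).1, fun i => ?_⟩
  rw [Module.Basis.reindex_apply]
  exact hsv _

/-- The nilpotent part of a tangent matrix is tangent; if it vanishes, there are an invertible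
matrix and integral weights, not all equal, for which the transformed ideal is weighted
homogeneous. Doc, section 7. -/
theorem nil_or_weights (hhom : HI I) {M : Matrix ρ ρ ℂ} (ht : Tangent I M)
    (hns : ∀ μ : ℂ, M ≠ μ • (1 : Matrix ρ ρ ℂ)) :
    (∃ ν : Matrix ρ ρ ℂ, ν ≠ 0 ∧ IsNilpotent ν ∧ Tangent I ν) ∨
    ∃ (Φ : (ρ → ℂ) ≃ₗ[ℂ] (ρ → ℂ)) (a : ρ → ℤ), (∃ i j, a i ≠ a j) ∧
      ∀ f ∈ tI Φ I, ∀ m : ℤ, weightedHomogeneousComponent a m f ∈ tI Φ I := by
  classical
  obtain ⟨n, hn_adj, s, hs_adj, hn_nil, hs_ss, hns'⟩ :=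
    Module.End.exists_isNilpotent_isSemisimple (K := ℂ) (f := Matrix.toLin' M)
  have hcomm : Commute n s :=
    Algebra.commute_of_mem_adjoin_singleton_of_commute hs_adj
      (Algebra.commute_of_mem_adjoin_self hn_adj).symm
  obtain ⟨b, lam, hb⟩ := exists_eigenbasis_J s hs_ss
  set Φ : (ρ → ℂ) ≃ₗ[ℂ] (ρ → ℂ) := b.equivFun.symm with hΦ
  have hΦs : s ∘ₗ (Φ : (ρ → ℂ) →ₗ[ℂ] (ρ → ℂ)) = (Φ : (ρ → ℂ) →ₗ[ℂ] (ρ → ℂ)) ∘ₗ diagJ lam := by
    apply LinearMap.pi_ext'
    intro i
    apply LinearMap.ext_ring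
    simp only [LinearMap.comp_apply, LinearMap.coe_single, LinearEquiv.coe_coe]
    have h1 : diagJ lam (Pi.single i 1) = lam i • Pi.single i (1 : ℂ) := by
      funext j
      rw [diagJ_apply, Pi.smul_apply, smul_eq_mul]
      by_cases hj : j = i
      · subst hj; rfl
      · rw [Pi.single_eq_of_ne hj, mul_zero, mul_zero]
    have h2 : Φ (Pi.single i 1) = b i := by
      rw [hΦ, Module.Basis.equivFun_symm_apply, Finset.sum_eq_single i]
      · rw [Pi.single_eq_same, one_smul]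
      · intro j _ hj
        rw [Pi.single_eq_of_ne hj, zero_smul]
      · intro h; exact absurd (Finset.mem_univ _) h
    rw [h1, map_smul, h2, hb]
  set Ψ : (ρ → ℂ) →ₗ[ℂ] (ρ → ℂ) := (Φ.symm : (ρ → ℂ) →ₗ[ℂ] (ρ → ℂ)) with hΨ
  set Φ' : (ρ → ℂ) →ₗ[ℂ] (ρ → ℂ) := (Φ : (ρ → ℂ) →ₗ[ℂ] (ρ → ℂ)) with hΦ'
  have hΦΨ : Φ' ∘ₗ Ψ = LinearMap.id := by ext1; simp [hΦ', hΨ]
  have hΨΦ : Ψ ∘ₗ Φ' = LinearMap.id := by ext1; simp [hΦ', hΨ]
  set n' : (ρ → ℂ) →ₗ[ℂ] (ρ → ℂ) := Ψ ∘ₗ n ∘ₗ Φ' with hn'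
  have hΦn : Φ' ∘ₗ n' = n ∘ₗ Φ' := by
    rw [hn', ← LinearMap.comp_assoc, hΦΨ, LinearMap.id_comp]
  have hdiag : diagJ lam = Ψ ∘ₗ s ∘ₗ Φ' := by
    rw [hΦs, ← LinearMap.comp_assoc, hΨΦ, LinearMap.id_comp]
  have hn'nil : IsNilpotent n' := by
    obtain ⟨k, hk⟩ := hn_nil
    refine ⟨k, ?_⟩
    have h1 : ∀ k : ℕ, n' ^ k = Ψ ∘ₗ (n ^ k) ∘ₗ Φ' := by
      intro k
      induction k with
      | zero =>
        rw [pow_zero, pow_zero]
        show LinearMap.id = Ψ ∘ₗ LinearMap.id ∘ₗ Φ'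
        rw [LinearMap.id_comp, hΨΦ]
      | succ k ih =>
        rw [pow_succ, ih, pow_succ]
        show (Ψ ∘ₗ (n ^ k) ∘ₗ Φ') ∘ₗ n' = Ψ ∘ₗ ((n ^ k) ∘ₗ n) ∘ₗ Φ'
        rw [LinearMap.comp_assoc, LinearMap.comp_assoc, hΦn, LinearMap.comp_assoc]
    rw [h1, hk, LinearMap.zero_comp, LinearMap.comp_zero]
  have hcomm' : diagJ lam ∘ₗ n' = n' ∘ₗ diagJ lam := by
    have h1 : s ∘ₗ n = n ∘ₗ s := hcomm.eq.symm
    calc diagJ lam ∘ₗ n' = Ψ ∘ₗ s ∘ₗ (Φ' ∘ₗ n') := by
          rw [hdiag, LinearMap.comp_assoc, LinearMap.comp_assoc]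
      _ = Ψ ∘ₗ (s ∘ₗ n) ∘ₗ Φ' := by rw [hΦn, LinearMap.comp_assoc]
      _ = Ψ ∘ₗ n ∘ₗ (s ∘ₗ Φ') := by rw [h1, LinearMap.comp_assoc]
      _ = n' ∘ₗ diagJ lam := by
          rw [hΦs, hn', LinearMap.comp_assoc, LinearMap.comp_assoc]
  have hT : Ψ ∘ₗ (Matrix.toLin' M) = (diagJ lam + n') ∘ₗ Ψ := by
    rw [hns', hdiag, hn']
    rw [LinearMap.add_comp, LinearMap.comp_assoc, LinearMap.comp_assoc, LinearMap.comp_assoc,
      LinearMap.comp_assoc, hΦΨ, LinearMap.comp_id, LinearMap.comp_id, LinearMap.comp_add,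
      add_comm]
  have hstab : ∀ g ∈ tI Φ I, derJ (diagJ lam + n') g ∈ tI Φ I := by
    intro g hg
    rw [mem_tI] at hg ⊢
    have h1 := ht _ hg
    rw [DM_eq_derJ, derJ_conj _ _ _ hT] at h1
    exact h1
  have hwt : ∀ f ∈ tI Φ I, ∀ c : ℂ, weightedHomogeneousComponent lam c f ∈ tI Φ I :=
    fun f hf c => wHC_mem_J hn'nil hcomm' hstab hf c
  by_cases hn0 : n = 0
  · right
    have hM : Matrix.toLin' M = s := by rw [hns', hn0, zero_add]
    have hneq : ∃ i j, lam i ≠ lam j := by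
      by_contra hcon
      push Not at hcon
      rcases isEmpty_or_nonempty ρ with hρ | ⟨⟨i₀⟩⟩
      · exact hns 0 (Subsingleton.elim _ _)
      · apply hns (lam i₀)
        apply Matrix.toLin'.injective
        rw [map_smul, Matrix.toLin'_one, hM]
        refine b.ext (fun i => ?_)
        rw [hb, hcon i i₀]
        rfl
    obtain ⟨i, j, hij⟩ := hneq
    obtain ⟨θ, hθ⟩ : ∃ θ : Module.Dual ℚ ℂ, θ (lam i - lam j) ≠ 0 := by
      by_contra hcon
      push Not at hcon
      exact sub_ne_zero.mpr hij ((Module.forall_dual_apply_eq_zero_iff ℚ _).mp hcon)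
    set N : ℕ := ∏ k, (θ (lam k)).den with hN
    have hN0 : (N : ℚ) ≠ 0 := by
      rw [hN]
      exact_mod_cast Finset.prod_ne_zero_iff.mpr (fun k _ => (θ (lam k)).den_nz)
    have ha : ∀ k, ∃ z : ℤ, (z : ℚ) = N * θ (lam k) := by
      intro k
      have h1 : (θ (lam k)).den ∣ N := Finset.dvd_prod_of_mem _ (Finset.mem_univ k)
      obtain ⟨q, hq⟩ := h1
      refine ⟨q * (θ (lam k)).num, ?_⟩
      rw [hq]
      push_cast
      have h2 := Rat.den_mul_eq_num (θ (lam k))
      rw [mul_comm ((θ (lam k)).den : ℚ) (q : ℚ), mul_assoc, h2]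
    choose a ha using ha
    refine ⟨Φ, a, ⟨i, j, ?_⟩, ?_⟩
    · intro h
      apply hθ
      have h1 : (N : ℚ) * θ (lam i - lam j) = 0 := by
        rw [map_sub, mul_sub, ← ha, ← ha, h, sub_self]
      exact (mul_eq_zero.mp h1).resolve_left hN0
    · intro f hf m
      have hw : ∀ d : ρ →₀ ℕ, ((Finsupp.weight a d : ℤ) : ℚ) = N * θ (Finsupp.weight lam d) := by
        intro d
        rw [Finsupp.weight_apply, Finsupp.weight_apply, Finsupp.sum, Finsupp.sum, map_sum,
          Finset.mul_sum, Int.cast_sum]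
        refine Finset.sum_congr rfl (fun k _ => ?_)
        rw [map_nsmul, nsmul_eq_mul, nsmul_eq_mul, Int.cast_mul, Int.cast_natCast, ha]
        ring
      have h1 : weightedHomogeneousComponent a m f =
          ∑ c ∈ (f.support.image (Finsupp.weight lam)).filter (fun c => (N : ℚ) * θ c = m),
            weightedHomogeneousComponent lam c f := by
        ext d
        rw [coeff_sum]
        simp only [coeff_weightedHomogeneousComponent]
        rw [Finset.sum_ite_eq]
        by_cases hd : coeff d f = 0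
        · rw [hd, ite_self, ite_self]
        · refine if_congr ?_ rfl rfl
          rw [Finset.mem_filter, ← hw]
          constructor
          · intro h
            exact ⟨Finset.mem_image_of_mem _ (mem_support_iff.mpr hd), by rw [h]⟩
          · intro h
            exact_mod_cast h.2
      rw [h1]
      exact Ideal.sum_mem _ (fun c _ => hwt f hf c)
  · left
    refine ⟨LinearMap.toMatrix' n, ?_, ?_, ?_⟩
    · intro h
      apply hn0
      apply LinearMap.toMatrix'.injective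
      rw [h, map_zero]
    · obtain ⟨k, hk⟩ := hn_nil
      refine ⟨k, ?_⟩
      show (LinearMap.toMatrixAlgEquiv' n) ^ k = 0
      rw [← map_pow, hk, map_zero]
    · intro F hF
      rw [DM_eq_derJ, Matrix.toLin'_toMatrix']
      have h1 : lsub Φ' F ∈ tI Φ I := lsub_mem_tI Φ I hF
      have h2 : derJ (diagJ lam) (lsub Φ' F) ∈ tI Φ I := by
        have h5 : derJ (diagJ lam) (∑ c ∈ (lsub Φ' F).support.image (Finsupp.weight lam),
            weightedHomogeneousComponent lam c (lsub Φ' F)) ∈ tI Φ I := by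
          rw [map_sum]
          refine Ideal.sum_mem _ (fun c _ => ?_)
          rw [derJ_diag_wHC, smul_eq_C_mul]
          exact Ideal.mul_mem_left _ _ (hwt _ h1 c)
        rwa [sum_wHC_J] at h5
      have h3 : derJ n' (lsub Φ' F) ∈ tI Φ I := by
        have h4 := hstab _ h1
        rw [derJ_add] at h4
        exact (Ideal.add_mem_iff_right _ h2).mp h4
      rw [derJ_conj _ _ _ hΦn, mem_tI, hΦ', lsub_symm_lsub] at h3
      exact h3

end A9

end Pool.Agent.HartA
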