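import Mathlib
import Pool.Agent.HartA.OneParam
import Pool.Agent.HartA.OrbitAux
import Pool.Agent.HartA.Rat

/-!
The deformations of an orbit of a one-parameter group.
-/

namespace Pool.Agent.HartA

open Pool.Agent.Hartshorne MvPolynomial

set_option linter.unusedSectionVars false

section Sub

variable {ρ : Type} [Fintype ρ] [DecidableEq ρ] {I : Ideal (MvPolynomial ρ ℂ)} {c : ℕ}

/-- The generic curve. -/
noncomputable def gcv (x : ρ → ℂ) (k : ℕ) (b : ρ) : Polynomial (MvPolynomial (Fin k × ρ) ℂ) :=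
  Polynomial.C (C (x b)) + ∑ i : Fin k, Polynomial.C (X (i, b)) * Polynomial.X ^ ((i : ℕ) + 1)

lemma natDegree_gcv (x : ρ → ℂ) (k : ℕ) (b : ρ) : (gcv x k b).natDegree ≤ k := by
  rw [gcv]
  refine (Polynomial.natDegree_add_le _ _).trans (max_le
    (by rw [Polynomial.natDegree_C]; exact Nat.zero_le _) ?_)
  refine Polynomial.natDegree_sum_le_of_forall_le _ _ (fun i _ => ?_)
  refine (Polynomial.natDegree_C_mul_X_pow_le _ _).trans ?_
  have := i.2
  omega

/-- The generic curve at a value of the parameter. -/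
noncomputable def gev (x : ρ → ℂ) (k : ℕ) (t : ℂ) (b : ρ) : MvPolynomial (Fin k × ρ) ℂ :=
  C (x b) + ∑ i : Fin k, X (i, b) * C t ^ ((i : ℕ) + 1)

lemma eval_gcv (x : ρ → ℂ) (k : ℕ) (b : ρ) (t : ℂ) :
    (gcv x k b).eval (algebraMap ℂ _ t) = gev x k t b := by
  rw [gcv, gev, Polynomial.eval_add, Polynomial.eval_C, Polynomial.eval_finsetSum]
  congr 1
  refine Finset.sum_congr rfl (fun i _ => ?_)
  rw [Polynomial.eval_mul, Polynomial.eval_C, Polynomial.eval_pow, Polynomial.eval_X,
    MvPolynomial.algebraMap_eq]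

/-- Substitution of the generic curve. -/
noncomputable def sbt (x : ρ → ℂ) (k : ℕ) (t : ℂ) :
    MvPolynomial ρ ℂ →ₐ[ℂ] MvPolynomial (Fin k × ρ) ℂ := aeval (gev x k t)

lemma eval_sbt (x : ρ → ℂ) (k : ℕ) (t : ℂ) (q : Fin k × ρ → ℂ) (h : MvPolynomial ρ ℂ) :
    eval q (sbt x k t h) = eval (curve x q 1 t) h := by
  have h1 : ((eval q).comp ((sbt x k t : MvPolynomial ρ ℂ →ₐ[ℂ] MvPolynomial (Fin k × ρ) ℂ) :
      MvPolynomial ρ ℂ →+* MvPolynomial (Fin k × ρ) ℂ)) = eval (curve x q 1 t) := by
    apply MvPolynomial.ringHom_ext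
    · intro t; simp [sbt]
    · intro i
      simp [sbt, gev, curve, mul_comm]
  exact RingHom.congr_fun h1 h

lemma curve_smul (x : ρ → ℂ) {k : ℕ} (q : Fin k × ρ → ℂ) {s : ℂ} (hs : s ≠ 0) (t : ℂ) :
    curve x q s t = s ^ k • curve x q 1 (t / s) := by
  rw [curve, curve, smul_add, one_pow, one_smul, Finset.smul_sum]
  congr 1
  refine Finset.sum_congr rfl (fun i _ => ?_)
  rw [smul_smul]
  congr 1
  rw [one_pow, one_mul, div_pow]
  have hi := i.2
  have h1 : s ^ k = s ^ (k - 1 - (i : ℕ)) * s ^ ((i : ℕ) + 1) := by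
    rw [← pow_add]
    congr 1
    omega
  rw [h1, mul_assoc, mul_div_cancel₀ _ (pow_ne_zero _ hs)]

/-- From the affine curve to the projective curve. -/
lemma curveIn_of_one (hhom : HI I) {x : ρ → ℂ} {k : ℕ} {q : Fin k × ρ → ℂ}
    (h : ∀ t : ℂ, curve x q 1 t ∈ VI I) : CurveIn I x q := by
  have h1 : ∀ s t : ℂ, s ≠ 0 → curve x q s t ∈ VI I := by
    intro s t hs
    rw [curve_smul x q hs]
    exact VI_smul hhom (h _) _
  intro s t f hf
  set g : ρ → Polynomial ℂ := fun b => Polynomial.C (x b) * Polynomial.X ^ k +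
    ∑ i : Fin k, Polynomial.C (t ^ ((i : ℕ) + 1) * q (i, b)) * Polynomial.X ^ (k - 1 - (i : ℕ))
    with hg
  have hgs : ∀ s : ℂ, (fun b => (g b).eval s) = curve x q s t := by
    intro s
    funext b
    rw [hg]
    simp only [Polynomial.eval_add, Polynomial.eval_mul, Polynomial.eval_C, Polynomial.eval_pow,
      Polynomial.eval_X, Polynomial.eval_finsetSum, curve, Pi.add_apply, Pi.smul_apply,
      Finset.sum_apply, smul_eq_mul]
    rw [mul_comm]
    congr 1
    exact Finset.sum_congr rfl (fun i _ => by ring)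
  have hev : ∀ s : ℂ, (aeval g f).eval s = eval (curve x q s t) f := by
    intro s
    rw [eval_aeval, hgs, aeval_eq_eval]
  have h2 : aeval g f = 0 := by
    apply Polynomial.eq_zero_of_infinite_isRoot
    refine Set.Infinite.mono (s := {s : ℂ | s ≠ 0}) (fun s hs => ?_) ?_
    · show (aeval g f).eval s = 0
      rw [hev]
      exact h1 s t hs f hf
    · exact (Set.finite_singleton (0 : ℂ)).infinite_compl
  rw [← hev, h2, Polynomial.eval_zero]

end Sub

section Orb

variable {ρ : Type} [Fintype ρ] [DecidableEq ρ] {I : Ideal (MvPolynomial ρ ℂ)} {c : ℕ}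

/-- The entries of the one-parameter group. -/
noncomputable def expP (M : Matrix ρ ρ ℂ) (k : ℕ) (a b : ρ) : Polynomial ℂ :=
  ∑ i ∈ Finset.range (k + 1), Polynomial.C ((M ^ i) a b / (i.factorial : ℂ)) * Polynomial.X ^ i

lemma natDegree_expP (M : Matrix ρ ρ ℂ) (k : ℕ) (a b : ρ) : (expP M k a b).natDegree ≤ k := by
  refine Polynomial.natDegree_sum_le_of_forall_le _ _ (fun i hi => ?_)
  refine (Polynomial.natDegree_C_mul_X_pow_le _ _).trans ?_
  rw [Finset.mem_range] at hi
  omega

lemma eval_expP (M : Matrix ρ ρ ℂ) (k : ℕ) (a b : ρ) (t : ℂ) :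
    (expP M k a b).eval t = expM M k t a b := by
  rw [expP, expM, Polynomial.eval_finsetSum, Matrix.sum_apply]
  refine Finset.sum_congr rfl (fun i _ => ?_)
  rw [Polynomial.eval_mul, Polynomial.eval_C, Polynomial.eval_pow, Polynomial.eval_X,
    Matrix.smul_apply, smul_eq_mul]
  ring

lemma expM_zero (M : Matrix ρ ρ ℂ) (k : ℕ) : expM M k 0 = 1 := by
  rw [expM, Finset.sum_eq_single 0]
  · simp
  · intro i _ hi
    rw [zero_pow hi, zero_div, zero_smul]
  · intro h
    exact absurd (Finset.mem_range.mpr (Nat.succ_pos k)) h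

/-- The orbit of a point. -/
noncomputable def orbP (M : Matrix ρ ρ ℂ) (k : ℕ) (x : ρ → ℂ) (b : ρ) : Polynomial ℂ :=
  ∑ a, expP M k b a * Polynomial.C (x a)

lemma natDegree_orbP (M : Matrix ρ ρ ℂ) (k : ℕ) (x : ρ → ℂ) (b : ρ) :
    (orbP M k x b).natDegree ≤ k := by
  refine Polynomial.natDegree_sum_le_of_forall_le _ _ (fun a _ => ?_)
  exact (Polynomial.natDegree_mul_C_le _ _).trans (natDegree_expP M k b a)

lemma eval_orbP (M : Matrix ρ ρ ℂ) (k : ℕ) (x : ρ → ℂ) (b : ρ) (t : ℂ) :
    (orbP M k x b).eval t = (expM M k t).mulVec x b := by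
  rw [orbP, Polynomial.eval_finsetSum, Matrix.mulVec, dotProduct]
  refine Finset.sum_congr rfl (fun a _ => ?_)
  rw [Polynomial.eval_mul, Polynomial.eval_C, eval_expP]

lemma coeff_orbP (M : Matrix ρ ρ ℂ) (k : ℕ) (x : ρ → ℂ) (b : ρ) :
    (orbP M k x b).coeff k = (k.factorial : ℂ)⁻¹ * (M ^ k).mulVec x b := by
  rw [orbP, Polynomial.finsetSum_coeff, Matrix.mulVec, dotProduct, Finset.mul_sum]
  refine Finset.sum_congr rfl (fun a _ => ?_)
  rw [Polynomial.coeff_mul_C, expP, Polynomial.finsetSum_coeff]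
  simp only [Polynomial.coeff_C_mul_X_pow]
  rw [Finset.sum_ite_eq (Finset.range (k + 1)) k, if_pos (Finset.mem_range.mpr (Nat.lt_succ_self k))]
  ring

/-- The point of the deformation space given by the orbit. -/
noncomputable def orbC (M : Matrix ρ ρ ℂ) (k : ℕ) (x : ρ → ℂ) : Fin k × ρ → ℂ :=
  fun p => (((p.1 : ℕ) + 1).factorial : ℂ)⁻¹ * (M ^ ((p.1 : ℕ) + 1)).mulVec x p.2

lemma curve_orbC (M : Matrix ρ ρ ℂ) (k : ℕ) (x : ρ → ℂ) (t : ℂ) :
    curve x (orbC M k x) 1 t = (expM M k t).mulVec x := by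
  rw [curve, expM, one_pow, one_smul, Matrix.sum_mulVec, Finset.sum_range_succ']
  simp only [one_pow, one_mul, pow_zero, Nat.factorial_zero, Nat.cast_one, div_one, one_smul,
    Matrix.one_mulVec]
  rw [add_comm, Finset.sum_range]
  congr 1
  refine Finset.sum_congr rfl (fun i _ => ?_)
  funext b
  rw [Matrix.smul_mulVec, Pi.smul_apply, Pi.smul_apply, orbC, smul_eq_mul, smul_eq_mul]
  ring


/-- Cramer's rule along the orbit. -/
lemma cramer_eval {c : ℕ} (Q : Matrix (Fin c) (Fin c) (Polynomial ℂ)) (r : Fin c → Polynomial ℂ)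
    (i : Fin c) (t : ℂ) :
    (Matrix.cramer Q.transpose r i).eval t =
      Matrix.cramer (Matrix.of fun i l => (Q i l).eval t).transpose (fun l => (r l).eval t) i := by
  rw [Matrix.cramer_apply, Matrix.cramer_apply, ← Polynomial.coe_evalRingHom, RingHom.map_det]
  congr 1
  ext a b
  rw [RingHom.mapMatrix_apply, Matrix.map_apply, Matrix.updateCol_apply, Matrix.updateCol_apply]
  split_ifs
  · rfl
  · rfl

lemma det_eval {c : ℕ} (Q : Matrix (Fin c) (Fin c) (Polynomial ℂ)) (t : ℂ) :
    Q.det.eval t = (Matrix.of fun i l => (Q i l).eval t).det := by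
  rw [← Polynomial.coe_evalRingHom, RingHom.map_det]
  rfl

lemma natDegree_cramer {c : ℕ} (Q : Matrix (Fin c) (Fin c) (Polynomial ℂ))
    (r : Fin c → Polynomial ℂ) (i : Fin c) {m n : ℕ} (hQ : ∀ i l, (Q i l).natDegree ≤ m)
    (hr : ∀ l, (r l).natDegree ≤ n) :
    (Matrix.cramer Q.transpose r i).natDegree ≤ (c - 1) * m + n := by
  rw [Matrix.cramer_apply, ← Matrix.det_transpose]
  refine (natDegree_det_le _ (fun i' => if i' = i then n else m) (fun a b => ?_)).trans ?_
  · rw [Matrix.transpose_apply, Matrix.updateCol_apply]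
    split_ifs with h
    · exact hr _
    · exact hQ _ _
  · rw [Finset.sum_ite, Finset.sum_const, Finset.sum_const, smul_eq_mul, smul_eq_mul]
    have h1 : (Finset.univ.filter (fun i' : Fin c => i' = i)).card = 1 := by
      rw [Finset.card_eq_one]
      refine ⟨i, ?_⟩
      ext a
      simp
    have h2 := Finset.card_filter_add_card_filter_not (s := (Finset.univ : Finset (Fin c)))
      (fun i' : Fin c => i' = i)
    rw [h1, Finset.card_univ, Fintype.card_fin] at h2
    rw [h1]
    have h3 : (Finset.univ.filter (fun i' : Fin c => ¬ i' = i)).card = c - 1 := by omega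
    rw [h3]
    omega

lemma le_of_add_le {a b : ℕ} {D : WithBot ℕ∞} (h : (a : WithBot ℕ∞) ≤ D + (b : WithBot ℕ∞)) :
    ((a - b : ℕ) : WithBot ℕ∞) ≤ D := by
  induction D using WithBot.recBotCoe with
  | bot => simp at h
  | coe D =>
    induction D using ENat.recTopCoe with
    | top => exact le_top
    | coe d =>
      have h1 : ((a : ℕ) : WithBot ℕ∞) ≤ ((d + b : ℕ) : WithBot ℕ∞) := by
        rw [Nat.cast_add]; exact h
      have h2 : a ≤ d + b := by exact_mod_cast h1
      have h3 : a - b ≤ d := by omega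
      have h4 : ((a - b : ℕ) : WithBot ℕ∞) ≤ ((d : ℕ) : WithBot ℕ∞) := by exact_mod_cast h3
      exact h4

lemma sbt_cmM (x : ρ → ℂ) (k : ℕ) (t : ℂ) (A : Matrix ρ ρ ℂ) (f : MvPolynomial ρ ℂ) :
    sbt x k t (cmM A f) = aeval (fun b => ∑ a, C (A b a) * gev x k t a) f := by
  have h1 : ((sbt x k t).comp (cmM A)) = aeval (fun b => ∑ a, C (A b a) * gev x k t a) := by
    apply MvPolynomial.algHom_ext
    intro i
    rw [AlgHom.comp_apply, cmM, aeval_X, aeval_X, map_sum]
    refine Finset.sum_congr rfl (fun a _ => ?_)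
    rw [map_mul, sbt, aeval_X, ← MvPolynomial.algebraMap_eq, AlgHom.commutes]
    rfl
  exact congrArg (fun φ : MvPolynomial ρ ℂ →ₐ[ℂ] MvPolynomial (Fin k × ρ) ℂ => φ f) h1

lemma sbt_zero (x : ρ → ℂ) (k : ℕ) (f : MvPolynomial ρ ℂ) : sbt x k 0 f = C (eval x f) := by
  apply MvPolynomial.funext
  intro q
  rw [eval_sbt, eval_C]
  congr 1
  simp [curve]

lemma exists_delta {k : ℕ} (lam : MvPolynomial (Fin k × ρ) ℂ →ₗ[ℂ] ℂ) (x : ρ → ℂ)
    (M : Matrix ρ ρ ℂ) (k' : ℕ) (f : MvPolynomial ρ ℂ) :
    ∃ δ : Polynomial ℂ, ∀ t, δ.eval t = lam (sbt x k t (cmM (expM M k' (-t)) f)) := by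
  refine ⟨lamC lam (aeval (fun b => ∑ a,
    ((expP M k' b a).comp (-Polynomial.X)).map (C : ℂ →+* MvPolynomial (Fin k × ρ) ℂ) *
      gcv x k a) f), fun t => ?_⟩
  rw [eval_lamC, eval_aeval, sbt_cmM]
  have h1 : (fun b => (∑ a,
      ((expP M k' b a).comp (-Polynomial.X)).map (C : ℂ →+* MvPolynomial (Fin k × ρ) ℂ) *
      gcv x k a).eval (algebraMap ℂ (MvPolynomial (Fin k × ρ) ℂ) t)) =
      fun b => ∑ a, C (expM M k' (-t) b a) * gev x k t a := by
    funext b
    rw [Polynomial.eval_finsetSum]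
    refine Finset.sum_congr rfl (fun a _ => ?_)
    rw [Polynomial.eval_mul, eval_gcv, MvPolynomial.algebraMap_eq, Polynomial.eval_map,
      Polynomial.eval₂_hom, Polynomial.eval_comp, Polynomial.eval_neg, Polynomial.eval_X,
      eval_expP]
  rw [h1]

/-- **The deformations of an orbit.** -/
theorem NX.orbit (hX : NX I c) {M : Matrix ρ ρ ℂ} {k : ℕ} (_hk : 0 < k) (hM : M ^ (k + 1) = 0)
    (hst : ∀ t : ℂ, ∀ p ∈ VI I, (expM M k t).mulVec p ∈ VI I) {x : ρ → ℂ} (hx : x ∈ VI I)
    (hxk : (M ^ k).mulVec x ≠ 0) : Dge I x k (k * (Fintype.card ρ - 2 * c)) := by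
  classical
  -- the orbit
  have hx0 : x ≠ 0 := by
    rintro rfl
    exact hxk (Matrix.mulVec_zero _)
  set ct : ℂ → (ρ → ℂ) := fun t => (expM M k t).mulVec x with hct
  have hinv : ∀ t, expM M k (-t) * expM M k t = 1 := by
    intro t
    rw [expM_add hM, neg_add_cancel, expM_zero]
  have hct0 : ∀ t, ct t ≠ 0 := by
    intro t h
    apply hx0
    have h1 : (expM M k (-t)).mulVec (ct t) = x := by
      rw [hct]
      simp only
      rw [Matrix.mulVec_mulVec, hinv, Matrix.one_mulVec]
    rw [← h1, h, Matrix.mulVec_zero]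
  have hctI : ∀ t, ct t ∈ VI I := fun t => hst t x hx
  have hev0 : ∀ t f, eval (orbC M k x) (sbt x k t f) = eval (ct t) f := by
    intro t f
    rw [eval_sbt, curve_orbC]
  -- the ideal
  set a : Ideal (MvPolynomial (Fin k × ρ) ℂ) :=
    Ideal.span {g | ∃ (t : ℂ), ∃ f ∈ I, g = sbt x k t f} with ha
  have hmema : ∀ t, ∀ f ∈ I, sbt x k t f ∈ a := fun t f hf => Ideal.subset_span ⟨t, f, hf, rfl⟩
  -- gradients at the point
  obtain ⟨h, hh, hli⟩ := hX.hsm x hx0 hx
  have hspan := hX.span_eq hx0 hx (fun j => grad_mem_gradSpan (hh j) x) hli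
  set h' : Fin c → ℂ → MvPolynomial ρ ℂ := fun j t => cmM (expM M k (-t)) (h j) with hh'
  have hh'I : ∀ j t, h' j t ∈ I := by
    intro j t
    refine mem_of_eval_zero hX.hI (fun z hz => ?_)
    rw [hh']
    simp only
    rw [eval_cmM]
    exact hst (-t) z hz _ (hh j)
  have hh'g : ∀ j t, grad (ct t) (h' j t) = Matrix.vecMul (grad x (h j)) (expM M k (-t)) := by
    intro j t
    rw [hh']
    simp only
    rw [grad_cmM]
    congr 2
    rw [hct]
    simp only
    rw [Matrix.mulVec_mulVec, hinv, Matrix.one_mulVec]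
  -- equations at infinity
  obtain ⟨D, hS⟩ := exists_setup (⊤ : Submodule ℂ (ρ → ℂ)) I hX.hI hX.hhom hX.hdim
    (fun p _ hp0 hp => hX.hsm p hp0 hp)
  have hDpos := hS.hD
  set ci : ρ → ℂ := fun b => (orbP M k x b).coeff k with hci
  have hcie : ci = (k.factorial : ℂ)⁻¹ • (M ^ k).mulVec x := funext (fun b => coeff_orbP M k x b)
  have hci0 : ci ≠ 0 := by
    rw [hcie]
    exact smul_ne_zero (inv_ne_zero (Nat.cast_ne_zero.mpr (Nat.factorial_ne_zero k))) hxk
  have horb : ∀ t f, (aeval (orbP M k x) f).eval t = eval (ct t) f := by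
    intro t f
    rw [eval_aeval]
    have h1 : (fun b => (orbP M k x b).eval t) = ct t := funext (fun b => eval_orbP M k x b t)
    rw [h1, aeval_eq_eval]
  have hciI : ci ∈ VI I := by
    intro f hf
    rw [← sum_homogeneousComponent f, map_sum]
    refine Finset.sum_eq_zero (fun e _ => ?_)
    rw [hci, ← coeff_aeval_top (natDegree_orbP M k x) (homogeneousComponent_isHomogeneous e f)]
    have h1 : aeval (orbP M k x) (homogeneousComponent e f) = 0 := by
      apply Polynomial.funext
      intro t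
      rw [horb, Polynomial.eval_zero]
      exact hctI t _ (hX.hhom f hf e)
    rw [h1, Polynomial.coeff_zero]
  obtain ⟨⟨H, hH, hHli⟩, -⟩ := hS.good ci trivial hci0 hciI
  obtain ⟨T, hT⟩ := exists_minor _ hHli
  set Q : Matrix (Fin c) (Fin c) (Polynomial ℂ) :=
    Matrix.of fun i l => aeval (orbP M k x) (pderiv (T l) (H i)) with hQ
  have hQd : ∀ i l, (Q i l).natDegree ≤ (D - 1) * k := fun i l =>
    natDegree_aeval_le (natDegree_orbP M k x) (hH i).2.pderiv
  have hQtop : Q.det.coeff (c * ((D - 1) * k)) ≠ 0 := by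
    have h1 := coeff_det_top Q (fun _ => (D - 1) * k) hQd
    rw [Finset.sum_const, Finset.card_univ, Fintype.card_fin, smul_eq_mul] at h1
    rw [h1]
    have h2 : (Matrix.of fun i l => (Q i l).coeff ((D - 1) * k)) =
        Matrix.of fun i l => grad ci (H i) (T l) := by
      ext i l
      rw [Matrix.of_apply, Matrix.of_apply, hQ, Matrix.of_apply,
        coeff_aeval_top (natDegree_orbP M k x) (hH i).2.pderiv, grad_apply]
    rw [h2]
    exact hT
  have hQev : ∀ t, (Matrix.of fun i l => (Q i l).eval t) =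
      Matrix.of fun i l => grad (ct t) (H i) (T l) := by
    intro t
    ext i l
    rw [Matrix.of_apply, Matrix.of_apply, hQ, Matrix.of_apply, horb, grad_apply]
  -- the rows
  set r : Fin c → ρ → Polynomial ℂ := fun j b =>
    ∑ a, Polynomial.C (grad x (h j) a) * (expP M k a b).comp (-Polynomial.X) with hr
  have hcomp : ∀ a b, ((expP M k a b).comp (-Polynomial.X)).natDegree ≤ k := by
    intro a b
    refine Polynomial.natDegree_comp_le.trans ?_
    rw [Polynomial.natDegree_neg, Polynomial.natDegree_X, mul_one]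
    exact natDegree_expP M k a b
  have hcompe : ∀ a b t, ((expP M k a b).comp (-Polynomial.X)).eval t = expM M k (-t) a b := by
    intro a b t
    rw [Polynomial.eval_comp, Polynomial.eval_neg, Polynomial.eval_X, eval_expP]
  have hrd : ∀ j b, (r j b).natDegree ≤ k := by
    intro j b
    refine Polynomial.natDegree_sum_le_of_forall_le _ _ (fun a _ => ?_)
    exact (Polynomial.natDegree_C_mul_le _ _).trans (hcomp a b)
  have hrev : ∀ j b t, (r j b).eval t = grad (ct t) (h' j t) b := by
    intro j b t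
    rw [hh'g, hr, Polynomial.eval_finsetSum, Matrix.vecMul, dotProduct]
    refine Finset.sum_congr rfl (fun a _ => ?_)
    rw [Polynomial.eval_mul, Polynomial.eval_C, hcompe]
  -- functionals
  have key : ∀ lam : MvPolynomial (Fin k × ρ) ℂ →ₗ[ℂ] ℂ,
      (∀ g b, eval (orbC M k x) g = 0 → b ∈ a → lam (g * b) = 0) →
      (∀ (j : Fin c) (i : Fin (2 * k)),
        lam (sbt x k (((i : ℕ) + 1 : ℕ) : ℂ) (h' j (((i : ℕ) + 1 : ℕ) : ℂ))) = 0) →
      ∀ b ∈ a, lam b = 0 := by
    intro lam hl1 hl2
    have hmul : ∀ t g b, b ∈ I → lam (sbt x k t (g * b)) =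
        eval (ct t) g * lam (sbt x k t b) := by
      intro t g b hb
      have h1 : sbt x k t (g * b) = (sbt x k t g - C (eval (ct t) g)) * sbt x k t b +
          (eval (ct t) g) • sbt x k t b := by
        rw [map_mul, smul_eq_C_mul]
        ring
      rw [h1, map_add, map_smul, smul_eq_mul, hl1 _ _ _ (hmema t b hb), zero_add]
      rw [map_sub, hev0, eval_C, sub_self]
    have hzero : ∀ t, ∀ g ∈ I, grad (ct t) g = 0 → lam (sbt x k t g) = 0 := by
      intro t g hg hg0
      exact hX.local_zero (hct0 t) (hctI t) (lam ∘ₗ (sbt x k t).toLinearMap)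
        (fun g b hb => hmul t g b hb) hg hg0
    have hδ : ∀ j, ∃ δ : Polynomial ℂ, ∀ t, δ.eval t = lam (sbt x k t (h' j t)) := by
      intro j
      exact exists_delta lam x M k (h j)
    choose δ hδ using hδ
    set θ : Fin c → Polynomial ℂ := fun i => lamC lam (aeval (gcv x k) (H i)) with hθ
    have hθd : ∀ i, (θ i).natDegree ≤ D * k := fun i =>
      natDegree_lamC lam (natDegree_aeval_le (natDegree_gcv x k) (hH i).2)
    have hθe : ∀ i t, (θ i).eval t = lam (sbt x k t (H i)) := by
      intro i t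
      rw [hθ]
      simp only
      rw [eval_lamC, eval_aeval]
      simp only [eval_gcv]
      rfl
    have hrel : ∀ j, Q.det * δ j =
        ∑ i, Matrix.cramer Q.transpose (fun l => r j (T l)) i * θ i := by
      intro j
      apply Polynomial.funext
      intro t
      have h1 := mm_of_mem (hX.finrank (hct0 t) (hctI t)) (fun i => grad (ct t) (H i))
        (fun i => grad_mem_gradSpan (hH i).1 _) T (grad_mem_gradSpan (hh'I j t) (ct t))
      have h2 : grad (ct t) ((Matrix.of fun i l => grad (ct t) (H i) (T l)).det • h' j t -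
          ∑ i, (Matrix.cramer (Matrix.of fun i l => grad (ct t) (H i) (T l)).transpose
            (fun l => grad (ct t) (h' j t) (T l))) i • H i) = 0 := by
        rw [map_sub, map_smul, map_sum, ← h1]
        simp only [map_smul]
        rfl
      have h3 := hzero t _ (I.sub_mem (by
          rw [smul_eq_C_mul]
          exact I.mul_mem_left _ (hh'I j t)) (Ideal.sum_mem _ (fun i _ => by
          rw [smul_eq_C_mul]
          exact I.mul_mem_left _ (hH i).1))) h2
      rw [map_sub, map_smul, map_sum, map_sub, map_smul, map_sum, sub_eq_zero, smul_eq_mul] at h3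
      rw [Polynomial.eval_mul, Polynomial.eval_finsetSum, det_eval, hQev, hδ, h3]
      refine Finset.sum_congr rfl (fun i _ => ?_)
      rw [map_smul, map_smul, smul_eq_mul, Polynomial.eval_mul, cramer_eval, hQev, hθe]
      simp only [hrev]
    have hδ0 : ∀ j, δ j = 0 := by
      intro j
      by_contra hne
      have hcpos : 1 ≤ c := by
        have := j.2
        omega
      have hdet0 : Q.det ≠ 0 := by
        intro h0
        apply hQtop
        rw [h0, Polynomial.coeff_zero]
      have hd1 : c * ((D - 1) * k) ≤ Q.det.natDegree := Polynomial.le_natDegree_of_ne_zero hQtop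
      have hd2 : (Q.det * δ j).natDegree ≤ ((c - 1) * ((D - 1) * k) + k) + D * k := by
        rw [hrel]
        refine Polynomial.natDegree_sum_le_of_forall_le _ _ (fun i _ => ?_)
        exact Polynomial.natDegree_mul_le.trans (Nat.add_le_add
          (natDegree_cramer Q _ i hQd (fun l => hrd j (T l))) (hθd i))
      rw [Polynomial.natDegree_mul hdet0 hne] at hd2
      have hd3 : (δ j).natDegree ≤ 2 * k := by
        have h1 : c * ((D - 1) * k) = (c - 1) * ((D - 1) * k) + (D - 1) * k := by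
          obtain ⟨c', rfl⟩ : ∃ c', c = c' + 1 := ⟨c - 1, by omega⟩
          rw [Nat.add_sub_cancel]
          ring
        have h2 : D * k = (D - 1) * k + k := by
          obtain ⟨D', rfl⟩ : ∃ D', D = D' + 1 := ⟨D - 1, by omega⟩
          rw [Nat.add_sub_cancel]
          ring
        omega
      apply hne
      refine Polynomial.eq_zero_of_natDegree_lt_card_of_eval_eq_zero (δ j)
        (f := fun i : Fin (2 * k + 1) => ((i : ℕ) : ℂ)) ?_ ?_ ?_
      · intro i i' hii
        apply Fin.ext
        have h1 : ((i : ℕ) : ℂ) = ((i' : ℕ) : ℂ) := hii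
        exact_mod_cast h1
      · intro i
        rw [hδ]
        rcases Nat.eq_zero_or_pos (i : ℕ) with h0 | h0
        · rw [h0, Nat.cast_zero, sbt_zero]
          have h1 : ct 0 = x := by
            rw [hct]
            simp only
            rw [expM_zero, Matrix.one_mulVec]
          have h2 := hctI 0 _ (hh'I j 0)
          rw [h1] at h2
          rw [h2, C_0, map_zero]
        · have h1 := hl2 j ⟨(i : ℕ) - 1, by omega⟩
          simp only at h1
          rwa [Nat.sub_add_cancel h0] at h1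
      · rw [Fintype.card_fin]
        omega
    have hall : ∀ t, ∀ f ∈ I, lam (sbt x k t f) = 0 := by
      intro t f hf
      have hF'I : cmM (expM M k t) f ∈ I := by
        refine mem_of_eval_zero hX.hI (fun z hz => ?_)
        rw [eval_cmM]
        exact hst t z hz _ hf
      have h1 : grad x (cmM (expM M k t) f) ∈
          Submodule.span ℂ (Set.range fun j => grad x (h j)) := by
        rw [hspan]
        exact grad_mem_gradSpan hF'I x
      obtain ⟨α, hα⟩ := (Submodule.mem_span_range_iff_exists_fun _).mp h1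
      have h2 : grad (ct t) (f - ∑ j, α j • h' j t) = 0 := by
        have h3 : grad x (cmM (expM M k t) f) = Matrix.vecMul (grad (ct t) f) (expM M k t) :=
          grad_cmM _ _ _
        rw [map_sub, map_sum, sub_eq_zero]
        have h4 : ∑ j, grad (ct t) (α j • h' j t) =
            Matrix.vecMul (∑ j, α j • grad x (h j)) (expM M k (-t)) := by
          rw [Matrix.sum_vecMul]
          refine Finset.sum_congr rfl (fun j _ => ?_)
          rw [map_smul, hh'g, Matrix.smul_vecMul]
        rw [h4, hα, h3, Matrix.vecMul_vecMul, expM_add hM, add_neg_cancel, expM_zero,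
          Matrix.vecMul_one]
      have h3 := hzero t _ (I.sub_mem hf (Ideal.sum_mem _ (fun j _ => by
        rw [smul_eq_C_mul]
        exact I.mul_mem_left _ (hh'I j t)))) h2
      rw [map_sub, map_sub, map_sum, map_sum, sub_eq_zero] at h3
      rw [h3]
      refine Finset.sum_eq_zero (fun j _ => ?_)
      rw [map_smul, map_smul, ← hδ, hδ0, Polynomial.eval_zero, smul_zero]
    intro b hb
    rw [ha] at hb
    refine Submodule.span_induction (p := fun b _ => lam b = 0) ?_ ?_ ?_ ?_ hb
    · rintro _ ⟨t, f, hf, rfl⟩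
      exact hall t f hf
    · exact map_zero _
    · intro b b' _ _ hb hb'
      rw [map_add, hb, hb', add_zero]
    · intro g b hb hb0
      have h4 : g • b = (g - C (eval (orbC M k x) g)) * b + (eval (orbC M k x) g) • b := by
        rw [smul_eq_mul, smul_eq_C_mul]; ring
      rw [h4, map_add, hl1 _ _ (by rw [map_sub, eval_C, sub_self]) hb, map_smul, hb0, smul_zero,
        add_zero]
  -- Nakayama
  set e : Fin c × Fin (2 * k) → MvPolynomial (Fin k × ρ) ℂ := fun p =>
    sbt x k (((p.2 : ℕ) + 1 : ℕ) : ℂ) (h' p.1 (((p.2 : ℕ) + 1 : ℕ) : ℂ)) with he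
  set N : Ideal (MvPolynomial (Fin k × ρ) ℂ) := Ideal.span (Set.range e) with hN
  set m : Ideal (MvPolynomial (Fin k × ρ) ℂ) := RingHom.ker (eval (orbC M k x)) with hm
  have hle : a ≤ N ⊔ m • a := by
    intro b hb
    by_contra hbn
    obtain ⟨lam, hlamb, hlam⟩ := Submodule.exists_le_ker_of_notMem
      (p := (N ⊔ m • a).restrictScalars ℂ) (v := b) hbn
    apply hlamb
    refine key lam ?_ ?_ b hb
    · intro g b hg hb
      exact hlam (Submodule.mem_sup_right (Submodule.smul_mem_smul hg hb))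
    · intro j i
      exact hlam (Submodule.mem_sup_left (Ideal.subset_span ⟨(j, i), rfl⟩))
  obtain ⟨u, hu, hu2⟩ := Submodule.exists_sub_one_mem_and_smul_le_of_fg_of_le_sup
    (IsNoetherian.noetherian a) le_rfl hle
  have hu1 : eval (orbC M k x) u ≠ 0 := by
    have h1 : eval (orbC M k x) (u - 1) = 0 := hu
    rw [map_sub, map_one, sub_eq_zero] at h1
    rw [h1]
    exact one_ne_zero
  obtain ⟨P, hP, hgP, hPv, hPd⟩ := exists_prime_at e (orbC M k x) (fun p => by
    rw [he]
    simp only
    rw [hev0]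
    exact hctI _ _ (hh'I _ _))
  have huP : u ∉ P := fun h => hu1 (hPv u h)
  refine ⟨P, hP, fun q hq => curveIn_of_one hX.hhom (fun t f hf => ?_), ?_⟩
  · rw [← eval_sbt]
    apply hq
    have h1 : u * sbt x k t f ∈ N := hu2 (Submodule.smul_mem_pointwise_smul _ u _ (hmema t f hf))
    have h2 : N ≤ P := by
      rw [hN, Ideal.span_le]
      rintro _ ⟨p, rfl⟩
      exact hgP p
    exact (hP.mem_or_mem (h2 h1)).resolve_left huP
  · have h1 := le_of_add_le hPd
    refine le_trans ?_ h1
    have h2 : k * (Fintype.card ρ - 2 * c) =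
        Fintype.card (Fin k × ρ) - Fintype.card (Fin c × Fin (2 * k)) := by
      rw [Fintype.card_prod, Fintype.card_prod, Fintype.card_fin, Fintype.card_fin,
        Fintype.card_fin, Nat.mul_sub]
      congr 1
      ring
    rw [h2]

end Orb

end Pool.Agent.HartA
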