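import Mathlib
import Pool.Agent.HartA.OneParam

/-!
Complete intersections of quadrics with a nilpotent tangent matrix.
-/

namespace Pool.Agent.HartA

open Pool.Agent.Hartshorne MvPolynomial

set_option linter.unusedSectionVars false

section QSeq

/-- The key fact on sequences: no terms of `(1 + z)^(l+1) B(z)` in the middle degrees. -/
lemma seq_zero (k l : ℕ) (hl : 1 ≤ l) (B : ℕ → ℂ) (h0 : ∀ i, i < l → B i = 0)
    (h1 : ∀ i, k < i → B i = 0)
    (hrel : ∀ a, a < k → ∑ m ∈ Finset.range (l + 2),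
      ((l + 1).choose m : ℂ) * B (a + (l + 1 - m)) = 0) : ∀ i, B i = 0 := by
  set P : Polynomial ℂ := ∑ i ∈ Finset.range (k + 1), Polynomial.monomial i (B i) with hP
  have hPc : ∀ i, P.coeff i = B i := by
    intro i
    rw [hP, Polynomial.finsetSum_coeff]
    simp only [Polynomial.coeff_monomial]
    rw [Finset.sum_ite_eq' (Finset.range (k + 1)) i]
    split_ifs with hi
    · rfl
    · rw [h1 i (by rw [Finset.mem_range] at hi; omega)]
  set Q : Polynomial ℂ := (Polynomial.X + 1) ^ (l + 1) * P with hQ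
  have hQc : ∀ m, Q.coeff m = ∑ i ∈ Finset.range (m + 1),
      ((l + 1).choose i : ℂ) * B (m - i) := by
    intro m
    rw [hQ, Polynomial.coeff_mul, Finset.Nat.sum_antidiagonal_eq_sum_range_succ
      (fun i j => ((Polynomial.X + 1 : Polynomial ℂ) ^ (l + 1)).coeff i * P.coeff j)]
    refine Finset.sum_congr rfl (fun i _ => ?_)
    rw [Polynomial.coeff_X_add_one_pow, hPc]
  have hQ2 : Q = Polynomial.C (Q.coeff l) * Polynomial.X ^ l +
      Polynomial.C (Q.coeff (k + l + 1)) * Polynomial.X ^ (k + l + 1) := by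
    ext m
    rw [Polynomial.coeff_add, Polynomial.coeff_C_mul, Polynomial.coeff_C_mul,
      Polynomial.coeff_X_pow, Polynomial.coeff_X_pow]
    rcases lt_trichotomy m l with hm | hm | hm
    · rw [if_neg (by omega), if_neg (by omega), mul_zero, mul_zero, add_zero, hQc]
      refine Finset.sum_eq_zero (fun i _ => ?_)
      rw [h0 _ (by omega), mul_zero]
    · subst hm
      rw [if_pos rfl, if_neg (by omega), mul_one, mul_zero, add_zero]
    · rcases lt_trichotomy m (k + l + 1) with hm2 | hm2 | hm2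
      · rw [if_neg (by omega), if_neg (by omega), mul_zero, mul_zero, add_zero, hQc]
        obtain ⟨a, rfl⟩ : ∃ a, m = a + (l + 1) := ⟨m - (l + 1), by omega⟩
        rw [← hrel a (by omega)]
        symm
        refine Finset.sum_subset_zero_on_sdiff (fun i hi => ?_) (fun i hi => ?_) (fun i hi => ?_)
        · rw [Finset.mem_range] at hi ⊢
          omega
        · rw [Finset.mem_sdiff, Finset.mem_range, Finset.mem_range] at hi
          rw [Nat.choose_eq_zero_of_lt (by omega), Nat.cast_zero, zero_mul]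
        · rw [Finset.mem_range] at hi
          congr 2
          omega
      · subst hm2
        rw [if_neg (by omega), if_pos rfl, mul_zero, mul_one, zero_add]
      · rw [if_neg (by omega), if_neg (by omega), mul_zero, mul_zero, add_zero, hQc]
        refine Finset.sum_eq_zero (fun i hi => ?_)
        by_cases hi2 : l + 1 < i
        · rw [Nat.choose_eq_zero_of_lt hi2, Nat.cast_zero, zero_mul]
        · rw [h1 _ (by omega), mul_zero]
  set α := Q.coeff l with hα
  set β := Q.coeff (k + l + 1) with hβ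
  have he0 : Q.eval (-1) = 0 := by
    rw [hQ, Polynomial.eval_mul, Polynomial.eval_pow]
    simp
  have he1 : (Polynomial.derivative Q).eval (-1) = 0 := by
    rw [hQ, Polynomial.derivative_mul, Polynomial.derivative_pow, Polynomial.eval_add,
      Polynomial.eval_mul, Polynomial.eval_mul, Polynomial.eval_mul, Polynomial.eval_mul,
      Polynomial.eval_pow, Polynomial.eval_pow]
    have h3 : (Polynomial.X + 1 : Polynomial ℂ).eval (-1) = 0 := by simp
    rw [h3, zero_pow (by omega), zero_pow (by omega)]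
    ring
  rw [hQ2] at he0 he1
  obtain ⟨l', rfl⟩ : ∃ l', l = l' + 1 := ⟨l - 1, by omega⟩
  simp only [Polynomial.eval_add, Polynomial.eval_mul, Polynomial.eval_C, Polynomial.eval_pow,
    Polynomial.eval_X, Polynomial.derivative_add, Polynomial.derivative_mul,
    Polynomial.derivative_C, Polynomial.derivative_X_pow, zero_mul, zero_add] at he0 he1
  have hu : ((-1 : ℂ) ^ l') ≠ 0 := pow_ne_zero _ (by norm_num)
  have hw : ((-1 : ℂ) ^ k) ≠ 0 := pow_ne_zero _ (by norm_num)
  have e1 : l' + 1 - 1 = l' := by omega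
  have e2 : k + (l' + 1) + 1 - 1 = k + (l' + 1) := by omega
  rw [e1, e2] at he1
  push_cast at he1
  have hβ0 : β = 0 := by
    have h4 : β * ((k : ℂ) + 1) * ((-1) ^ l' * (-1) ^ k) = 0 := by
      have h5 := he1
      have h6 := he0
      rw [pow_add, pow_succ] at h5
      rw [pow_succ, pow_succ (-1 : ℂ) (k + (l' + 1)), pow_add, pow_succ] at h6
      linear_combination (-1) * h5 - ((l' : ℂ) + 1) * h6
    rcases mul_eq_zero.mp h4 with h5 | h5
    · rcases mul_eq_zero.mp h5 with h6 | h6
      · exact h6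
      · exfalso
        have : ((k + 1 : ℕ) : ℂ) = 0 := by push_cast; exact h6
        exact Nat.succ_ne_zero k (Nat.cast_eq_zero.mp this)
    · exact absurd h5 (mul_ne_zero hu hw)
  have hα0 : α = 0 := by
    rw [hβ0, zero_mul, add_zero] at he0
    rcases mul_eq_zero.mp he0 with h5 | h5
    · exact h5
    · exact absurd h5 (pow_ne_zero _ (by norm_num))
  have hQ0 : Q = 0 := by rw [hQ2, hα0, hβ0]; simp
  have hP0 : P = 0 := by
    rw [hQ] at hQ0
    rcases mul_eq_zero.mp hQ0 with h5 | h5
    · exfalso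
      have h6 := pow_eq_zero_iff (by omega) |>.mp h5
      have h7 := congrArg (Polynomial.eval 0) h6
      simp at h7
    · exact h5
  intro i
  rw [← hPc, hP0, Polynomial.coeff_zero]

end QSeq

section QMat

variable {ρ : Type*} [Fintype ρ] [DecidableEq ρ]

/-- The action of a matrix on bilinear forms. -/
noncomputable def dl (M : Matrix ρ ρ ℂ) : Module.End ℂ (Matrix ρ ρ ℂ) :=
  LinearMap.mulRight ℂ M + LinearMap.mulLeft ℂ M.transpose

lemma dl_apply (M A : Matrix ρ ρ ℂ) : dl M A = A * M + M.transpose * A := rfl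

lemma dl_pow (M A : Matrix ρ ρ ℂ) (n : ℕ) : (dl M ^ n) A =
    ∑ m ∈ Finset.range (n + 1), (n.choose m : ℂ) • (M.transpose ^ (n - m) * A * M ^ m) := by
  have h1 : Commute (LinearMap.mulRight ℂ M) (LinearMap.mulLeft ℂ M.transpose) :=
    (LinearMap.commute_mulLeft_right M.transpose M).symm
  rw [dl, h1.add_pow, LinearMap.sum_apply]
  refine Finset.sum_congr rfl (fun m _ => ?_)
  have h2 : ((n.choose m : ℕ) : Module.End ℂ (Matrix ρ ρ ℂ)) A = (n.choose m : ℂ) • A := by
    rw [Module.End.natCast_apply, Nat.cast_smul_eq_nsmul]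
  rw [Module.End.mul_apply, Module.End.mul_apply, h2, map_smul, map_smul,
    LinearMap.pow_mulLeft, LinearMap.pow_mulRight, LinearMap.mulLeft_apply,
    LinearMap.mulRight_apply]


lemma dl_nilp {M : Matrix ρ ρ ℂ} (hM : IsNilpotent M) : IsNilpotent (dl M) := by
  have h1 : Commute (LinearMap.mulRight ℂ M) (LinearMap.mulLeft ℂ M.transpose) :=
    (LinearMap.commute_mulLeft_right M.transpose M).symm
  obtain ⟨n, hn⟩ := hM
  refine h1.isNilpotent_add ⟨n, ?_⟩ ⟨n, ?_⟩
  · rw [LinearMap.pow_mulRight, hn]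
    ext A
    simp
  · rw [LinearMap.pow_mulLeft, ← Matrix.transpose_pow, hn]
    ext A
    simp

lemma quad_move (A M : Matrix ρ ρ ℂ) (k : ℕ) (x y : ρ → ℂ) :
    (M ^ k).mulVec x ⬝ᵥ A.mulVec ((M ^ k).mulVec y) =
      x ⬝ᵥ (M.transpose ^ k * A * M ^ k).mulVec y := by
  rw [← Matrix.mulVec_mulVec, ← Matrix.mulVec_mulVec, Matrix.dotProduct_mulVec x,
    ← Matrix.transpose_pow, Matrix.vecMul_transpose]

/-- The linear algebra of spaces of quadrics with a nilpotent tangent matrix. -/
theorem quad_core (W : Submodule ℂ (Matrix ρ ρ ℂ))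
    {M : Matrix ρ ρ ℂ} (hM0 : M ≠ 0) (hM : IsNilpotent M) (hW : ∀ A ∈ W, dl M A ∈ W)
    (hns : ∀ p : ρ → ℂ, p ≠ 0 → (∀ A ∈ W, p ⬝ᵥ A.mulVec p = 0) → ∀ A ∈ W, A.mulVec p = 0 → A = 0)
    (hnd : ∀ H : ρ → ℂ, H ≠ 0 → ∃ x : ρ → ℂ, (∀ A ∈ W, x ⬝ᵥ A.mulVec x = 0) ∧ H ⬝ᵥ x ≠ 0)
    {A : Matrix ρ ρ ℂ} (hA : A ∈ W) (hA0 : A ≠ 0) {B : Matrix ρ ρ ℂ} (hB : B ∈ W) :
    ∃ z : ℂ, B = z • A := by
  classical
  -- the exponent `k`
  obtain ⟨k, hk0, hk1⟩ : ∃ k, M ^ k ≠ 0 ∧ M ^ (k + 1) = 0 := by
    have h1 : ∃ n, M ^ n = 0 := hM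
    have h2 := Nat.find_spec h1
    have h3 : Nat.find h1 ≠ 0 := by
      intro h
      rw [h, pow_zero] at h2
      apply hM0
      rw [← mul_one M, h2, mul_zero]
    obtain ⟨k, hk⟩ := Nat.exists_eq_succ_of_ne_zero h3
    refine ⟨k, Nat.find_min h1 (by omega), ?_⟩
    rw [hk] at h2
    exact h2
  have hk : 0 < k := by
    rcases Nat.eq_zero_or_pos k with h | h
    · exfalso
      rw [h, zero_add, pow_one] at hk1
      exact hM0 hk1
    · exact h
  have hMz : ∀ n, k < n → M ^ n = 0 := by
    intro n hn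
    obtain ⟨m, rfl⟩ := Nat.exists_eq_add_of_lt hn
    rw [show k + m + 1 = (k + 1) + m by ring, pow_add, hk1, zero_mul]
  have hMtz : ∀ n, k < n → M.transpose ^ n = 0 := by
    intro n hn
    rw [← Matrix.transpose_pow, hMz n hn, Matrix.transpose_zero]
  have hWn : ∀ (n : ℕ), ∀ A ∈ W, (dl M ^ n) A ∈ W := by
    intro n
    induction n with
    | zero => intro A hA; simpa using hA
    | succ n ih =>
      intro A hA
      rw [pow_succ', Module.End.mul_apply]
      exact hW _ (ih A hA)
  -- the exponent `l`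
  have hex : ∃ n, ∀ A ∈ W, (dl M ^ n) A = 0 := by
    obtain ⟨n, hn⟩ := dl_nilp hM
    exact ⟨n, fun A _ => by rw [hn, LinearMap.zero_apply]⟩
  have hl0 : Nat.find hex ≠ 0 := by
    intro h
    have h2 := Nat.find_spec hex
    rw [h] at h2
    apply hA0
    simpa using h2 A hA
  obtain ⟨l, hl⟩ := Nat.exists_eq_succ_of_ne_zero hl0
  have hl1 : ∀ A ∈ W, (dl M ^ (l + 1)) A = 0 := by
    have h2 := Nat.find_spec hex
    rw [hl] at h2
    exact h2
  have hl2 : ¬ ∀ A ∈ W, (dl M ^ l) A = 0 := Nat.find_min hex (by omega)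
  rcases Nat.eq_zero_or_pos l with hl3 | hl3
  · -- `l = 0`
    subst hl3
    clear hl hl0 hl2
    have hanti : ∀ A ∈ W, ∀ n, M.transpose ^ n * A = (-1 : ℂ) ^ n • (A * M ^ n) := by
      intro A hA n
      have h1 : M.transpose * A = (-1 : ℂ) • (A * M) := by
        have h2 := hl1 A hA
        rw [zero_add, pow_one, dl_apply] at h2
        rw [neg_one_smul]
        exact eq_neg_of_add_eq_zero_right h2
      induction n with
      | zero => simp
      | succ n ih =>
        rw [pow_succ, mul_assoc, h1, mul_smul_comm, ← mul_assoc, ih, smul_mul_assoc, smul_smul,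
          mul_assoc, ← pow_succ, ← pow_succ']
    -- the range
    set R : Submodule ℂ (ρ → ℂ) := LinearMap.range (M ^ k).mulVecLin with hR
    set R' : Submodule ℂ (ρ → ℂ) := LinearMap.range (M.transpose ^ k).mulVecLin with hR'
    have hfr : Module.finrank ℂ R = Module.finrank ℂ R' := by
      show (M ^ k).rank = (M.transpose ^ k).rank
      rw [← Matrix.transpose_pow, Matrix.rank_transpose]
    have hmaps : ∀ A ∈ W, ∀ p ∈ R, A.mulVecLin p ∈ R' := by
      rintro A hA _ ⟨a, rfl⟩
      refine ⟨(-1 : ℂ) ^ k • A.mulVec a, ?_⟩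
      rw [Matrix.mulVecLin_apply, Matrix.mulVecLin_apply, Matrix.mulVecLin_apply,
        Matrix.mulVec_smul, Matrix.mulVec_mulVec, Matrix.mulVec_mulVec, hanti A hA,
        Matrix.smul_mulVec, smul_smul, ← mul_pow]
      norm_num
    have hzero : ∀ p ∈ R, ∀ A ∈ W, p ⬝ᵥ A.mulVec p = 0 := by
      rintro _ ⟨a, rfl⟩ A hA
      rw [Matrix.mulVecLin_apply, quad_move, hanti A hA, smul_mul_assoc, mul_assoc, ← pow_add,
        hMz (k + k) (by omega), mul_zero, smul_zero, Matrix.zero_mulVec, dotProduct_zero]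
    have hinj : ∀ p ∈ R, p ≠ 0 → ∀ A ∈ W, A.mulVec p = 0 → A = 0 := by
      intro p hp hp0
      exact hns p hp0 (hzero p hp)
    have hRnt : Nontrivial R := by
      rw [Submodule.nontrivial_iff_ne_bot]
      intro h
      apply hk0
      have h2 : (M ^ k).mulVecLin = 0 := LinearMap.range_eq_bot.mp h
      have h3 : Matrix.toLin' (M ^ k) = 0 := h2
      exact (LinearEquiv.map_eq_zero_iff _).mp h3
    set LA : R →ₗ[ℂ] R' := LinearMap.restrict A.mulVecLin (hmaps A hA) with hLA
    set LB : R →ₗ[ℂ] R' := LinearMap.restrict B.mulVecLin (hmaps B hB) with hLB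
    have hLAinj : Function.Injective LA := by
      rw [← LinearMap.ker_eq_bot, LinearMap.ker_eq_bot']
      intro p hp
      by_contra hp0
      apply hA0
      refine hinj p p.2 (fun h => hp0 (Subtype.ext h)) A hA ?_
      have := congrArg Subtype.val hp
      exact this
    set eA := LinearMap.linearEquivOfInjective LA hLAinj hfr with heA
    obtain ⟨z, hz⟩ := Module.End.exists_eigenvalue (eA.symm.toLinearMap ∘ₗ LB)
    obtain ⟨p, hp⟩ := hz.exists_hasEigenvector
    refine ⟨z, ?_⟩
    have h1 : LB p = z • LA p := by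
      have h2 := hp.apply_eq_smul
      rw [LinearMap.comp_apply] at h2
      have h3 := congrArg eA h2
      rw [LinearEquiv.coe_coe, LinearEquiv.apply_symm_apply, map_smul] at h3
      exact h3
    have h2 : B.mulVec (p : ρ → ℂ) = z • A.mulVec (p : ρ → ℂ) := congrArg Subtype.val h1
    have h3 := hinj p p.2 (fun h => hp.2 (Subtype.ext h)) (B - z • A)
      (W.sub_mem hB (W.smul_mem z hA)) (by
        rw [Matrix.sub_mulVec, Matrix.smul_mulVec, h2, sub_self])
    exact sub_eq_zero.mp h3
  · -- `1 ≤ l`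
    exfalso
    apply hl2
    -- the key vanishing
    have hkey : ∀ A ∈ W, M.transpose ^ l * A * M ^ k = 0 := by
      intro A hA
      ext s t
      set b : ℕ → ℂ := fun i => (M.transpose ^ i * A * M ^ (k + l - i)) s t with hb
      have hb0 : ∀ i, b i = 0 := by
        apply seq_zero k l hl3 b
        · intro i hi
          show (M.transpose ^ i * A * M ^ (k + l - i)) s t = 0
          rw [hMz _ (by omega), mul_zero, Matrix.zero_apply]
        · intro i hi
          show (M.transpose ^ i * A * M ^ (k + l - i)) s t = 0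
          rw [hMtz _ hi, zero_mul, zero_mul, Matrix.zero_apply]
        · intro a ha
          have h1 : M.transpose ^ a * (dl M ^ (l + 1)) A * M ^ (k - 1 - a) = 0 := by
            rw [hl1 A hA, mul_zero, zero_mul]
          rw [dl_pow, Finset.mul_sum, Finset.sum_mul] at h1
          have h2 := congrFun (congrFun h1 s) t
          rw [Matrix.sum_apply, Matrix.zero_apply] at h2
          rw [← h2]
          refine Finset.sum_congr rfl (fun m hm => ?_)
          rw [Finset.mem_range] at hm
          rw [mul_smul_comm, smul_mul_assoc, Matrix.smul_apply, smul_eq_mul]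
          congr 1
          show (M.transpose ^ (a + (l + 1 - m)) * A * M ^ (k + l - (a + (l + 1 - m)))) s t = _
          rw [show k + l - (a + (l + 1 - m)) = m + (k - 1 - a) by omega, pow_add, pow_add]
          simp only [mul_assoc]
      have h3 := hb0 l
      rw [hb] at h3
      simpa using h3
    -- the point
    obtain ⟨i, hi⟩ : ∃ i, (M ^ k) i ≠ 0 := by
      by_contra hcon
      push Not at hcon
      exact hk0 (funext hcon)
    obtain ⟨x, hx, hHx⟩ := hnd ((M ^ k) i) hi
    set p : ρ → ℂ := (M ^ k).mulVec x with hp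
    have hp0 : p ≠ 0 := by
      intro h
      exact hHx (congrFun h i)
    have hpz : ∀ A ∈ W, p ⬝ᵥ A.mulVec p = 0 := by
      intro A hA
      rw [hp, quad_move]
      have h1 := hx _ (hWn (k + k) A hA)
      have h2 : (dl M ^ (k + k)) A = ((k + k).choose k : ℂ) • (M.transpose ^ k * A * M ^ k) := by
        rw [dl_pow, Finset.sum_eq_single k]
        · rw [Nat.add_sub_cancel]
        · intro m hm hmk
          rcases lt_or_gt_of_ne hmk with h | h
          · rw [hMtz _ (by omega), zero_mul, zero_mul, smul_zero]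
          · rw [hMz _ h, mul_zero, smul_zero]
        · intro h
          exact absurd (Finset.mem_range.mpr (by omega)) h
      rw [h2, Matrix.smul_mulVec, dotProduct_smul, smul_eq_mul] at h1
      rcases mul_eq_zero.mp h1 with h3 | h3
      · exfalso
        exact (Nat.choose_pos (Nat.le_add_right k k)).ne' (Nat.cast_eq_zero.mp h3)
      · exact h3
    intro A hA
    refine hns p hp0 hpz _ (hWn l A hA) ?_
    rw [hp, Matrix.mulVec_mulVec]
    have h1 : (dl M ^ l) A * M ^ k = M.transpose ^ l * A * M ^ k := by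
      rw [dl_pow, Finset.sum_mul, Finset.sum_eq_single 0]
      · simp
      · intro m hm hm0
        rw [smul_mul_assoc, mul_assoc, ← pow_add, hMz _ (by omega), mul_zero, smul_zero]
      · intro h
        exact absurd (Finset.mem_range.mpr (by omega)) h
    rw [h1, hkey A hA, Matrix.zero_mulVec]

end QMat

section QPoly

variable {ρ : Type} [Fintype ρ] [DecidableEq ρ] {I : Ideal (MvPolynomial ρ ℂ)} {c : ℕ}

/-- The matrix of second derivatives at the origin. -/
noncomputable def hs : MvPolynomial ρ ℂ →ₗ[ℂ] Matrix ρ ρ ℂ where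
  toFun := fun F => Matrix.of fun a b => eval 0 (pderiv b (pderiv a F))
  map_add' := by
    intro F G
    ext a b
    simp
  map_smul' := by
    intro t F
    ext a b
    simp

lemma hs_apply (F : MvPolynomial ρ ℂ) (a b : ρ) : hs F a b = eval 0 (pderiv b (pderiv a F)) := rfl

lemma pderiv_comm_q (a b : ρ) (F : MvPolynomial ρ ℂ) :
    pderiv a (pderiv b F) = pderiv b (pderiv a F) := by
  have h1 : ⁅(pderiv a : Derivation ℂ (MvPolynomial ρ ℂ) (MvPolynomial ρ ℂ)),
      (pderiv b : Derivation ℂ (MvPolynomial ρ ℂ) (MvPolynomial ρ ℂ))⁆ = 0 := by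
    apply derivation_ext
    intro i
    rw [Derivation.commutator_apply, pderiv_X, pderiv_X, Derivation.zero_apply]
    by_cases h1 : b = i
    · by_cases h2 : a = i
      · subst h1; subst h2; simp
      · subst h1; simp [h2]
    · by_cases h2 : a = i
      · subst h2; simp [h1]
      · simp [h1, h2]
  have h2 := congrArg (fun D => D F) h1
  simp only [Derivation.commutator_apply, Derivation.zero_apply] at h2
  exact sub_eq_zero.mp h2

lemma hs_symm (F : MvPolynomial ρ ℂ) (a b : ρ) : hs F a b = hs F b a := by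
  rw [hs_apply, hs_apply, pderiv_comm_q]

/-- The gradient of a quadratic form. -/
lemma grad_quad {F : MvPolynomial ρ ℂ} (hF : F.IsHomogeneous 2) (u : ρ → ℂ) :
    grad u F = (hs F).mulVec u := by
  funext a
  rw [grad_apply]
  have h1 : (pderiv a F).IsHomogeneous 1 := hF.pderiv
  have h2 := congrArg (eval u) h1.sum_X_mul_pderiv
  rw [one_smul] at h2
  rw [← h2, map_sum]
  show _ = ∑ b, hs F a b * u b
  refine Finset.sum_congr rfl (fun b _ => ?_)
  rw [map_mul, eval_X, mul_comm, hs_apply]
  congr 1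
  have h3 : (pderiv b (pderiv a F)).IsHomogeneous 0 := h1.pderiv
  have h4 := totalDegree_eq_zero_iff_eq_C.mp ((totalDegree_zero_iff_isHomogeneous _).mpr h3)
  rw [h4, eval_C, eval_C]

/-- The value of a quadratic form. -/
lemma eval_quad {F : MvPolynomial ρ ℂ} (hF : F.IsHomogeneous 2) (u : ρ → ℂ) :
    u ⬝ᵥ (hs F).mulVec u = 2 * eval u F := by
  rw [← grad_quad hF]
  have h2 := congrArg (eval u) hF.sum_X_mul_pderiv
  rw [map_sum, nsmul_eq_mul, map_mul] at h2
  have h3 : eval u ((2 : ℕ) : MvPolynomial ρ ℂ) = 2 := by simp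
  rw [h3] at h2
  rw [← h2]
  refine Finset.sum_congr rfl (fun b _ => ?_)
  rw [map_mul, eval_X, grad_apply]

/-- The action of a tangent matrix on the second derivatives. -/
lemma hs_DM (M : Matrix ρ ρ ℂ) (F : MvPolynomial ρ ℂ) : hs (DM M F) = dl M (hs F) := by
  ext a b
  rw [hs_apply, DM, dl_apply, Matrix.add_apply, Matrix.mul_apply, Matrix.mul_apply,
    map_sum, map_sum, map_sum, ← Finset.sum_add_distrib]
  refine Finset.sum_congr rfl (fun i _ => ?_)
  have h1 : ∀ a : ρ, pderiv a (∑ j, C (M i j) * X j : MvPolynomial ρ ℂ) = C (M i a) := by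
    intro a
    rw [map_sum, Finset.sum_eq_single a]
    · rw [pderiv_C_mul, pderiv_X_self, mul_one]
    · intro j _ hj
      rw [pderiv_C_mul, pderiv_X_of_ne hj, mul_zero]
    · intro h
      exact absurd (Finset.mem_univ _) h
  have h2 : eval 0 (∑ j, C (M i j) * X j : MvPolynomial ρ ℂ) = 0 := by
    rw [map_sum]
    refine Finset.sum_eq_zero (fun j _ => ?_)
    rw [map_mul, eval_X, Pi.zero_apply, mul_zero]
  rw [pderiv_mul, h1, map_add, pderiv_C_mul, pderiv_mul, h1, map_add, map_add, map_mul, map_mul,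
    map_mul, h2, zero_mul, add_zero, eval_C, eval_C, Matrix.transpose_apply, hs_symm F a i,
    hs_apply, hs_apply, pderiv_comm_q a i]
  ring

/-- A quadratic form in an ideal generated by quadratic forms. -/
lemma quad_mem (G : Fin c → MvPolynomial ρ ℂ) (hG : ∀ k, (G k).IsHomogeneous 2)
    {F : MvPolynomial ρ ℂ} (hF : F.IsHomogeneous 2) (hFI : F ∈ Ideal.span (Set.range G)) :
    F ∈ Submodule.span ℂ (Set.range G) := by
  rw [Ideal.mem_span_range_iff_exists_fun] at hFI
  obtain ⟨a, ha⟩ := hFI
  have h1 : ∀ k, homogeneousComponent 2 (a k * G k) = coeff 0 (a k) • G k := by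
    intro k
    conv_lhs => rw [← sum_homogeneousComponent (a k), Finset.sum_mul, map_sum]
    rw [Finset.sum_eq_single 0]
    · rw [homogeneousComponent_zero, ← smul_eq_C_mul, map_smul,
        homogeneousComponent_eq_self (hG k)]
    · intro e _ he
      have h2 : (homogeneousComponent e (a k) * G k).IsHomogeneous (e + 2) :=
        (homogeneousComponent_isHomogeneous e (a k)).mul (hG k)
      rw [homogeneousComponent_of_mem h2, if_neg (by omega)]
    · intro h
      exact absurd (Finset.mem_range.mpr (by omega)) h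
  rw [← homogeneousComponent_eq_self hF, ← ha, map_sum]
  refine Submodule.sum_mem _ (fun k _ => ?_)
  rw [h1]
  exact Submodule.smul_mem _ _ (Submodule.subset_span ⟨k, rfl⟩)

lemma DM_homog (M : Matrix ρ ρ ℂ) {F : MvPolynomial ρ ℂ} (hF : F.IsHomogeneous 2) :
    (DM M F).IsHomogeneous 2 := by
  rw [DM]
  refine IsHomogeneous.sum _ _ _ (fun i _ => ?_)
  have h1 : (∑ j, C (M i j) * X j : MvPolynomial ρ ℂ).IsHomogeneous 1 := by
    refine IsHomogeneous.sum _ _ _ (fun j _ => ?_)
    have := (isHomogeneous_C ρ (M i j)).mul (isHomogeneous_X ℂ j)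
    rwa [zero_add] at this
  exact h1.mul hF.pderiv

/-- **Complete intersections of quadrics with a nilpotent tangent matrix are hypersurfaces.**
Doc, section 6. -/
theorem NX.quad_nil (hX : NX I c) (G : Fin c → MvPolynomial ρ ℂ)
    (hG : ∀ k, (G k).IsHomogeneous 2) (hGI : Ideal.span (Set.range G) = I)
    {M : Matrix ρ ρ ℂ} (hM0 : M ≠ 0) (hM : IsNilpotent M) (ht : Tangent I M) : c ≤ 1 := by
  -- the space of quadrics
  set U : Submodule ℂ (MvPolynomial ρ ℂ) := Submodule.span ℂ (Set.range G) with hU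
  have hUh : ∀ F ∈ U, F.IsHomogeneous 2 := by
    intro F hF
    have h1 : U ≤ homogeneousSubmodule ρ ℂ 2 := by
      rw [hU, Submodule.span_le]
      rintro _ ⟨k, rfl⟩
      exact hG k
    exact h1 hF
  have hUI : ∀ F ∈ U, F ∈ I := by
    intro F hF
    have h1 : U ≤ (Ideal.span (Set.range G)).restrictScalars ℂ := by
      rw [hU, Submodule.span_le]
      rintro _ ⟨k, rfl⟩
      exact Ideal.subset_span ⟨k, rfl⟩
    rw [← hGI]
    exact h1 hF
  have hVI : ∀ p : ρ → ℂ, (∀ A ∈ U.map hs, p ⬝ᵥ A.mulVec p = 0) ↔ p ∈ VI I := by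
    intro p
    constructor
    · intro h F hF
      rw [← hGI] at hF
      have h1 : Ideal.span (Set.range G) ≤ RingHom.ker (eval p) := by
        rw [Ideal.span_le]
        rintro _ ⟨k, rfl⟩
        rw [SetLike.mem_coe, RingHom.mem_ker]
        have h2 := h (hs (G k)) ⟨G k, Submodule.subset_span ⟨k, rfl⟩, rfl⟩
        rw [eval_quad (hG k)] at h2
        rcases mul_eq_zero.mp h2 with h3 | h3
        · norm_num at h3
        · exact h3
      exact h1 hF
    · rintro h _ ⟨F, hF, rfl⟩
      rw [eval_quad (hUh F hF), h F (hUI F hF), mul_zero]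
  -- independence of the gradients
  have hli : ∀ p : ρ → ℂ, p ≠ 0 → p ∈ VI I → LinearIndependent ℂ (fun k => grad p (G k)) := by
    intro p hp0 hp
    rw [linearIndependent_iff_card_eq_finrank_span, Fintype.card_fin, Set.finrank]
    have h1 : Submodule.span ℂ (Set.range fun k => grad p (G k)) = gradSpan I p := by
      apply le_antisymm
      · rw [Submodule.span_le]
        rintro _ ⟨k, rfl⟩
        exact grad_mem_gradSpan (hUI _ (Submodule.subset_span ⟨k, rfl⟩)) p
      · intro w hw
        obtain ⟨F, hF, rfl⟩ := exists_grad_of_mem hw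
        rw [← hGI, Ideal.mem_span_range_iff_exists_fun] at hF
        obtain ⟨a, ha⟩ := hF
        rw [← ha, map_sum]
        refine Submodule.sum_mem _ (fun k _ => ?_)
        rw [grad_mul, hp (G k) (hUI _ (Submodule.subset_span ⟨k, rfl⟩)), zero_smul, add_zero]
        exact Submodule.smul_mem _ _ (Submodule.subset_span ⟨k, rfl⟩)
    rw [h1, hX.finrank hp0 hp]
  by_contra hc
  push Not at hc
  -- a point
  obtain ⟨i, hi⟩ : ∃ i, M i ≠ 0 := by
    by_contra hcon
    push Not at hcon
    exact hM0 (funext hcon)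
  obtain ⟨q, hq, hq1⟩ := hX.hnd (M i) hi
  have hq0 : q ≠ 0 := by
    rintro rfl
    exact hq1 (dotProduct_zero _)
  have hliq := hli q hq0 hq
  have hGne : ∀ k, G k ≠ 0 := by
    intro k h
    apply hliq.ne_zero k
    show grad q (G k) = 0
    rw [h, map_zero]
  have hA0 : hs (G ⟨0, by omega⟩) ≠ 0 := by
    intro h
    apply hliq.ne_zero ⟨0, by omega⟩
    show grad q (G _) = 0
    rw [grad_quad (hG _), h, Matrix.zero_mulVec]
  obtain ⟨z, hz⟩ := quad_core (U.map hs) hM0 hM
    (by
      rintro _ ⟨F, hF, rfl⟩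
      refine ⟨DM M F, ?_, hs_DM M F⟩
      refine quad_mem G hG (DM_homog M (hUh F hF)) ?_
      rw [hGI]
      exact ht F (hUI F hF))
    (by
      rintro p hp0 hp _ ⟨F, hF, rfl⟩ h0
      rw [← grad_quad (hUh F hF)] at h0
      have hl := hli p hp0 ((hVI p).mp hp)
      obtain ⟨a, rfl⟩ := (Submodule.mem_span_range_iff_exists_fun ℂ).mp hF
      rw [map_sum] at h0
      simp only [map_smul] at h0
      have ha := Fintype.linearIndependent_iff.mp hl a h0
      rw [Finset.sum_eq_zero (fun k _ => by rw [ha k, zero_smul]), map_zero])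
    (by
      intro H hH
      obtain ⟨x, hx, hx1⟩ := hX.hnd H hH
      exact ⟨x, (hVI x).mpr hx, hx1⟩)
    (A := hs (G ⟨0, by omega⟩))
    (Submodule.mem_map_of_mem (Submodule.subset_span ⟨_, rfl⟩)) hA0
    (B := hs (G ⟨1, by omega⟩))
    (Submodule.mem_map_of_mem (Submodule.subset_span ⟨_, rfl⟩))
  have h1 : grad q (G ⟨1, by omega⟩) = z • grad q (G ⟨0, by omega⟩) := by
    rw [grad_quad (hG _), grad_quad (hG _), hz, Matrix.smul_mulVec]
  have h2 : (∑ k, (Pi.single (⟨1, by omega⟩ : Fin c) (1 : ℂ) -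
      Pi.single (⟨0, by omega⟩ : Fin c) z : Fin c → ℂ) k • grad q (G k)) = 0 := by
    simp only [Pi.sub_apply, sub_smul, Finset.sum_sub_distrib, Pi.single_apply, ite_smul,
      zero_smul, Finset.sum_ite_eq', Finset.mem_univ, if_true, one_smul]
    rw [h1, sub_self]
  have h3 := Fintype.linearIndependent_iff.mp hliq _ h2 ⟨1, by omega⟩
  rw [Pi.sub_apply, Pi.single_eq_same, Pi.single_eq_of_ne (by
    intro h
    exact absurd (congrArg Fin.val h) (by norm_num)), sub_zero] at h3
  exact one_ne_zero h3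

end QPoly

end Pool.Agent.HartA
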