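import Mathlib
import Pool.Agent.HartA.Break
import Pool.Agent.HartA.Jordan
import Pool.Agent.HartA.Orbit
import Pool.Agent.HartA.QuadNil
import Pool.Agent.HartN.FinalT

/-!
Varieties of small codimension with a tangent matrix.
-/

namespace Pool.Agent.HartA

open Pool.Agent.Hartshorne MvPolynomial

set_option linter.unusedSectionVars false

section Final

variable {ρ : Type} [Fintype ρ] [DecidableEq ρ] {I : Ideal (MvPolynomial ρ ℂ)} {c : ℕ}

/-- The nilpotent case. -/
theorem NX.nilpotent (hX : NX I c) (hc : 0 < c) (hN : 4 * c + 1 < Fintype.card ρ)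
    {M : Matrix ρ ρ ℂ} (ht : Tangent I M) (hM0 : M ≠ 0) (hM : IsNilpotent M) :
    c = 1 ∧ ∃ G : MvPolynomial ρ ℂ, G.IsHomogeneous 2 ∧ Ideal.span {G} = I := by
  classical
  have hex : ∃ n, M ^ n = 0 := hM
  set n := Nat.find hex with hn
  have hn0 : M ^ n = 0 := Nat.find_spec hex
  have hn2 : 2 ≤ n := by
    by_contra hlt
    have h1 : n = 0 ∨ n = 1 := by omega
    rcases h1 with h1 | h1
    · rw [h1, pow_zero] at hn0
      apply hM0
      rw [← mul_one M, hn0, mul_zero]
    · rw [h1, pow_one] at hn0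
      exact hM0 hn0
  obtain ⟨k, hk⟩ : ∃ k, n = k + 1 := ⟨n - 1, by omega⟩
  have hkM : M ^ k ≠ 0 := Nat.find_min hex (by omega)
  rw [hk] at hn0
  have hrow : ∃ i, (M ^ k) i ≠ 0 := by
    by_contra hcon
    push Not at hcon
    apply hkM
    ext i j
    exact congrFun (hcon i) j
  obtain ⟨i, hi⟩ := hrow
  obtain ⟨G, hG, hspan⟩ := hX.of_curves hc hN (by
    intro g hg
    have h1 : g * lform ((M ^ k) i) ∉ I := by
      intro h
      rcases hX.hI.mem_or_mem h with h | h
      · exact hg h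
      · exact hX.lform_notMem hi h
    obtain ⟨x, hx, hxg⟩ := hX.exists_general h1
    rw [map_mul, eval_lform] at hxg
    have hxk : (M ^ k).mulVec x ≠ 0 := by
      intro h0
      have h2 := congrFun h0 i
      rw [Matrix.mulVec, Pi.zero_apply] at h2
      rw [h2, mul_zero] at hxg
      exact hxg rfl
    have hx0 : x ≠ 0 := by
      rintro rfl
      exact hxk (Matrix.mulVec_zero _)
    refine ⟨x, hx, left_ne_zero_of_mul hxg, ?_⟩
    have hk0 : 0 < k := by omega
    exact hX.lines_of_curves (by omega) (by omega) hx0 hx hk0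
      (hX.orbit hk0 hn0 (fun t p hp => exp_mem hn0 ht hp t) hx hxk))
  have hc1 : c = 1 := by
    have := hX.quad_nil G hG hspan hM0 hM ht
    omega
  subst hc1
  refine ⟨rfl, G 0, hG 0, ?_⟩
  rw [← hspan]
  congr 1
  ext g
  rw [Set.mem_singleton_iff, Set.mem_range]
  constructor
  · rintro rfl
    exact ⟨0, rfl⟩
  · rintro ⟨j, rfl⟩
    rw [Subsingleton.elim j 0]

lemma mem_VI_tI {Φ : (ρ → ℂ) ≃ₗ[ℂ] (ρ → ℂ)} {p : ρ → ℂ} : p ∈ VI (tI Φ I) ↔ Φ p ∈ VI I := by
  constructor
  · intro h f hf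
    have h1 := h _ (lsub_mem_tI Φ I hf)
    rw [eval_lsub] at h1
    exact h1
  · intro h f hf
    rw [mem_tI] at hf
    have h1 := h _ hf
    rw [eval_lsub] at h1
    simpa using h1

/-- Change of coordinates. -/
theorem NX.transport (hX : NX I c) (Φ : (ρ → ℂ) ≃ₗ[ℂ] (ρ → ℂ)) : NX (tI Φ I) c where
  hI := tI_isPrime Φ I hX.hI
  hhom := tI_hom Φ I hX.hhom
  hdim := by rw [tI_dim]; exact hX.hdim
  hsm := by
    intro p hp0 hp
    obtain ⟨q, hq, hli⟩ := hX.hsm (Φ p) (by
      intro h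
      exact hp0 (by simpa using h)) (mem_VI_tI.mp hp)
    refine ⟨fun k => lsub (Φ : (ρ → ℂ) →ₗ[ℂ] (ρ → ℂ)) (q k), fun k => lsub_mem_tI Φ I (hq k), ?_⟩
    have hg : ∀ f : MvPolynomial ρ ℂ, ∀ j, grad p (lsub (Φ : (ρ → ℂ) →ₗ[ℂ] (ρ → ℂ)) f) j =
        Φ (Pi.single j 1) ⬝ᵥ grad (Φ p) f := by
      intro f j
      rw [grad_apply, pderiv_lsub, map_sum, dotProduct]
      refine Finset.sum_congr rfl (fun i _ => ?_)
      rw [map_mul, eval_C, eval_lsub, grad_apply]
      rfl
    rw [Fintype.linearIndependent_iff]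
    intro a ha
    refine Fintype.linearIndependent_iff.mp hli a ?_
    set w := ∑ k, a k • grad (Φ p) (q k) with hw
    have h1 : ∀ j, Φ (Pi.single j 1) ⬝ᵥ w = 0 := by
      intro j
      have h2 := congrFun ha j
      rw [Finset.sum_apply, Pi.zero_apply] at h2
      rw [hw, dotProduct_sum, ← h2]
      refine Finset.sum_congr rfl (fun k _ => ?_)
      rw [dotProduct_smul, Pi.smul_apply, hg]
    have h2 : ∀ v : ρ → ℂ, Φ v ⬝ᵥ w = 0 := by
      intro v
      rw [pi_eq_sum_univ' v, map_sum, sum_dotProduct]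
      refine Finset.sum_eq_zero (fun j _ => ?_)
      rw [map_smul, smul_dotProduct, h1, smul_zero]
    funext b
    have h3 := h2 (Φ.symm (Pi.single b 1))
    rw [LinearEquiv.apply_symm_apply, single_one_dotProduct] at h3
    exact h3
  hnd := by
    intro H hH
    by_contra hcon
    push Not at hcon
    -- the transported form
    set H' : ρ → ℂ := fun b => H ⬝ᵥ Φ.symm (Pi.single b 1) with hH'
    have h1 : ∀ v, H' ⬝ᵥ v = H ⬝ᵥ Φ.symm v := by
      intro v
      conv_rhs => rw [pi_eq_sum_univ' v, map_sum, dotProduct_sum]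
      rw [dotProduct]
      refine Finset.sum_congr rfl (fun b _ => ?_)
      rw [map_smul, dotProduct_smul, smul_eq_mul, hH', mul_comm]
    have hH'0 : H' ≠ 0 := by
      intro h0
      apply hH
      funext b
      have h2 := h1 (Φ (Pi.single b 1))
      rw [h0, zero_dotProduct, LinearEquiv.symm_apply_apply, dotProduct_single_one] at h2
      exact h2.symm
    obtain ⟨p, hp, hne⟩ := hX.hnd H' hH'0
    apply hne
    rw [h1]
    apply hcon
    rw [mem_VI_tI, LinearEquiv.apply_symm_apply]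
    exact hp

lemma eval_wz {a : ρ → ℤ} {m : ℤ} {f : MvPolynomial ρ ℂ} (hf : IsWeightedHomogeneous a f m)
    {t : ℂ} (ht : t ≠ 0) (x : ρ → ℂ) :
    eval (fun b => t ^ a b * x b) f = t ^ m * eval x f := by
  rw [eval_eq', eval_eq', Finset.mul_sum]
  refine Finset.sum_congr rfl (fun d hd => ?_)
  have h1 := hf (mem_support_iff.mp hd)
  rw [Finsupp.weight_apply, Finsupp.sum_fintype _ _ (by intro i; simp)] at h1
  have h2 : ∏ i, (t ^ a i * x i) ^ d i = (∏ i, t ^ (d i • a i)) * ∏ i, x i ^ d i := by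
    rw [← Finset.prod_mul_distrib]
    refine Finset.prod_congr rfl (fun i _ => ?_)
    rw [mul_pow]
    congr 1
    rw [nsmul_eq_mul, mul_comm, zpow_mul, zpow_natCast]
  have h3 : ∏ i, t ^ (d i • a i) = t ^ m := by
    rw [← h1]
    have h4 : ∀ s : Finset ρ, ∏ i ∈ s, t ^ (d i • a i) = t ^ (∑ i ∈ s, d i • a i) := by
      intro s
      induction s using Finset.induction_on with
      | empty => simp
      | insert i s hi ih =>
        rw [Finset.prod_insert hi, Finset.sum_insert hi, ih, zpow_add₀ ht]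
    exact h4 _
  rw [h2, h3]
  ring

/-- The diagonalizable case. -/
theorem NX.weights (hX : NX I c) (hc : 0 < c) (hN : 4 * c + 1 < Fintype.card ρ)
    (a : ρ → ℤ) (ha : ∃ i j, a i ≠ a j)
    (hw : ∀ f ∈ I, ∀ m : ℤ, weightedHomogeneousComponent a m f ∈ I) :
    c = 1 ∧ ∃ G : MvPolynomial ρ ℂ, G.IsHomogeneous 2 ∧ Ideal.span {G} = I := by
  classical
  refine core_torus hc hN I hX.hI hX.hhom hX.hdim hX.hsm hX.hnd' a ha ?_
  intro t ht x hx h hh
  have h1 := sum_weightedHomogeneousComponent a h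
  have hfin := weightedHomogeneousComponent_finsupp (w := a) h
  rw [finsum_eq_sum _ hfin] at h1
  rw [← h1, map_sum]
  refine Finset.sum_eq_zero (fun m _ => ?_)
  rw [eval_wz (weightedHomogeneousComponent_isWeightedHomogeneous m h) ht,
    hx _ (hw h hh m), mul_zero]

/-- **Varieties of small codimension with a tangent matrix are quadrics.** -/
theorem NX.tangent (hX : NX I c) (hc : 0 < c) (hN : 4 * c + 1 < Fintype.card ρ)
    {M : Matrix ρ ρ ℂ} (ht : Tangent I M) (hns : ∀ μ : ℂ, M ≠ μ • (1 : Matrix ρ ρ ℂ)) :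
    c = 1 ∧ ∃ G : MvPolynomial ρ ℂ, G.IsHomogeneous 2 ∧ Ideal.span {G} = I := by
  rcases nil_or_weights hX.hhom ht hns with ⟨ν, hν0, hν, hνt⟩ | ⟨Φ, a, ha, hw⟩
  · exact hX.nilpotent hc hN hνt hν0 hν
  · obtain ⟨hc1, G, hG, hspan⟩ := (hX.transport Φ).weights hc hN a ha hw
    refine ⟨hc1, lsub (Φ.symm : (ρ → ℂ) →ₗ[ℂ] (ρ → ℂ)) G, isHomogeneous_lsub _ _ _ hG, ?_⟩
    have h1 := tI_span (c := 1) Φ I (F := fun _ => G) (by
      rw [Set.range_const, hspan])
    rwa [Set.range_const] at h1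

end Final

end Pool.Agent.HartA
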