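import Mathlib
import Pool.Agent.HartA.Final
import Pool.Agent.HartA.Aut

/-!
Varieties of small codimension with infinitely many linear automorphisms.
-/

namespace Pool.Agent.HartA

open Pool.Agent.Hartshorne MvPolynomial

set_option linter.unusedSectionVars false

section AutFinal

variable {ρ : Type} [Fintype ρ] [DecidableEq ρ]

/-- **Quadric or finitely many linear automorphisms.** -/
theorem core_aut {c : ℕ} (hc : 0 < c) (hN : 4 * c + 1 < Fintype.card ρ)
    (I : Ideal (MvPolynomial ρ ℂ)) (hI : I.IsPrime) (hhom : HI I)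
    (hdim : ((Fintype.card ρ : ℕ) : WithBot ℕ∞) ≤
      ringKrullDim (MvPolynomial ρ ℂ ⧸ I) + (c : WithBot ℕ∞))
    (hsm : ∀ p : ρ → ℂ, p ≠ 0 → (∀ h ∈ I, eval p h = 0) →
      ∃ q : Fin c → MvPolynomial ρ ℂ, (∀ k, q k ∈ I) ∧
        LinearIndependent ℂ (fun k => fun j => eval p (pderiv j (q k))))
    (hnd : ∀ l ∈ I, l.IsHomogeneous 1 → l = 0) :
    (c = 1 ∧ ∃ G : MvPolynomial ρ ℂ, G.IsHomogeneous 2 ∧ Ideal.span {G} = I) ∨
    ∃ S : Set (Matrix ρ ρ ℂ), S.Finite ∧ ∀ A : Matrix ρ ρ ℂ, IsUnit A.det →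
      (∀ p, (∀ h ∈ I, eval p h = 0) → ∀ h ∈ I, eval (A.mulVec p) h = 0) →
      ∃ B ∈ S, ∃ μ : ℂ, A = μ • B := by
  classical
  have hX : NX I c :=
    { hI := hI
      hhom := hhom
      hdim := hdim
      hsm := fun p hp0 hp => hsm p hp0 hp
      hnd := by
        intro H hH
        by_contra hno
        push Not at hno
        have h1 : (∑ b, C (H b) * X b : MvPolynomial ρ ℂ) ∈ I := by
          refine mem_of_eval_zero hI (fun p hp => ?_)
          rw [map_sum, ← hno p hp, dotProduct]
          refine Finset.sum_congr rfl (fun b _ => ?_)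
          rw [map_mul, eval_C, eval_X]
        have h2 := hnd _ h1 (IsHomogeneous.sum _ _ _ (fun b _ => isHomogeneous_C_mul_X _ _))
        apply hH
        funext b
        have h3 := congrArg (eval (Pi.single b 1)) h2
        rw [map_sum, map_zero, Finset.sum_eq_single b] at h3
        · rwa [map_mul, eval_C, eval_X, Pi.single_eq_same, mul_one] at h3
        · intro b' _ hb'
          rw [map_mul, eval_C, eval_X, Pi.single_eq_of_ne hb', mul_zero]
        · intro h; exact absurd (Finset.mem_univ _) h }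
  by_cases hT : ∃ M : Matrix ρ ρ ℂ, Tangent I M ∧ ∀ μ : ℂ, M ≠ μ • (1 : Matrix ρ ρ ℂ)
  · obtain ⟨M, hM, hns⟩ := hT
    exact Or.inl (hX.tangent hc hN hM hns)
  · right
    by_contra hcon
    exact hT (exists_tangent hI hhom hcon)

end AutFinal

end Pool.Agent.HartA
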