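import Mathlib
import Pool.Agent.HartN.CurveEq
import Pool.Agent.HartN.Hyp
import Pool.Agent.HartA.Break
import Pool.Agent.HartA.Kappa
import Pool.Agent.HartA.Fiber

/-!
One rational curve of large anticanonical degree gives lines through the general point.
-/

namespace Pool.Agent.HartA

open Pool.Agent.Hartshorne MvPolynomial

set_option linter.unusedSectionVars false

section Dim

/-- The dimension of an irreducible variety is a natural number. -/
lemma exists_dim {σ : Type*} [Fintype σ] {P : Ideal (MvPolynomial σ ℂ)} (hP : P.IsPrime) :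
    ∃ d : ℕ, d ≤ Fintype.card σ ∧
      ringKrullDim (MvPolynomial σ ℂ ⧸ P) = ((d : ℕ) : WithBot ℕ∞) := by
  have h1 : ringKrullDim (MvPolynomial σ ℂ ⧸ P) ≤ ((Fintype.card σ : ℕ) : WithBot ℕ∞) := by
    have h2 := ringKrullDim_le_of_surjective (Ideal.Quotient.mk P) Ideal.Quotient.mk_surjective
    refine h2.trans ?_
    rw [MvPolynomial.ringKrullDim_of_isNoetherianRing]
    simp
  have h0 : (0 : WithBot ℕ∞) ≤ ringKrullDim (MvPolynomial σ ℂ ⧸ P) := by
    have : Nontrivial (MvPolynomial σ ℂ ⧸ P) := Ideal.Quotient.nontrivial_iff.mpr hP.ne_top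
    exact ringKrullDim_nonneg_of_nontrivial
  generalize ringKrullDim (MvPolynomial σ ℂ ⧸ P) = y at h1 h0
  induction y using WithBot.recBotCoe with
  | bot => exact absurd h0 (by simp)
  | coe y =>
    induction y using ENat.recTopCoe with
    | top =>
      exfalso
      have h8 : ((⊤ : ℕ∞) : WithBot ℕ∞) ≤ (((Fintype.card σ : ℕ) : ℕ∞) : WithBot ℕ∞) := h1
      rw [WithBot.coe_le_coe, top_le_iff] at h8
      exact ENat.natCast_ne_top _ h8
    | coe k =>
      refine ⟨k, ?_, rfl⟩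
      exact_mod_cast h1

end Dim

section OneCurve

variable {ρ : Type} [Fintype ρ] [DecidableEq ρ] {I : Ideal (MvPolynomial ρ ℂ)} {c : ℕ}

lemma crv_eq_curve {k : ℕ} (x : ρ → ℂ) (q : Fin k × ρ → ℂ) (s t : ℂ) :
    crv x q ![s, t] = curve x q s t := by
  funext b
  simp [crv, curve, Finset.sum_apply]

lemma dim_one {x : ρ → ℂ} {e : ℕ} (h : Dge I x 1 e) :
    ∃ Q : Ideal (MvPolynomial ρ ℂ), Q.IsPrime ∧
      (∀ w ∈ VI Q, ∀ s t : ℂ, s • x + t • w ∈ VI I) ∧
      (e : WithBot ℕ∞) ≤ ringKrullDim (MvPolynomial ρ ℂ ⧸ Q) := by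
  obtain ⟨P, hP, hPc, hPd⟩ := h
  set φ : MvPolynomial ρ ℂ ≃+* MvPolynomial (Fin 1 × ρ) ℂ :=
    (renameEquiv ℂ (Equiv.uniqueProd ρ (Fin 1)).symm).toRingEquiv with hφ
  refine ⟨P.comap (φ : MvPolynomial ρ ℂ →+* MvPolynomial (Fin 1 × ρ) ℂ),
    Ideal.comap_isPrime _ _, ?_, ?_⟩
  · intro w hw s t
    have h1 : (fun p : Fin 1 × ρ => w p.2) ∈ VI P := by
      intro g hg
      obtain ⟨g', rfl⟩ := φ.surjective g
      have h2 := hw g' hg
      rw [← h2]
      show eval (fun p : Fin 1 × ρ => w p.2)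
        (rename (Equiv.uniqueProd ρ (Fin 1)).symm g') = eval w g'
      rw [eval_rename]
      rfl
    have h2 := hPc _ h1 s t
    have h3 : curve x (fun p : Fin 1 × ρ => w p.2) s t = s • x + t • w := by
      funext b
      simp [curve]
    rwa [h3] at h2
  · refine hPd.trans (le_of_eq ?_)
    have h1 : P = (P.comap (φ : MvPolynomial ρ ℂ →+* MvPolynomial (Fin 1 × ρ) ℂ)).map
        (φ : MvPolynomial ρ ℂ →+* MvPolynomial (Fin 1 × ρ) ℂ) := by
      exact (Ideal.map_comap_of_surjective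
        (φ : MvPolynomial ρ ℂ →+* MvPolynomial (Fin 1 × ρ) ℂ) φ.surjective P).symm
    exact ringKrullDim_eq_of_ringEquiv (Ideal.quotientEquiv _ P φ h1).symm

/-- The family of curves of degree `j` through any point is not too large. -/
theorem NX.dge_le (hX : NX I c) (hc : 4 * c ≤ Fintype.card ρ + 1)
    (hc' : 3 * c ≤ Fintype.card ρ) {x : ρ → ℂ} (hx0 : x ≠ 0) (hx : x ∈ VI I) :
    ∀ j e : ℕ, Dge I x j e → e ≤ j * (Fintype.card ρ - 2 * c)
  | 0, e, h => by
    obtain ⟨P, hP, -, hPd⟩ := h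
    obtain ⟨d, hd, hdd⟩ := exists_dim hP
    rw [hdd] at hPd
    have h1 : e ≤ d := by exact_mod_cast hPd
    have h2 : Fintype.card (Fin 0 × ρ) = 0 := by
      rw [Fintype.card_prod, Fintype.card_fin, zero_mul]
    omega
  | 1, e, h => by
    obtain ⟨Q, hQ, hQl, hQd⟩ := dim_one h
    have h1 := hX.kappa hc hx0 hx hQ hQl
    have h2 : e ≤ Fintype.card ρ - 2 * c := by exact_mod_cast hQd.trans h1
    omega
  | j + 2, e, h => by
    rcases hX.break hc hx0 hx h with h1 | h1
    · have h2 := hX.dge_le hc hc' hx0 hx (j + 1) _ h1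
      have h3 : (j + 2) * (Fintype.card ρ - 2 * c) =
          (j + 1) * (Fintype.card ρ - 2 * c) + (Fintype.card ρ - 2 * c) := by ring
      omega
    · have h2 := hX.dge_le hc hc' hx0 hx j _ h1
      have h3 : (j + 2) * (Fintype.card ρ - 2 * c) =
          j * (Fintype.card ρ - 2 * c) + 2 * (Fintype.card ρ - 2 * c) := by ring
      omega

/-- **One rational curve is enough.** If the variety contains a rational curve of degree `k` whose
conormal bundle has small degree, then its deformations cover the variety, and the lines through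
the general point fill a large dimension. -/
theorem NX.one_curve {D k : ℕ} (hX : NX I c) (hS : NsCone I c D)
    (hc : 4 * c ≤ Fintype.card ρ + 1) (hc' : 3 * c < Fintype.card ρ) (hk : 0 < k)
    {x : ρ → ℂ} {q : Fin k × ρ → ℂ}
    (hne : ∀ z ≠ 0, crv x q z ≠ 0) (hvan : ∀ z, ∀ g ∈ I, eval (crv x q z) g = 0)
    {f : Fin c → ℕ} {ψ : Fin c → ρ → MvPolynomial (Fin 2) ℂ}
    (hψ : ∀ i, HomRow (f i) (ψ i))
    (hψE : ∀ z ≠ 0, ∀ i, rowEval z (ψ i) ∈ gradSpan I (crv x q z))
    (hψli : ∀ z ≠ 0, LinearIndependent ℂ fun i => rowEval z (ψ i))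
    (hf : ∑ i, f i ≤ c * k) :
    ∀ g ∉ I, ∃ y, y ≠ 0 ∧ (∀ h ∈ I, eval y h = 0) ∧ eval y g ≠ 0 ∧
      Dge I y 1 (Fintype.card ρ - 2 * c) := by
  classical
  obtain ⟨P, hP, hPp, hIP, hPd⟩ := hS.exists_curve_prime hne hvan hψ hψE hψli
  obtain ⟨dP, -, hdP⟩ := exists_dim hP
  rw [hdP] at hPd
  have hPd' : (k + 1) * Fintype.card ρ ≤ dP + (∑ i, f i + c * (k + 1)) := by exact_mod_cast hPd
  have hcurve : ∀ (y : ρ → ℂ) (q' : Fin k × ρ → ℂ), Sum.elim y q' ∈ VI P → CurveIn I y q' := by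
    intro y q' hy s t g hg
    have h1 := hy _ (hIP (Ideal.subset_span ⟨![s, t], g, hg, rfl⟩))
    rw [eval_crvA] at h1
    rw [← crv_eq_curve]
    exact h1
  set J := P.comap (rename (R := ℂ) (Sum.inl : ρ → ρ ⊕ (Fin k × ρ))) with hJ
  have hJp : J.IsPrime := Ideal.comap_isPrime _ _
  have hIJ : I ≤ J := by
    intro g hg
    have h1 : (crvA k ![1, 0] g : MvPolynomial (ρ ⊕ (Fin k × ρ)) ℂ) ∈ P :=
      hIP (Ideal.subset_span ⟨![1, 0], g, hg, rfl⟩)
    have h2 : (crvA k ![1, 0] g : MvPolynomial (ρ ⊕ (Fin k × ρ)) ℂ) = rename Sum.inl g := by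
      apply MvPolynomial.funext
      intro v
      rw [eval_crvA, eval_rename]
      congr 2
      funext b
      simp [crv]
    rw [h2] at h1
    exact h1
  obtain ⟨dI, -, hdI⟩ := exists_dim hX.hI
  obtain ⟨dJ, -, hdJ⟩ := exists_dim hJp
  have hdIc : dI + c ≤ Fintype.card ρ := by
    have hx0 : x ≠ 0 := by
      have h1 := hne ![1, 0] (by
        intro h2
        have := congrFun h2 0
        simp at this)
      intro hx
      apply h1
      rw [hx]
      funext b
      simp [crv]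
    have hxI : x ∈ VI I := by
      have h1 := hvan ![1, 0]
      have h2 : crv x q ![1, 0] = x := by
        funext b
        simp [crv]
      rw [h2] at h1
      exact h1
    obtain ⟨w, hw, hwli⟩ := hX.hsm x hx0 hxI
    have h1 := (point_case I hX.hI x hxI c w hw hwli).1
    rw [hdI] at h1
    exact_mod_cast h1
  have hdIc' : Fintype.card ρ ≤ dI + c := by
    have h1 := hX.hdim
    rw [hdI] at h1
    exact_mod_cast h1
  have hx0 : x ≠ 0 := by
    have h1 := hne ![1, 0] (by
      intro h2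
      have := congrFun h2 0
      simp at this)
    intro hx
    apply h1
    rw [hx]
    funext b
    simp [crv]
  have hxI : x ∈ VI I := by
    have h1 := hvan ![1, 0]
    have h2 : crv x q ![1, 0] = x := by
      funext b
      simp [crv]
    rw [h2] at h1
    exact h1
  have hmul1 : (k + 1) * Fintype.card ρ = k * Fintype.card ρ + Fintype.card ρ := by ring
  have hmul2 : c * (k + 1) = c * k + c := by ring
  have hmul3 : k * (Fintype.card ρ - 2 * c) + 2 * (c * k) = k * Fintype.card ρ := by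
    have h1 : Fintype.card ρ - 2 * c + 2 * c = Fintype.card ρ := by omega
    calc k * (Fintype.card ρ - 2 * c) + 2 * (c * k) = k * (Fintype.card ρ - 2 * c + 2 * c) := by
          ring
      _ = k * Fintype.card ρ := by rw [h1]
  -- the curves cover the variety
  have hJI : J = I := by
    by_contra hne'
    have hlt : I < J := lt_of_le_of_ne hIJ (fun h => hne' h.symm)
    have h1 : ringKrullDim (MvPolynomial ρ ℂ ⧸ J) + 1 ≤ ringKrullDim (MvPolynomial ρ ℂ ⧸ I) := by
      have := hX.hI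
      exact ringKrullDim_quotient_succ_le_of_lt hlt
    rw [hdI, hdJ] at h1
    have h2 : dJ + 1 ≤ dI := by exact_mod_cast h1
    obtain ⟨Q, hQ, -, hQP, hQd⟩ := exists_fiber (σ := ρ) (τ := Fin k × ρ) hP hPp (d := dJ)
      (le_of_eq hdJ)
    obtain ⟨dQ, -, hdQ⟩ := exists_dim hQ
    rw [hdP, hdQ] at hQd
    have h3 : dP ≤ dQ + dJ := by exact_mod_cast hQd
    have h4 := hX.dge_le hc hc'.le hx0 hxI k dQ
      ⟨Q, hQ, fun q' hq' => hcurve x q' (hQP q' hq'), le_of_eq hdQ.symm⟩
    omega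
  -- the general point
  intro g hg
  obtain ⟨b, hb⟩ := Function.ne_iff.mp hx0
  have hgb : g * X b ∉ J := by
    rw [hJI]
    intro hmem
    rcases hX.hI.mem_or_mem hmem with h1 | h1
    · exact hg h1
    · apply hb
      have := hxI _ h1
      rwa [eval_X] at this
  obtain ⟨p, hp, hpne⟩ : ∃ p : ρ ⊕ (Fin k × ρ) → ℂ, (∀ g ∈ P, eval p g = 0) ∧
      eval p (rename Sum.inl (g * X b)) ≠ 0 := by
    by_contra hno
    push Not at hno
    exact hgb (mem_of_eval_zero hP hno)
  set y : ρ → ℂ := fun b => p (Sum.inl b) with hy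
  set q' : Fin k × ρ → ℂ := fun j => p (Sum.inr j) with hq'
  have hpe : Sum.elim y q' = p := by
    funext i
    rcases i with i | i
    · rfl
    · rfl
  rw [eval_rename] at hpne
  have hpy : p ∘ Sum.inl = y := rfl
  rw [hpy, map_mul, eval_X] at hpne
  have hyP : Sum.elim y q' ∈ VI P := by rw [hpe]; exact hp
  have hyI : ∀ h ∈ I, eval y h = 0 := by
    intro h hh
    have h1 := hp _ (hIJ hh)
    rw [eval_rename] at h1
    exact h1
  have hy0 : y ≠ 0 := by
    intro h0
    apply right_ne_zero_of_mul hpne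
    rw [h0]
    rfl
  refine ⟨y, hy0, hyI, left_ne_zero_of_mul hpne, ?_⟩
  have hJd : ringKrullDim (MvPolynomial ρ ℂ ⧸ J) ≤ ((dI : ℕ) : WithBot ℕ∞) := by
    rw [hJI, hdI]
  obtain ⟨Q, hQ, -, hQP, hQd⟩ := exists_fiber (σ := ρ) (τ := Fin k × ρ) hP hyP (d := dI) hJd
  obtain ⟨dQ, -, hdQ⟩ := exists_dim hQ
  rw [hdP, hdQ] at hQd
  have h3 : dP ≤ dQ + dI := by exact_mod_cast hQd
  refine hX.lines_of_curves hc hc' hy0 hyI hk ⟨Q, hQ, fun q' hq' => hcurve y q' (hQP q' hq'), ?_⟩
  rw [hdQ]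
  exact_mod_cast (by omega : k * (Fintype.card ρ - 2 * c) ≤ dQ)

end OneCurve

end Pool.Agent.HartA
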