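import Mathlib
import Pool.Agent.HartN.Final
import Pool.Agent.HartN.FinalT
import Pool.Agent.HartA.OneCurve

/-!
Hartshorne's conjecture for varieties with one rational curve of large anticanonical degree.
-/

namespace Pool.Agent.HartA

open Pool.Agent.Hartshorne MvPolynomial

set_option linter.unusedSectionVars false

section RatFinal

variable {ρ : Type} [Fintype ρ] [DecidableEq ρ]

/-- From curves of degree one to the union of the lines through a point. -/
lemma coneI_of_dge {I : Ideal (MvPolynomial ρ ℂ)} {y : ρ → ℂ} {e : ℕ} (h : Dge I y 1 e) :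
    (e : WithBot ℕ∞) ≤ ringKrullDim (MvPolynomial ρ ℂ ⧸ coneI I y) := by
  obtain ⟨Q, hQ, hQl, hQd⟩ := dim_one h
  refine hQd.trans ?_
  have h1 : coneI I y ≤ Q := by
    intro g hg
    refine mem_of_eval_zero hQ (fun w hw => ?_)
    rw [mem_coneI] at hg
    exact hg w (hQl w hw)
  exact ringKrullDim_le_of_surjective (Ideal.Quotient.factor h1) (Ideal.Quotient.factor_surjective h1)

/-- A binary form with vector coefficients. -/
noncomputable def formV (m : ℕ) (v : ℕ → ρ → ℂ) (s t : ℂ) : ρ → ℂ :=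
  ∑ j ∈ Finset.range (m + 1), (s ^ (m - j) * t ^ j) • v j

/-- **Hartshorne's conjecture for varieties with one rational curve of large anticanonical
degree.** -/
theorem core_rational {c k : ℕ} (hc : 0 < c) (hN : 4 * c + 1 < Fintype.card ρ) (hk : 0 < k)
    (I : Ideal (MvPolynomial ρ ℂ)) (hI : I.IsPrime) (hhom : HI I)
    (hdim : ((Fintype.card ρ : ℕ) : WithBot ℕ∞) ≤
      ringKrullDim (MvPolynomial ρ ℂ ⧸ I) + (c : WithBot ℕ∞))
    (hsm : ∀ p : ρ → ℂ, p ≠ 0 → (∀ h ∈ I, eval p h = 0) →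
      ∃ q : Fin c → MvPolynomial ρ ℂ, (∀ k, q k ∈ I) ∧
        LinearIndependent ℂ (fun k => fun j => eval p (pderiv j (q k))))
    (hnd : ∀ l ∈ I, l.IsHomogeneous 1 → l = 0)
    (v : ℕ → ρ → ℂ) (hv0 : ∀ s t : ℂ, s ≠ 0 ∨ t ≠ 0 → formV k v s t ≠ 0)
    (hvI : ∀ s t : ℂ, ∀ h ∈ I, eval (formV k v s t) h = 0)
    (f : Fin c → ℕ) (ψ : Fin c → ℕ → ρ → ℂ)
    (hψ : ∀ s t : ℂ, s ≠ 0 ∨ t ≠ 0 →
      Submodule.span ℂ (Set.range fun i => formV (f i) (ψ i) s t) =
        gradSpan I (formV k v s t))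
    (hf : ∑ i, f i ≤ c * k) :
    ∃ G : Fin c → MvPolynomial ρ ℂ, (∀ i, (G i).IsHomogeneous 2) ∧
      Ideal.span (Set.range G) = I := by
  classical
  obtain ⟨D, hS⟩ := exists_nsCone I hI hhom hdim hsm
  have hX : NX I c :=
    { hI := hI
      hhom := hhom
      hdim := hdim
      hsm := fun p hp0 hp => hsm p hp0 hp
      hnd := by
        intro H hH
        by_contra hno
        push Not at hno
        have h1 : (∑ b, C (H b) * X b : MvPolynomial ρ ℂ) ∈ I := by
          refine mem_of_eval_zero hI (fun p hp => ?_)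
          rw [map_sum, ← hno p hp, dotProduct]
          refine Finset.sum_congr rfl (fun b _ => ?_)
          rw [map_mul, eval_C, eval_X]
        have h2 := hnd _ h1 (IsHomogeneous.sum _ _ _ (fun b _ => isHomogeneous_C_mul_X _ _))
        apply hH
        funext b
        have h3 := congrArg (eval (Pi.single b 1)) h2
        rw [map_sum, map_zero, Finset.sum_eq_single b] at h3
        · rwa [map_mul, eval_C, eval_X, Pi.single_eq_same, mul_one] at h3
        · intro b' _ hb'
          rw [map_mul, eval_C, eval_X, Pi.single_eq_of_ne hb', mul_zero]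
        · intro h; exact absurd (Finset.mem_univ _) h }
  -- the curve
  set x : ρ → ℂ := v 0 with hx
  set q : Fin k × ρ → ℂ := fun p => v ((p.1 : ℕ) + 1) p.2 with hq
  have hcrv : ∀ z : Fin 2 → ℂ, crv x q z = formV k v (z 0) (z 1) := by
    intro z
    funext b
    rw [formV, Finset.sum_apply, Finset.sum_range_succ', crv]
    simp only [Pi.smul_apply, smul_eq_mul, pow_zero, mul_one, Nat.sub_zero]
    rw [add_comm, Finset.sum_range]
    congr 1
    refine Finset.sum_congr rfl (fun i _ => ?_)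
    have h1 : k - 1 - (i : ℕ) = k - ((i : ℕ) + 1) := by omega
    rw [h1]
  have hz0 : ∀ z : Fin 2 → ℂ, z ≠ 0 → z 0 ≠ 0 ∨ z 1 ≠ 0 := by
    intro z hz
    by_contra hcon
    push Not at hcon
    apply hz
    funext i
    rcases fin2_cases i with rfl | rfl
    · exact hcon.1
    · exact hcon.2
  -- the rows
  set Ψ : Fin c → ρ → MvPolynomial (Fin 2) ℂ := fun i b =>
    ∑ j ∈ Finset.range (f i + 1), X 0 ^ (f i - j) * X 1 ^ j * C (ψ i j b) with hΨ
  have hΨev : ∀ z i, rowEval z (Ψ i) = formV (f i) (ψ i) (z 0) (z 1) := by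
    intro z i
    funext b
    rw [rowEval_apply, hΨ, formV, Finset.sum_apply, map_sum]
    refine Finset.sum_congr rfl (fun j _ => ?_)
    rw [map_mul, map_mul, map_pow, map_pow, eval_X, eval_X, eval_C, Pi.smul_apply, smul_eq_mul]
  have hΨh : ∀ i, HomRow (f i) (Ψ i) := by
    intro i b
    refine IsHomogeneous.sum _ _ _ (fun j hj => ?_)
    have hj' : j ≤ f i := Nat.lt_succ_iff.mp (Finset.mem_range.mp hj)
    have h1 := (((isHomogeneous_X ℂ (0 : Fin 2)).pow (f i - j)).mul
      ((isHomogeneous_X ℂ (1 : Fin 2)).pow j)).mul (isHomogeneous_C (Fin 2) (ψ i j b))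
    have h2 : 1 * (f i - j) + 1 * j + 0 = f i := by omega
    rwa [h2] at h1
  have hgood : ∀ z ≠ 0, GoodPt I c D (crv x q z) := fun z hz =>
    hS.good _ (by rw [hcrv]; exact hv0 _ _ (hz0 z hz)) (by rw [hcrv]; exact hvI _ _)
  have hspan : ∀ z ≠ 0, Submodule.span ℂ (Set.range fun i => rowEval z (Ψ i)) =
      gradSpan I (crv x q z) := by
    intro z hz
    simp only [hΨev]
    rw [hcrv]
    exact hψ _ _ (hz0 z hz)
  have hΨE : ∀ z ≠ 0, ∀ i, rowEval z (Ψ i) ∈ gradSpan I (crv x q z) := by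
    intro z hz i
    rw [← hspan z hz]
    exact Submodule.subset_span ⟨i, rfl⟩
  have hΨli : ∀ z ≠ 0, LinearIndependent ℂ fun i => rowEval z (Ψ i) := by
    intro z hz
    rw [linearIndependent_iff_card_eq_finrank_span, Set.finrank, hspan z hz, (hgood z hz).2,
      Fintype.card_fin]
  have hlines := hX.one_curve hS (by omega) (by omega) hk (x := x) (q := q)
    (fun z hz => by rw [hcrv]; exact hv0 _ _ (hz0 z hz))
    (fun z => by rw [hcrv]; exact hvI _ _) hΨh hΨE hΨli hf
  obtain ⟨G, e, hG, hGs, hGI⟩ := core_lines c hc (by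
    have h1 : c * (c - c - 1) = 0 := by
      rw [Nat.sub_self, Nat.zero_sub, mul_zero]
    omega) I hI hhom hdim hsm hnd (by
    intro g hg
    obtain ⟨y, hy0, hyI, hyg, hyd⟩ := hlines g hg
    refine ⟨y, hyI, hyg, ?_⟩
    have h1 := coneI_of_dge hyd
    have h2 : ((Fintype.card ρ : ℕ) : WithBot ℕ∞) =
        ((Fintype.card ρ - 2 * c : ℕ) : WithBot ℕ∞) + ((c + c : ℕ) : WithBot ℕ∞) := by
      rw [← Nat.cast_add]
      exact_mod_cast (by omega : Fintype.card ρ = Fintype.card ρ - 2 * c + (c + c))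
    rw [h2]
    exact add_le_add_left h1 _)
  have he2 : ∀ k, e k = 2 := by
    have h1 : ∑ k : Fin c, 1 ≤ ∑ k, (e k - 1) :=
      Finset.sum_le_sum (fun k _ => by have := (hG k).1; omega)
    have h2 : ∑ k : Fin c, 1 = ∑ k, (e k - 1) := by
      refine le_antisymm h1 ?_
      simpa using hGs
    have h3 := (Finset.sum_eq_sum_iff_of_le
      (fun k _ => by have := (hG k).1; omega : ∀ k ∈ Finset.univ, 1 ≤ e k - 1)).mp h2
    intro k
    have := h3 k (Finset.mem_univ _)
    omega
  exact ⟨G, fun i => by rw [← he2 i]; exact (hG i).2, hGI⟩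

end RatFinal

end Pool.Agent.HartA
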